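import Pool.Agent.Helper61.Motz.Peel

/-!
# The data in rank three exist for every set of atoms
-/

set_option autoImplicit false
set_option linter.unusedSectionVars false

namespace Pool.Agent.Helper80.BP

open Pool.Agent.Helper28.BPack Pool.Agent.Helper61.Motz

variable {L : Type} [Lattice L] [BoundedOrder L] [Finite L] [IsUpperModularLattice L]

/-- Rank three data exist for every finite set of atoms of rank three. -/
theorem crit3_all (A : Finset L) (hA : ∀ a ∈ A, IsAtom a) (hr : rk (A.sup id) = 3) :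
    Crit3 A := by
  classical
  -- a point outside every element of rank at most two
  have hex : ∀ x : L, rk x < 3 → ∃ a ∈ A, ¬ a ≤ x := by
    intro x hx
    by_contra hcon
    push Not at hcon
    have h1 : A.sup id ≤ x := Finset.sup_le hcon
    have h2 := rk_mono h1
    omega
  obtain ⟨u, hu, -⟩ := hex ⊥ (by rw [rk_bot]; omega)
  obtain ⟨v, hv, hvu⟩ := hex u (by rw [rk_atom (hA u hu)]; omega)
  have huv : u ≠ v := fun h => hvu h.symm.le
  -- a longest line
  set P : L → Finset L := fun m => A.filter (fun x => x ≤ m) with hP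
  have memP : ∀ m x, x ∈ P m ↔ x ∈ A ∧ x ≤ m := fun m x => by
    simp only [hP, Finset.mem_filter]
  obtain ⟨⟨a0, a1⟩, ha, hmax'⟩ := Finset.exists_max_image A.offDiag
    (fun q => (P (q.1 ⊔ q.2)).card) ⟨(u, v), Finset.mem_offDiag.mpr ⟨hu, hv, huv⟩⟩
  rw [Finset.mem_offDiag] at ha
  obtain ⟨ha0, ha1, ha01⟩ := ha
  change a0 ∈ A at ha0
  change a1 ∈ A at ha1
  change a0 ≠ a1 at ha01
  set l := a0 ⊔ a1 with hl
  have hmax : ∀ x ∈ A, ∀ y ∈ A, x ≠ y → (P (x ⊔ y)).card ≤ (P l).card := fun x hx y hy hxy =>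
    hmax' (x, y) (Finset.mem_offDiag.mpr ⟨hx, hy, hxy⟩)
  have hl2 : rk l = 2 := rk_line (hA _ ha0) (hA _ ha1) ha01
  have hal0 : a0 ≤ l := le_sup_left
  have hal1 : a1 ≤ l := le_sup_right
  have hcard2 : 2 ≤ (P l).card := by
    have h2 : ({a0, a1} : Finset L) ⊆ P l := by
      intro x hx
      rw [Finset.mem_insert, Finset.mem_singleton] at hx
      rw [memP]
      rcases hx with rfl | rfl
      · exact ⟨ha0, hal0⟩
      · exact ⟨ha1, hal1⟩
    have h3 := Finset.card_le_card h2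
    rw [Finset.card_pair ha01] at h3
    omega
  obtain ⟨c, hc, hcl⟩ := hex l (by omega)
  -- two points of a line
  have lin : ∀ x y w : L, x ∈ A → y ∈ A → x ≠ y → x ≤ w → y ≤ w → rk w = 2 → x ⊔ y = w :=
    fun x y w hx hy hxy h1 h2 h3 => line_eq (hA x hx) (hA y hy) hxy h1 h2 h3
  have rkl : ∀ x y : L, x ∈ A → y ∈ A → x ≠ y → rk (x ⊔ y) = 2 :=
    fun x y hx hy hxy => rk_line (hA x hx) (hA y hy) hxy
  -- Hall's theorem
  let X := {x : L // x ∈ A ∧ ¬ x ≤ l ∧ x ≠ c}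
  let T : X → Finset L := fun x =>
    ((P l).filter (fun α => ¬ c ≤ x.1 ⊔ α)).image (fun α => x.1 ⊔ α)
  have hxα : ∀ x : X, ∀ α ∈ P l, x.1 ≠ α := fun x α hα h =>
    x.2.2.1 (h ▸ ((memP l α).mp hα).2)
  have hinjα : ∀ x : X, ∀ α ∈ P l, ∀ α' ∈ P l, x.1 ⊔ α = x.1 ⊔ α' → α = α' := by
    intro x α hα α' hα' h
    by_contra hne
    have h1 := (memP l α).mp hα
    have h2 := (memP l α').mp hα'
    have h3 : α ⊔ α' = x.1 ⊔ α := lin α α' _ h1.1 h2.1 hne le_sup_right (h ▸ le_sup_right)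
      (rkl _ _ x.2.1 h1.1 (hxα x α hα))
    have h4 : α ⊔ α' = l := lin α α' l h1.1 h2.1 hne h1.2 h2.2 hl2
    have h5 : x.1 ≤ α ⊔ α' := h3.symm ▸ le_sup_left
    exact x.2.2.1 (h5.trans h4.le)
  have hTcard : ∀ x : X, (P l).card - 1 ≤ (T x).card := by
    intro x
    have h1 : (T x).card = ((P l).filter (fun α => ¬ c ≤ x.1 ⊔ α)).card := by
      apply Finset.card_image_of_injOn
      intro α hα α' hα' h
      exact hinjα x α (Finset.mem_filter.mp (Finset.mem_coe.mp hα)).1 α'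
        (Finset.mem_filter.mp (Finset.mem_coe.mp hα')).1 h
    have h2 : ((P l).filter (fun α => c ≤ x.1 ⊔ α)).card ≤ 1 := by
      rw [Finset.card_le_one]
      intro α hα α' hα'
      rw [Finset.mem_filter] at hα hα'
      have h3 := (memP l α).mp hα.1
      have h4 := (memP l α').mp hα'.1
      apply hinjα x α hα.1 α' hα'.1
      rw [← lin x.1 c _ x.2.1 hc x.2.2.2 le_sup_left hα.2 (rkl _ _ x.2.1 h3.1 (hxα x α hα.1)),
        lin x.1 c _ x.2.1 hc x.2.2.2 le_sup_left hα'.2 (rkl _ _ x.2.1 h4.1 (hxα x α' hα'.1))]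
    have h3 := Finset.card_filter_add_card_filter_not (s := P l) (fun α => c ≤ x.1 ⊔ α)
    omega
  have hHall : ∀ s : Finset X, s.card ≤ (s.biUnion T).card := by
    intro s
    have h1 : s.card * ((P l).card - 1) ≤ (s.biUnion T).card * ((P l).card - 1) := by
      apply Finset.card_mul_le_card_mul (fun x m => m ∈ T x)
      · intro x hx
        refine (hTcard x).trans (Finset.card_le_card ?_)
        intro m hm
        rw [Finset.mem_bipartiteAbove]
        exact ⟨Finset.mem_biUnion.mpr ⟨x, hx, hm⟩, hm⟩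
      · intro m hm
        obtain ⟨x0, hx0, hm0⟩ := Finset.mem_biUnion.mp hm
        obtain ⟨α, hα, rfl⟩ := Finset.mem_image.mp hm0
        have hα1 := (Finset.mem_filter.mp hα).1
        have hα2 := (memP l α).mp hα1
        have h2 : (s.bipartiteBelow (fun x m => m ∈ T x) (x0.1 ⊔ α)).card ≤
            ((P (x0.1 ⊔ α)).erase α).card := by
          rw [← Finset.card_map (Function.Embedding.subtype _)]
          apply Finset.card_le_card
          intro x hx
          obtain ⟨y, hy, rfl⟩ := Finset.mem_map.mp hx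
          rw [Finset.mem_bipartiteBelow] at hy
          obtain ⟨β, hβ, hβ2⟩ := Finset.mem_image.mp hy.2
          rw [Finset.mem_erase, memP]
          refine ⟨hxα y α hα1, y.2.1, ?_⟩
          change y.1 ≤ x0.1 ⊔ α
          rw [← hβ2]
          exact le_sup_left
        have h3 : α ∈ P (x0.1 ⊔ α) := (memP _ _).mpr ⟨hα2.1, le_sup_right⟩
        rw [Finset.card_erase_of_mem h3] at h2
        have h4 := hmax x0.1 x0.2.1 α hα2.1 (hxα x0 α hα1)
        omega
    exact Nat.le_of_mul_le_mul_right h1 (by omega)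
  obtain ⟨G, hGinj, hGT⟩ :=
    (Finset.all_card_le_biUnion_card_iff_exists_injective T).mp hHall
  have hG : ∀ x : X, ∃ α, α ∈ P l ∧ G x = x.1 ⊔ α ∧ ¬ c ≤ G x := by
    intro x
    obtain ⟨α, hα, h⟩ := Finset.mem_image.mp (hGT x)
    rw [Finset.mem_filter] at hα
    exact ⟨α, hα.1, h.symm, h ▸ hα.2⟩
  choose β hβ1 hβ2 hβ3 using hG
  -- the second points
  let F : L → L := fun y => if h : y ∈ A ∧ ¬ y ≤ l ∧ y ≠ c then β ⟨y, h⟩ else c
  have hF1 : ∀ y, y ≤ l → F y = c := fun y h => dif_neg (fun h2 => h2.2.1 h)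
  have hF2 : ∀ y, ∀ h : y ∈ A ∧ ¬ y ≤ l ∧ y ≠ c, F y = β ⟨y, h⟩ := fun y h => dif_pos h
  have hcF2 : ∀ y, (y ∈ A ∧ ¬ y ≤ l ∧ y ≠ c) → ¬ c ≤ y ⊔ F y := fun y h => by
    have h3 := hβ3 ⟨y, h⟩
    rw [hβ2] at h3
    rwa [hF2 y h]
  have hrk3 : rk (a0 ⊔ a1 ⊔ c) = 3 := by
    have h1 := rk_sup_atom (hA c hc) hcl
    change rk (l ⊔ c) = 3
    rw [h1, hl2]
  refine ⟨![a0, a1, c], F, ?_, hrk3, ?_, ?_, ?_⟩
  · intro i
    fin_cases i
    exacts [ha0, ha1, hc]
  · intro q hq hne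
    have hqc : q ≠ c := hne 2
    by_cases h : q ≤ l
    · rw [hF1 q h]
      exact ⟨hc, hqc.symm⟩
    · have h' : q ∈ A ∧ ¬ q ≤ l ∧ q ≠ c := ⟨hq, h, hqc⟩
      rw [hF2 q h']
      have h1 := hβ1 ⟨q, h'⟩
      exact ⟨((memP _ _).mp h1).1, (hxα ⟨q, h'⟩ _ h1).symm⟩
  · intro q hq hne q' hq' hne' e
    have hqc : q ≠ c := hne 2
    have hqc' : q' ≠ c := hne' 2
    by_cases h : q ≤ l
    · by_cases h' : q' ≤ l
      · rw [hF1 q h, hF1 q' h'] at e
        exact cancel h h' (hA c hc) hcl e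
      · exfalso
        apply hcF2 q' ⟨hq', h', hqc'⟩
        rw [← e, hF1 q h]
        exact le_sup_right
    · by_cases h' : q' ≤ l
      · exfalso
        apply hcF2 q ⟨hq, h, hqc⟩
        rw [e, hF1 q' h']
        exact le_sup_right
      · have g : q ∈ A ∧ ¬ q ≤ l ∧ q ≠ c := ⟨hq, h, hqc⟩
        have g' : q' ∈ A ∧ ¬ q' ≤ l ∧ q' ≠ c := ⟨hq', h', hqc'⟩
        rw [hF2 q g, hF2 q' g'] at e
        have h1 := hβ2 ⟨q, g⟩
        have h2 := hβ2 ⟨q', g'⟩
        change G ⟨q, g⟩ = q ⊔ β ⟨q, g⟩ at h1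
        change G ⟨q', g'⟩ = q' ⊔ β ⟨q', g'⟩ at h2
        rw [← h1, ← h2] at e
        exact congrArg Subtype.val (hGinj e)
  · intro q hq hne
    have hqc : q ≠ c := hne 2
    have n : q ⊔ F q ≠ a0 ⊔ a1 ∧ q ⊔ F q ≠ a0 ⊔ c ∧ q ⊔ F q ≠ a1 ⊔ c := by
      by_cases h : q ≤ l
      · rw [hF1 q h]
        refine ⟨fun e => hcl (le_sup_right.trans e.le), fun e => hne 0 ?_, fun e => hne 1 ?_⟩
        · exact cancel h hal0 (hA c hc) hcl e
        · exact cancel h hal1 (hA c hc) hcl e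
      · have g : q ∈ A ∧ ¬ q ≤ l ∧ q ≠ c := ⟨hq, h, hqc⟩
        refine ⟨fun e => h ?_, fun e => hcF2 q g ?_, fun e => hcF2 q g ?_⟩
        · exact le_sup_left.trans e.le
        · rw [e]; exact le_sup_right
        · rw [e]; exact le_sup_right
    obtain ⟨n1, n2, n3⟩ := n
    have n1' : q ⊔ F q ≠ a1 ⊔ a0 := by rw [sup_comm a1]; exact n1
    have n2' : q ⊔ F q ≠ c ⊔ a0 := by rw [sup_comm c a0]; exact n2
    have n3' : q ⊔ F q ≠ c ⊔ a1 := by rw [sup_comm c a1]; exact n3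
    intro i j hij
    fin_cases i <;> fin_cases j
    · exact absurd rfl hij
    · exact n1
    · exact n2
    · exact n1'
    · exact absurd rfl hij
    · exact n3
    · exact n2'
    · exact n3'
    · exact absurd rfl hij

end Pool.Agent.Helper80.BP
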