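import Mathlib

/-!
# The value of an owned row

`W` is the set of lines through `x` in its plane off the row, `τ g` the number of points of the
lowest class on `g`, `φ g` the number of other rows of the class which are owned by a point
of `g`.
-/

set_option autoImplicit false

namespace Pool.Agent.Helper80.BP

open Finset

variable {ι : Type} [DecidableEq ι]

/-- GUESTS: a guest gets at least `1 / (a + 1)` from the lines which meet the class `a`. -/
theorem value_guest (W : Finset ι) (τ φ : ι → ℕ) (a : ℕ) (F : ι → ℚ)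
    (hF : ∀ g ∈ W, (φ g : ℚ) / (a + 1) ≤ F g) (h1 : ∀ g ∈ W, 1 ≤ τ g)
    (ht : ∀ g ∈ W, τ g ≤ ∑ g' ∈ W, φ g') (hpos : 1 ≤ ∑ g' ∈ W, φ g') :
    (1 : ℚ) / (a + 1) ≤ ∑ g ∈ W, F g / τ g := by
  set t := ∑ g' ∈ W, φ g' with htdef
  have ht0 : (0 : ℚ) < t := by exact_mod_cast hpos
  have ha0 : (0 : ℚ) < (a : ℚ) + 1 := by positivity
  have hT : (t : ℚ) = ∑ g ∈ W, (φ g : ℚ) := by rw [htdef]; push_cast; rfl
  calc (1 : ℚ) / (a + 1) = ∑ g ∈ W, ((φ g : ℚ) / (a + 1)) / t := by
        rw [← Finset.sum_div, ← Finset.sum_div, ← hT]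
        field_simp
    _ ≤ _ := by
        apply Finset.sum_le_sum
        intro g hg
        have e1 : (0 : ℚ) < τ g := by exact_mod_cast h1 g hg
        have e2 : (τ g : ℚ) ≤ t := by exact_mod_cast ht g hg
        have e3 : (0 : ℚ) ≤ (φ g : ℚ) / (a + 1) := by positivity
        exact (div_le_div_of_nonneg_left e3 e1 e2).trans
          (div_le_div_of_nonneg_right (hF g hg) e1.le)

/-- RICH owners: an owner of `a + 1` rows gets at least `1 / (a + 1)` from each of them. -/
theorem value_rich (W : Finset ι) (τ φ : ι → ℕ) (a : ℕ) (F : ι → ℚ) (hw : 1 ≤ W.card)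
    (hF : ∀ g ∈ W, (φ g : ℚ) / (a + 1) ≤ F g) (h1 : ∀ g ∈ W, 1 ≤ τ g)
    (ht : ∀ g ∈ W, τ g ≤ 1 + ∑ g' ∈ W, φ g') :
    (1 : ℚ) / (a + 1) ≤ ∑ g ∈ W, (1 / (a + 1) + F g) / τ g := by
  set t := ∑ g' ∈ W, φ g' with htdef
  have ha0 : (0 : ℚ) < (a : ℚ) + 1 := by positivity
  have hT : (t : ℚ) = ∑ g ∈ W, (φ g : ℚ) := by rw [htdef]; push_cast; rfl
  have hw' : (1 : ℚ) ≤ W.card := by exact_mod_cast hw
  have ht1 : (0 : ℚ) < 1 + (t : ℚ) := by positivity
  calc (1 : ℚ) / (a + 1) ≤ ((W.card : ℚ) * (1 / (a + 1)) + t / (a + 1)) / (1 + t) := by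
        rw [le_div_iff₀ ht1]
        have : (W.card : ℚ) * (1 / (a + 1)) + t / (a + 1) - 1 / (a + 1) * (1 + t) =
            ((W.card : ℚ) - 1) / (a + 1) := by field_simp; ring
        have h2 : (0 : ℚ) ≤ ((W.card : ℚ) - 1) / (a + 1) :=
          div_nonneg (by linarith) ha0.le
        linarith
    _ = ∑ g ∈ W, ((1 / ((a : ℚ) + 1) + (φ g : ℚ) / (a + 1)) / (1 + t)) := by
        rw [← Finset.sum_div, Finset.sum_add_distrib, Finset.sum_const, nsmul_eq_mul,
          ← Finset.sum_div, ← hT]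
    _ ≤ _ := by
        apply Finset.sum_le_sum
        intro g hg
        have e1 : (0 : ℚ) < τ g := by exact_mod_cast h1 g hg
        have e2 : (τ g : ℚ) ≤ 1 + t := by exact_mod_cast ht g hg
        have e3 : (0 : ℚ) ≤ 1 / ((a : ℚ) + 1) + (φ g : ℚ) / (a + 1) := by positivity
        refine (div_le_div_of_nonneg_left e3 e1 e2).trans
          (div_le_div_of_nonneg_right ?_ e1.le)
        linarith [hF g hg]

/-- POOR owners (they own exactly `a` rows). -/
theorem value_poor (W : Finset ι) (τ φ : ι → ℕ) (a : ℕ) (F : ι → ℚ) (ha : 1 ≤ a)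
    (hw : 2 ≤ W.card) (γ : ι)
    (hF : ∀ g ∈ W, (φ g : ℚ) / (a + 1) ≤ F g) (h1 : ∀ g ∈ W, 1 ≤ τ g)
    (ht : ∀ g ∈ W, τ g ≤ 1 + ∑ g' ∈ W, φ g')
    (hs : ∀ g ∈ W, g ≠ γ → τ g ≤ W.card + 1)
    (hc : 2 ≤ a ∨ 3 ≤ W.card ∨ τ γ ≤ W.card + 1 ∨ (∀ g ∈ W, g ≠ γ → τ g ≤ 2) ∨
      (∃ g ∈ W, g ≠ γ ∧ 1 ≤ φ g)) :
    (1 : ℚ) / a ≤ ∑ g ∈ W, (1 / a + F g) / τ g := by
  set t := ∑ g' ∈ W, φ g' with htdef
  have haQ : (1 : ℚ) ≤ a := by exact_mod_cast ha
  have ha0 : (0 : ℚ) < (a : ℚ) := by linarith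
  have ha1 : (0 : ℚ) < (a : ℚ) + 1 := by linarith
  have hT : (t : ℚ) = ∑ g ∈ W, (φ g : ℚ) := by rw [htdef]; push_cast; rfl
  have hw' : (2 : ℚ) ≤ W.card := by exact_mod_cast hw
  set w : ℚ := (W.card : ℚ) with hwdef
  have hτ0 : ∀ g ∈ W, (0 : ℚ) < τ g := fun g hg => by exact_mod_cast h1 g hg
  have hφ0 : ∀ g, (0 : ℚ) ≤ (φ g : ℚ) / (a + 1) := fun g => by positivity
  have ht0 : (0 : ℚ) ≤ t := by positivity
  -- it is enough to treat the smallest weights
  have hred : ∑ g ∈ W, (1 / (a : ℚ) + (φ g : ℚ) / (a + 1)) / τ g ≤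
      ∑ g ∈ W, (1 / a + F g) / τ g := by
    apply Finset.sum_le_sum
    intro g hg
    exact div_le_div_of_nonneg_right (by linarith [hF g hg]) (hτ0 g hg).le
  refine le_trans ?_ hred
  by_cases hA : ∀ g ∈ W, τ g ≤ W.card + 1
  · -- no long line
    have key : ∀ m : ℚ, 0 < m → (∀ g ∈ W, (τ g : ℚ) ≤ m) →
        (w * (1 / a) + t / (a + 1)) / m ≤
        ∑ g ∈ W, (1 / (a : ℚ) + (φ g : ℚ) / (a + 1)) / τ g := by
      intro m hm hτm
      calc (w * (1 / a) + t / (a + 1)) / m =
          ∑ g ∈ W, ((1 / (a : ℚ) + (φ g : ℚ) / (a + 1)) / m) := by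
            rw [← Finset.sum_div, Finset.sum_add_distrib, Finset.sum_const, nsmul_eq_mul,
              ← Finset.sum_div, ← hT]
        _ ≤ _ := by
            apply Finset.sum_le_sum
            intro g hg
            exact div_le_div_of_nonneg_left (by have := hφ0 g; positivity) (hτ0 g hg)
              (hτm g hg)
    by_cases htw : t ≤ W.card
    · have htw' : (t : ℚ) ≤ w := by rw [hwdef]; exact_mod_cast htw
      refine le_trans ?_ (key (1 + t) (by linarith) (fun g hg => by exact_mod_cast ht g hg))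
      rw [le_div_iff₀ (by linarith)]
      have e : w * (1 / a) + t / (a + 1) - 1 / a * (1 + t) =
          ((w - 1) * (a + 1) - t) / (a * (a + 1)) := by field_simp; ring
      have e2 : (0 : ℚ) ≤ ((w - 1) * (a + 1) - t) / (a * (a + 1)) := by
        apply div_nonneg _ (by positivity)
        nlinarith
      linarith
    · have htw' : w + 1 ≤ (t : ℚ) := by
        rw [hwdef]
        have : W.card + 1 ≤ t := by omega
        exact_mod_cast this
      refine le_trans ?_ (key (w + 1) (by linarith) (fun g hg => by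
        rw [hwdef]; exact_mod_cast hA g hg))
      rw [le_div_iff₀ (by linarith)]
      have e : w * (1 / a) + t / (a + 1) - 1 / a * (w + 1) =
          (t * a - (a + 1)) / (a * (a + 1)) := by field_simp; ring
      have e2 : (0 : ℚ) ≤ (t * a - (a + 1)) / (a * (a + 1)) := by
        apply div_nonneg _ (by positivity)
        nlinarith
      linarith
  · -- a long line
    have hγ : γ ∈ W ∧ W.card + 2 ≤ τ γ := by
      push Not at hA
      obtain ⟨g, hg, hgl⟩ := hA
      have : g = γ := by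
        by_contra hne
        have := hs g hg hne
        omega
      subst this
      exact ⟨hg, by omega⟩
    obtain ⟨hγW, hγτ⟩ := hγ
    set n : ℚ := (τ γ : ℚ) with hn
    have hnw : w + 2 ≤ n := by rw [hwdef, hn]; exact_mod_cast hγτ
    have hn0 : 0 < n := by linarith
    have hnt : n ≤ 1 + t := by rw [hn]; exact_mod_cast ht γ hγW
    have hcard : ((W.erase γ).card : ℚ) = w - 1 := by
      rw [Finset.card_erase_of_mem hγW, Nat.cast_sub (by omega), hwdef, Nat.cast_one]
    have hsplit : (t : ℚ) = φ γ + ∑ g ∈ W.erase γ, (φ g : ℚ) := by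
      rw [hT, Finset.add_sum_erase W (fun g => (φ g : ℚ)) hγW]
    have hgen : ∀ b : ℚ, (∀ g ∈ W.erase γ,
        b + ((φ g : ℚ) / (a + 1)) / n ≤ (1 / (a : ℚ) + (φ g : ℚ) / (a + 1)) / τ g) →
        (w - 1) * b + (1 / a + t / (a + 1)) / n ≤
        ∑ g ∈ W, (1 / (a : ℚ) + (φ g : ℚ) / (a + 1)) / τ g := by
      intro b hb
      rw [← Finset.add_sum_erase W _ hγW]
      have h2 := Finset.sum_le_sum hb
      rw [Finset.sum_add_distrib, Finset.sum_const, nsmul_eq_mul, hcard, ← Finset.sum_div,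
        ← Finset.sum_div] at h2
      have h3 : (1 / a + (t : ℚ) / (a + 1)) / n = (1 / (a : ℚ) + (φ γ : ℚ) / (a + 1)) / n +
          (∑ g ∈ W.erase γ, (φ g : ℚ)) / (a + 1) / n := by
        rw [hsplit]; field_simp; ring
      linarith
    have hstep : ∀ g ∈ W.erase γ, ∀ c : ℚ, 0 < c → (τ g : ℚ) ≤ c → c ≤ n →
        1 / (a : ℚ) / c + ((φ g : ℚ) / (a + 1)) / n ≤
        (1 / (a : ℚ) + (φ g : ℚ) / (a + 1)) / τ g := by
      intro g hg c hc0 hgc hcn
      have hgW := Finset.mem_of_mem_erase hg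
      rw [add_div]
      apply add_le_add
      · exact div_le_div_of_nonneg_left (by positivity) (hτ0 g hgW) hgc
      · exact div_le_div_of_nonneg_left (hφ0 g) (hτ0 g hgW) (hgc.trans hcn)
    by_cases hB : 2 ≤ a ∨ 3 ≤ W.card
    · have hb := hgen (1 / (a : ℚ) / (w + 1)) (fun g hg => hstep g hg (w + 1) (by linarith)
        (by
          rw [hwdef]
          exact_mod_cast hs g (Finset.mem_of_mem_erase hg) (Finset.ne_of_mem_erase hg))
        (by linarith))
      refine le_trans ?_ hb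
      have h4 : (1 : ℚ) / (a + 1) ≤ (1 / a + t / (a + 1)) / n := by
        rw [le_div_iff₀ hn0]
        have e : 1 / a + (t : ℚ) / (a + 1) - 1 / (a + 1) * n =
            ((a + 1) + a * (t - n)) / (a * (a + 1)) := by field_simp; ring
        have e2 : (0 : ℚ) ≤ ((a + 1) + a * (t - n)) / (a * (a + 1)) := by
          apply div_nonneg _ (by positivity)
          nlinarith
        linarith
      have h5 : (1 : ℚ) / a - 1 / (a + 1) ≤ (w - 1) * (1 / (a : ℚ) / (w + 1)) := by
        have hwa : (a : ℚ) + 2 ≤ w * a := by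
          rcases hB with h | h
          · have : (2 : ℚ) ≤ a := by exact_mod_cast h
            nlinarith
          · have : (3 : ℚ) ≤ w := by rw [hwdef]; exact_mod_cast h
            nlinarith
        have e : (w - 1) * (1 / (a : ℚ) / (w + 1)) - (1 / a - 1 / (a + 1)) =
            (w * a - (a + 2)) / (a * (a + 1) * (w + 1)) := by
          field_simp; ring
        have e2 : (0 : ℚ) ≤ (w * a - (a + 2)) / (a * (a + 1) * (w + 1)) :=
          div_nonneg (by linarith) (by positivity)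
        linarith
      linarith
    · push Not at hB
      obtain ⟨hB1, hB2⟩ := hB
      have ha' : a = 1 := by omega
      have hW2 : W.card = 2 := by omega
      subst ha'
      have hw2 : w = 2 := by rw [hwdef, hW2]; norm_num
      rcases hc with h | h | h | h | h
      · omega
      · omega
      · omega
      · -- the other line has at most two points of the class
        have hb := hgen (1 / ((1 : ℕ) : ℚ) / 2) (fun g hg => hstep g hg 2 (by norm_num)
          (by exact_mod_cast h g (Finset.mem_of_mem_erase hg) (Finset.ne_of_mem_erase hg))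
          (by linarith))
        refine le_trans ?_ hb
        rw [hw2]
        have h4 : (1 : ℚ) / 2 ≤ (1 / ((1 : ℕ) : ℚ) + t / (((1 : ℕ) : ℚ) + 1)) / n := by
          rw [le_div_iff₀ hn0]
          push_cast
          linarith
        push_cast at h4 ⊢
        linarith
      · -- a row owned off the long line
        obtain ⟨δ, hδW, hδγ, hδφ⟩ := h
        have hδ : δ ∈ W.erase γ := Finset.mem_erase.mpr ⟨hδγ, hδW⟩
        have hcard1 : (W.erase γ).card = 1 := by
          rw [Finset.card_erase_of_mem hγW, hW2]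
        have hset : W.erase γ = {δ} := by
          obtain ⟨z, hz⟩ := Finset.card_eq_one.mp hcard1
          rw [hz, Finset.mem_singleton] at hδ
          rw [hz, hδ]
        rw [← Finset.add_sum_erase W _ hγW, hset, Finset.sum_singleton]
        have hφδ : (1 : ℚ) ≤ φ δ := by exact_mod_cast hδφ
        have hτδ : (τ δ : ℚ) ≤ 3 := by
          have := hs δ hδW hδγ
          rw [hW2] at this
          exact_mod_cast this
        have hts : (t : ℚ) = φ γ + φ δ := by rw [hsplit, hset, Finset.sum_singleton]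
        have k1 : (1 / ((1 : ℕ) : ℚ) + (φ δ : ℚ) / (((1 : ℕ) : ℚ) + 1)) / 3 ≤
            (1 / ((1 : ℕ) : ℚ) + (φ δ : ℚ) / (((1 : ℕ) : ℚ) + 1)) / τ δ :=
          div_le_div_of_nonneg_left (by positivity) (hτ0 δ hδW) hτδ
        have k2 : (1 : ℚ) / 2 + ((φ δ : ℚ) - 1) / 2 / n ≤
            (1 / ((1 : ℕ) : ℚ) + (φ δ : ℚ) / (((1 : ℕ) : ℚ) + 1)) / 3 := by
          have k3 : ((φ δ : ℚ) - 1) / 2 / n ≤ ((φ δ : ℚ) - 1) / 2 / 3 :=
            div_le_div_of_nonneg_left (by linarith) (by norm_num) (by linarith)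
          push_cast
          linarith
        have k4 : (1 : ℚ) / 2 - ((φ δ : ℚ) - 1) / 2 / n ≤
            (1 / ((1 : ℕ) : ℚ) + (φ γ : ℚ) / (((1 : ℕ) : ℚ) + 1)) / n := by
          have k5 : (1 / ((1 : ℕ) : ℚ) + (φ γ : ℚ) / (((1 : ℕ) : ℚ) + 1)) / n +
              ((φ δ : ℚ) - 1) / 2 / n = (1 + (t - 1) / 2) / n := by
            rw [hts]; push_cast; ring
          have k6 : (1 : ℚ) / 2 ≤ (1 + ((t : ℚ) - 1) / 2) / n := by
            rw [le_div_iff₀ hn0]
            linarith
          linarith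
        have k7 : (1 : ℚ) / ((1 : ℕ) : ℚ) = 1 := by norm_num
        rw [k7] at *
        linarith

end Pool.Agent.Helper80.BP
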