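import Pool.Agent.Helper38.SC.Shares3
import Pool.Agent.Helper80.BP.Value

/-!
# The value of an owned row in a plane
-/

set_option autoImplicit false
set_option linter.unusedSectionVars false

namespace Pool.Agent.Helper80.BP

open Pool.Agent.Helper28.BPack Pool.Agent.Helper61.Motz Pool.Agent.Helper38.Thick

variable {L : Type} [Lattice L] [BoundedOrder L] [Finite L] [IsUpperModularLattice L]

/-- Ownership of rows with classes.  `N` is the set of participants, `own v` the set of colours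
of the rows owned by `v`. -/
structure SC (A N : Finset L) (u : L) (own : L → Finset L) (cls : L → ℕ) : Prop where
  at_ : ∀ a ∈ A, IsAtom a
  ru : rk u = 2
  mem : ∀ v ∈ N, v ∈ A
  off : ∀ v ∈ N, ¬ v ≤ u
  ownA : ∀ v ∈ N, ∀ c ∈ own v, c ∈ A ∧ c ≤ u
  uniq : ∀ v ∈ N, ∀ v' ∈ N, ∀ c ∈ own v, c ∈ own v' → v ⊔ c = v' ⊔ c → v = v'
  low : ∀ v ∈ N, ∀ c ∈ own v, ∀ y ∈ N, y ≤ v ⊔ c → cls v ≤ cls y
  cls1 : ∀ v ∈ N, 1 ≤ cls v
  lo : ∀ v ∈ N, cls v ≤ (own v).card
  hi : ∀ v ∈ N, (own v).card ≤ cls v + 1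

section

variable [DecidableEq L] [DecidableRel (α := L) (· ≤ ·)]

/-- The participants of the lowest class on `g`. -/
def TT (N : Finset L) (cls : L → ℕ) (g : L) : Finset L :=
  N.filter (fun v => v ≤ g ∧ ∀ y ∈ N, y ≤ g → cls v ≤ cls y)

/-- The share of the colour `c` on `g`. -/
def sig (N : Finset L) (own : L → Finset L) (cls : L → ℕ) (c g : L) : ℚ :=
  (∑ v ∈ TT N cls g, if c ∈ own v then (1 : ℚ) / (own v).card else 0) / (TT N cls g).card

theorem mem_TT {N : Finset L} {cls : L → ℕ} {g v : L} :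
    v ∈ TT N cls g ↔ v ∈ N ∧ v ≤ g ∧ ∀ y ∈ N, y ≤ g → cls v ≤ cls y := by
  simp only [TT, Finset.mem_filter]

theorem sig_nonneg (N : Finset L) (own : L → Finset L) (cls : L → ℕ) (c g : L) :
    0 ≤ sig N own cls c g := by
  apply div_nonneg
  · apply Finset.sum_nonneg
    intro v _
    split_ifs
    · positivity
    · exact le_rfl
  · positivity

theorem sig_sum_le {A N : Finset L} {u : L} {own : L → Finset L} {cls : L → ℕ}
    (S : SC A N u own cls) (g : L) : ∑ c ∈ A.filter (· ≤ u), sig N own cls c g ≤ 1 := by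
  have h1 : ∑ c ∈ A.filter (· ≤ u), sig N own cls c g =
      (∑ v ∈ TT N cls g, ∑ c ∈ A.filter (· ≤ u),
        if c ∈ own v then (1 : ℚ) / (own v).card else 0) / (TT N cls g).card := by
    rw [Finset.sum_comm, Finset.sum_div]
    rfl
  have h2 : ∀ v ∈ TT N cls g, (∑ c ∈ A.filter (· ≤ u),
      if c ∈ own v then (1 : ℚ) / (own v).card else 0) ≤ 1 := by
    intro v hv
    have hvN := (mem_TT.mp hv).1
    rw [← Finset.sum_filter]
    have h3 : (A.filter (· ≤ u)).filter (fun c => c ∈ own v) = own v := by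
      ext c
      rw [Finset.mem_filter, Finset.mem_filter]
      exact ⟨fun h => h.2, fun h => ⟨S.ownA v hvN c h, h⟩⟩
    rw [h3, Finset.sum_const, nsmul_eq_mul]
    have h4 : (0 : ℚ) < (own v).card := by
      have := S.lo v hvN
      have := S.cls1 v hvN
      have : 0 < (own v).card := by omega
      exact_mod_cast this
    rw [mul_one_div_cancel h4.ne']
  rw [h1]
  rcases (TT N cls g).eq_empty_or_nonempty with h0 | h0
  · rw [h0]
    simp
  · have h5 : (0 : ℚ) < (TT N cls g).card := by exact_mod_cast h0.card_pos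
    rw [div_le_one h5]
    refine (Finset.sum_le_sum h2).trans ?_
    simp

end

section

variable [DecidableEq L] [DecidableRel (α := L) (· ≤ ·)]
  {A N : Finset L} {u : L} {own : L → Finset L} {cls : L → ℕ}

/-- The class `a` owners of the `c`-rows of `H` other than the row of `x`. -/
def EE (N : Finset L) (own : L → Finset L) (cls : L → ℕ) (x c H : L) (a : ℕ) : Finset L :=
  N.filter (fun v => v ≤ H ∧ ¬ v ≤ x ⊔ c ∧ cls v = a ∧ c ∈ own v)

theorem mem_EE {x c H v : L} {a : ℕ} : v ∈ EE N own cls x c H a ↔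
    v ∈ N ∧ v ≤ H ∧ ¬ v ≤ x ⊔ c ∧ cls v = a ∧ c ∈ own v := by
  simp only [EE, Finset.mem_filter]

/-- A point in a plane: `x` a point off `u`, `H` a plane over `x ⊔ c`. -/
structure Pl (A : Finset L) (u x c H : L) : Prop where
  xA : x ∈ A
  xu : ¬ x ≤ u
  cA : c ∈ A
  cu : c ≤ u
  rH : rk H = 3
  le : x ⊔ c ≤ H

theorem Pl.xc {x c H : L} (P : Pl A u x c H) : x ≠ c := fun h => P.xu (h ▸ P.cu)

theorem Pl.ch {x c H : L} (P : Pl A u x c H) : c ≤ H := le_sup_right.trans P.le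

/-- The line of `H` through `x` and a point off the row. -/
theorem line_mem {x c H v : L} (hv : v ∈ A) (hvH : v ≤ H) (hvk : ¬ v ≤ x ⊔ c) :
    x ⊔ v ∈ pen A x (x ⊔ c) H := mem_pen.mpr ⟨v, hv, hvH, hvk, rfl⟩

theorem line_uniq (S : SC A N u own cls) {x c H v g : L} (P : Pl A u x c H) (hv : v ∈ A)
    (hvk : ¬ v ≤ x ⊔ c) (hg : g ∈ pen A x (x ⊔ c) H) : v ≤ g ↔ x ⊔ v = g := by
  obtain ⟨h1, h2, h3, h4, h5⟩ := Pool.Agent.Helper38.SC.pen_spec S.at_ P.xA P.cA P.xc P.rH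
    P.le hg
  have hxv : x ≠ v := fun h => hvk (h ▸ le_sup_left)
  constructor
  · intro h
    exact line_eq (S.at_ x P.xA) (S.at_ v hv) hxv h2 h h1
  · intro h
    exact h ▸ le_sup_right

theorem sum_card_EE (S : SC A N u own cls) {x c H : L} (P : Pl A u x c H) (a : ℕ) :
    ∑ g ∈ pen A x (x ⊔ c) H, ((EE N own cls x c H a).filter (· ≤ g)).card =
      (EE N own cls x c H a).card := by
  have h1 : ∀ v ∈ EE N own cls x c H a, x ⊔ v ∈ pen A x (x ⊔ c) H := fun v hv => by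
    obtain ⟨h1, h2, h3, -⟩ := mem_EE.mp hv
    exact line_mem (S.mem v h1) h2 h3
  rw [Finset.card_eq_sum_card_fiberwise h1]
  apply Finset.sum_congr rfl
  intro g hg
  congr 1
  apply Finset.filter_congr
  intro v hv
  obtain ⟨h2, h3, h4, -⟩ := mem_EE.mp hv
  exact line_uniq S P (S.mem v h2) h4 hg

/-- Class `a` points of a line of the pencil, off the row: at most as many as owners. -/
theorem card_le_EE (S : SC A N u own cls) {x c H g : L} (P : Pl A u x c H) {a : ℕ}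
    (hg : g ∈ pen A x (x ⊔ c) H)
    (ha1 : ∀ y ∈ N, y ≤ H → a ≤ cls y)
    (hown : ∀ y ∈ N, y ≤ H → cls y = a → ∃ v ∈ N, c ∈ own v ∧ v ⊔ c = y ⊔ c)
    (Y : Finset L) (hY : ∀ y ∈ Y, y ∈ N ∧ y ≤ g ∧ ¬ y ≤ x ⊔ c ∧ cls y = a) :
    Y.card ≤ (EE N own cls x c H a).card := by
  obtain ⟨h1, h2, h3, h4, h5⟩ := Pool.Agent.Helper38.SC.pen_spec S.at_ P.xA P.cA P.xc P.rH
    P.le hg
  have hch : ∀ y, ∃ v, y ∈ Y → v ∈ N ∧ c ∈ own v ∧ v ⊔ c = y ⊔ c := by
    intro y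
    by_cases hy : y ∈ Y
    · obtain ⟨k1, k2, k3, k4⟩ := hY y hy
      obtain ⟨v, hv1, hv2, hv3⟩ := hown y k1 (k2.trans h3) k4
      exact ⟨v, fun _ => ⟨hv1, hv2, hv3⟩⟩
    · exact ⟨⊥, fun h => absurd h hy⟩
  choose f hf using hch
  have hyc : ∀ y ∈ N, y ≠ c := fun y hy h => S.off y hy (h ▸ P.cu)
  apply Finset.card_le_card_of_injOn f
  · intro y hy
    rw [Finset.mem_coe] at hy
    obtain ⟨k1, k2, k3, k4⟩ := hY y hy
    obtain ⟨v1, v2, v3⟩ := hf y hy
    have hvy : f y ≤ y ⊔ c := v3 ▸ le_sup_left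
    have hvH : f y ≤ H := hvy.trans (sup_le (k2.trans h3) P.ch)
    have hyv : y ≤ f y ⊔ c := v3 ▸ le_sup_left
    rw [Finset.mem_coe, mem_EE]
    refine ⟨v1, hvH, ?_, ?_, v2⟩
    · intro hcon
      have e1 : f y ⊔ c ≤ x ⊔ c := sup_le hcon le_sup_right
      exact k3 (hyv.trans e1)
    · have l1 := S.low _ v1 c v2 y k1 hyv
      have l2 := ha1 _ v1 hvH
      omega
  · intro y hy y' hy' e
    rw [Finset.mem_coe] at hy hy'
    obtain ⟨k1, k2, k3, k4⟩ := hY y hy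
    obtain ⟨k1', k2', k3', k4'⟩ := hY y' hy'
    by_contra hne
    have e1 : y ⊔ c = y' ⊔ c := by
      rw [← (hf y hy).2.2, ← (hf y' hy').2.2]
      exact congrArg (· ⊔ c) e
    have hr : rk (y ⊔ c) = 2 := rk_line (S.at_ y (S.mem y k1)) (S.at_ c P.cA) (hyc y k1)
    have e2 := line_eq (S.at_ y (S.mem y k1)) (S.at_ y' (S.mem y' k1')) hne k2 k2' h1
    have e3 := line_eq (S.at_ y (S.mem y k1)) (S.at_ y' (S.mem y' k1')) hne
      (le_sup_left : y ≤ y ⊔ c) (e1 ▸ le_sup_left) hr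
    exact h4 ((le_sup_right : c ≤ y ⊔ c).trans (e3.symm.trans e2).le)

/-- The points of a line of the pencil, other than `x`, are off the row. -/
theorem off_row (S : SC A N u own cls) {x c H g : L} (P : Pl A u x c H)
    (hg : g ∈ pen A x (x ⊔ c) H) {y : L} (hy : y ∈ A) (hyx : y ≠ x) (hyg : y ≤ g) :
    ¬ y ≤ x ⊔ c := by
  intro h
  obtain ⟨h1, h2, h3, h4, h5⟩ := Pool.Agent.Helper38.SC.pen_spec S.at_ P.xA P.cA P.xc P.rH
    P.le hg
  have e1 := line_eq (S.at_ y hy) (S.at_ x P.xA) hyx hyg h2 h1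
  have e2 := line_eq (S.at_ y hy) (S.at_ x P.xA) hyx h le_sup_left
    (rk_line (S.at_ x P.xA) (S.at_ c P.cA) P.xc)
  exact h4 ((le_sup_right : c ≤ x ⊔ c).trans (e2.symm.trans e1).le)

/-- The weight of the owners on `g`. -/
def FF (N : Finset L) (own : L → Finset L) (cls : L → ℕ) (x c H : L) (a : ℕ) (g : L) : ℚ :=
  ∑ v ∈ (EE N own cls x c H a).filter (· ≤ g), (1 : ℚ) / (own v).card

theorem FF_ge (S : SC A N u own cls) {x c H : L} {a : ℕ} (g : L) :
    (((EE N own cls x c H a).filter (· ≤ g)).card : ℚ) / (a + 1) ≤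
      FF N own cls x c H a g := by
  have h1 : (((EE N own cls x c H a).filter (· ≤ g)).card : ℚ) / (a + 1) =
      ∑ v ∈ (EE N own cls x c H a).filter (· ≤ g), (1 : ℚ) / (a + 1) := by
    rw [Finset.sum_const, nsmul_eq_mul]
    ring
  rw [h1]
  apply Finset.sum_le_sum
  intro v hv
  obtain ⟨h2, -, -, h3, -⟩ := mem_EE.mp (Finset.mem_filter.mp hv).1
  have h4 := S.lo v h2
  have h5 := S.hi v h2
  have h6 := S.cls1 v h2
  rw [h3] at h5
  apply one_div_le_one_div_of_le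
  · have : 0 < (own v).card := by omega
    exact_mod_cast this
  · exact_mod_cast h5

/-- GUESTS. -/
theorem val_guest (S : SC A N u own cls) {x c H : L} (P : Pl A u x c H) {a : ℕ}
    (ha1 : ∀ y ∈ N, y ≤ H → a ≤ cls y) (ha2 : ∃ y ∈ N, y ≤ H ∧ cls y = a)
    (hrow : ∀ y ∈ N, y ≤ x ⊔ c → a < cls y)
    (hown : ∀ y ∈ N, y ≤ H → cls y = a → ∃ v ∈ N, c ∈ own v ∧ v ⊔ c = y ⊔ c) :
    (1 : ℚ) / (a + 1) ≤ ∑ g ∈ pen A x (x ⊔ c) H, sig N own cls c g := by
  classical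
  set E := EE N own cls x c H a with hE
  set W := (pen A x (x ⊔ c) H).filter (fun g => ∃ y ∈ N, y ≤ g ∧ cls y = a) with hW
  have hWp : ∀ g ∈ W, g ∈ pen A x (x ⊔ c) H := fun g hg => (Finset.mem_filter.mp hg).1
  have hspec : ∀ g ∈ W, rk g = 2 ∧ x ≤ g ∧ g ≤ H ∧ ¬ c ≤ g ∧ g ⊔ c = H := fun g hg =>
    Pool.Agent.Helper38.SC.pen_spec S.at_ P.xA P.cA P.xc P.rH P.le (hWp g hg)
  -- the lowest class points of the lines of `W`
  have hT : ∀ g ∈ W, ∀ v, v ∈ TT N cls g ↔ v ∈ N ∧ v ≤ g ∧ cls v = a := by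
    intro g hg v
    obtain ⟨y, hy, hyg, hya⟩ := (Finset.mem_filter.mp hg).2
    rw [mem_TT]
    constructor
    · rintro ⟨h1, h2, h3⟩
      have h4 := h3 y hy hyg
      have h5 := ha1 v h1 (h2.trans (hspec g hg).2.2.1)
      exact ⟨h1, h2, by omega⟩
    · rintro ⟨h1, h2, h3⟩
      exact ⟨h1, h2, fun z hz hzg => by
        rw [h3]; exact ha1 z hz (hzg.trans (hspec g hg).2.2.1)⟩
  have hoff : ∀ v ∈ N, cls v = a → ¬ v ≤ x ⊔ c := fun v hv h1 h2 => by
    have := hrow v hv h2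
    omega
  have hsum : ∑ g ∈ W, (E.filter (· ≤ g)).card = E.card := by
    rw [hE, ← sum_card_EE S P a]
    apply Finset.sum_subset (Finset.filter_subset _ _)
    intro g hg hgW
    rw [Finset.card_eq_zero, Finset.filter_eq_empty_iff]
    intro v hv hvg
    obtain ⟨h1, h2, h3, h4, h5⟩ := mem_EE.mp hv
    exact hgW (Finset.mem_filter.mpr ⟨hg, v, h1, hvg, h4⟩)
  have hpos : 1 ≤ E.card := by
    obtain ⟨y, hy, hyH, hya⟩ := ha2
    obtain ⟨v, hv, hcv, hvy⟩ := hown y hy hyH hya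
    have hvle : v ≤ y ⊔ c := hvy ▸ le_sup_left
    have hyle : y ≤ v ⊔ c := hvy ▸ le_sup_left
    have hvH : v ≤ H := hvle.trans (sup_le hyH P.ch)
    have h1 := S.low v hv c hcv y hy hyle
    have h2 := ha1 v hv hvH
    have h3 : cls v = a := by omega
    exact Finset.card_pos.mpr ⟨v, mem_EE.mpr ⟨hv, hvH, hoff v hv h3, h3, hcv⟩⟩
  refine le_trans (value_guest W (fun g => (TT N cls g).card)
    (fun g => (E.filter (· ≤ g)).card) a (FF N own cls x c H a)
    (fun g _ => FF_ge S g) ?_ ?_ ?_) ?_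
  · intro g hg
    obtain ⟨y, hy, hyg, hya⟩ := (Finset.mem_filter.mp hg).2
    exact Finset.card_pos.mpr ⟨y, (hT g hg y).mpr ⟨hy, hyg, hya⟩⟩
  · intro g hg
    rw [hsum]
    apply card_le_EE S P (hWp g hg) ha1 hown
    intro y hy
    obtain ⟨h1, h2, h3⟩ := (hT g hg y).mp hy
    exact ⟨h1, h2, hoff y h1 h3, h3⟩
  · rw [hsum]
    exact hpos
  · have h1 : ∀ g ∈ W, FF N own cls x c H a g / ((TT N cls g).card : ℚ) =
        sig N own cls c g := by
      intro g hg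
      have h2 : FF N own cls x c H a g =
          ∑ v ∈ TT N cls g, if c ∈ own v then (1 : ℚ) / (own v).card else 0 := by
        rw [← Finset.sum_filter]
        apply Finset.sum_congr
        · ext v
          rw [Finset.mem_filter, Finset.mem_filter, hT g hg, mem_EE]
          constructor
          · rintro ⟨⟨k1, k2, k3, k4, k5⟩, k6⟩
            exact ⟨⟨k1, k6, k4⟩, k5⟩
          · rintro ⟨⟨k1, k2, k3⟩, k4⟩
            exact ⟨⟨k1, k2.trans (hspec g hg).2.2.1, hoff v k1 k3, k3, k4⟩, k2⟩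
        · intros; rfl
      rw [h2]
      rfl
    rw [Finset.sum_congr rfl h1]
    apply Finset.sum_le_sum_of_subset_of_nonneg (Finset.filter_subset _ _)
    intro g _ _
    exact sig_nonneg N own cls c g

/-- The sum of the shares for a point of the lowest class which owns its row. -/
theorem core_sum (S : SC A N u own cls) {x c H : L} (P : Pl A u x c H) (hxN : x ∈ N)
    (hcx : c ∈ own x) (ha1 : ∀ y ∈ N, y ≤ H → cls x ≤ cls y)
    (hown : ∀ y ∈ N, y ≤ H → cls y = cls x → ∃ v ∈ N, c ∈ own v ∧ v ⊔ c = y ⊔ c) :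
    (∀ g ∈ pen A x (x ⊔ c) H, 1 ≤ (TT N cls g).card ∧
      (TT N cls g).card ≤ 1 + ∑ g' ∈ pen A x (x ⊔ c) H,
        ((EE N own cls x c H (cls x)).filter (· ≤ g')).card) ∧
    ∑ g ∈ pen A x (x ⊔ c) H, sig N own cls c g =
      ∑ g ∈ pen A x (x ⊔ c) H, ((1 : ℚ) / (own x).card + FF N own cls x c H (cls x) g) /
        (TT N cls g).card := by
  classical
  have hspec : ∀ g ∈ pen A x (x ⊔ c) H, rk g = 2 ∧ x ≤ g ∧ g ≤ H ∧ ¬ c ≤ g ∧ g ⊔ c = H :=
    fun g hg => Pool.Agent.Helper38.SC.pen_spec S.at_ P.xA P.cA P.xc P.rH P.le hg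
  have hT : ∀ g ∈ pen A x (x ⊔ c) H, ∀ v, v ∈ TT N cls g ↔ v ∈ N ∧ v ≤ g ∧ cls v = cls x := by
    intro g hg v
    rw [mem_TT]
    constructor
    · rintro ⟨h1, h2, h3⟩
      have h4 := h3 x hxN (hspec g hg).2.1
      have h5 := ha1 v h1 (h2.trans (hspec g hg).2.2.1)
      exact ⟨h1, h2, by omega⟩
    · rintro ⟨h1, h2, h3⟩
      exact ⟨h1, h2, fun z hz hzg => by
        rw [h3]; exact ha1 z hz (hzg.trans (hspec g hg).2.2.1)⟩
  have hxT : ∀ g ∈ pen A x (x ⊔ c) H, x ∈ TT N cls g := fun g hg =>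
    (hT g hg x).mpr ⟨hxN, (hspec g hg).2.1, rfl⟩
  refine ⟨fun g hg => ⟨Finset.card_pos.mpr ⟨x, hxT g hg⟩, ?_⟩, ?_⟩
  · rw [sum_card_EE S P]
    have h1 : ((TT N cls g).erase x).card ≤ (EE N own cls x c H (cls x)).card := by
      apply card_le_EE S P hg ha1 hown
      intro y hy
      obtain ⟨k1, k2⟩ := Finset.mem_erase.mp hy
      obtain ⟨k3, k4, k5⟩ := (hT g hg y).mp k2
      exact ⟨k3, k4, off_row S P hg (S.mem y k3) k1 k4, k5⟩
    rw [Finset.card_erase_of_mem (hxT g hg)] at h1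
    omega
  · apply Finset.sum_congr rfl
    intro g hg
    have h2 : (1 : ℚ) / (own x).card + FF N own cls x c H (cls x) g =
        ∑ v ∈ TT N cls g, if c ∈ own v then (1 : ℚ) / (own v).card else 0 := by
      rw [← Finset.add_sum_erase _ _ (hxT g hg), if_pos hcx]
      congr 1
      rw [← Finset.sum_filter]
      apply Finset.sum_congr
      · ext v
        rw [Finset.mem_filter, Finset.mem_filter, Finset.mem_erase, hT g hg, mem_EE]
        constructor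
        · rintro ⟨⟨k1, k2, k3, k4, k5⟩, k6⟩
          exact ⟨⟨fun h => k3 (h ▸ le_sup_left), k1, k6, k4⟩, k5⟩
        · rintro ⟨⟨k0, k1, k2, k3⟩, k4⟩
          exact ⟨⟨k1, k2.trans (hspec g hg).2.2.1, off_row S P hg (S.mem v k1) k0 k2, k3, k4⟩,
            k2⟩
      · intros; rfl
    rw [h2]
    rfl

/-- RICH owners. -/
theorem val_rich (S : SC A N u own cls) {x c H : L} (P : Pl A u x c H) (hxN : x ∈ N)
    (hcx : c ∈ own x) (ha1 : ∀ y ∈ N, y ≤ H → cls x ≤ cls y)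
    (hown : ∀ y ∈ N, y ≤ H → cls y = cls x → ∃ v ∈ N, c ∈ own v ∧ v ⊔ c = y ⊔ c)
    (hrich : (own x).card = cls x + 1) (hw : 1 ≤ (pen A x (x ⊔ c) H).card) :
    (1 : ℚ) / (own x).card ≤ ∑ g ∈ pen A x (x ⊔ c) H, sig N own cls c g := by
  obtain ⟨h1, h2⟩ := core_sum S P hxN hcx ha1 hown
  rw [h2, hrich]
  push_cast
  exact value_rich _ (fun g => (TT N cls g).card)
    (fun g => ((EE N own cls x c H (cls x)).filter (· ≤ g)).card) (cls x)
    (FF N own cls x c H (cls x)) hw (fun g _ => FF_ge S g) (fun g hg => (h1 g hg).1)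
    (fun g hg => (h1 g hg).2)

/-- POOR owners. -/
theorem val_poor (S : SC A N u own cls) {x c H : L} (P : Pl A u x c H) (hxN : x ∈ N)
    (hcx : c ∈ own x) (ha1 : ∀ y ∈ N, y ≤ H → cls x ≤ cls y)
    (hown : ∀ y ∈ N, y ≤ H → cls y = cls x → ∃ v ∈ N, c ∈ own v ∧ v ⊔ c = y ⊔ c)
    (hpoor : (own x).card = cls x) (hw : 2 ≤ (pen A x (x ⊔ c) H).card) (γ : L)
    (hs : ∀ g ∈ pen A x (x ⊔ c) H, g ≠ γ →
      (TT N cls g).card ≤ (pen A x (x ⊔ c) H).card + 1)
    (hc : 2 ≤ cls x ∨ 3 ≤ (pen A x (x ⊔ c) H).card ∨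
      (TT N cls γ).card ≤ (pen A x (x ⊔ c) H).card + 1 ∨
      (∀ g ∈ pen A x (x ⊔ c) H, g ≠ γ → (TT N cls g).card ≤ 2) ∨
      (∃ v ∈ N, v ≤ H ∧ ¬ v ≤ x ⊔ c ∧ cls v = cls x ∧ c ∈ own v ∧ ¬ v ≤ γ)) :
    (1 : ℚ) / (own x).card ≤ ∑ g ∈ pen A x (x ⊔ c) H, sig N own cls c g := by
  obtain ⟨h1, h2⟩ := core_sum S P hxN hcx ha1 hown
  rw [h2, hpoor]
  refine value_poor _ (fun g => (TT N cls g).card)
    (fun g => ((EE N own cls x c H (cls x)).filter (· ≤ g)).card) (cls x)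
    (FF N own cls x c H (cls x)) (S.cls1 x hxN) hw γ (fun g _ => FF_ge S g)
    (fun g hg => (h1 g hg).1) (fun g hg => (h1 g hg).2) hs ?_
  rcases hc with h | h | h | h | h
  · exact Or.inl h
  · exact Or.inr (Or.inl h)
  · exact Or.inr (Or.inr (Or.inl h))
  · exact Or.inr (Or.inr (Or.inr (Or.inl h)))
  · obtain ⟨v, k1, k2, k3, k4, k5, k6⟩ := h
    refine Or.inr (Or.inr (Or.inr (Or.inr ⟨x ⊔ v, line_mem (S.mem v k1) k2 k3, ?_, ?_⟩)))
    · intro e
      exact k6 (e ▸ le_sup_right)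
    · exact Finset.card_pos.mpr ⟨v, Finset.mem_filter.mpr ⟨mem_EE.mpr ⟨k1, k2, k3, k4, k5⟩,
        le_sup_right⟩⟩

end

end Pool.Agent.Helper80.BP
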