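import Pool.Agent.Helper80.BP.VR

/-!
# Core users and guests, for ranks

A user which owns the row of a plane `H` is a core user of `H` (of lowest rank in `H`), or every
row of `H` through a lower user is owned and the share of the user is as large as needed.
-/

set_option autoImplicit false
set_option linter.unusedSectionVars false

namespace Pool.Agent.Helper80.BP.R

open Pool.Agent.Helper28.BPack Pool.Agent.Helper61.Motz Pool.Agent.Helper38.Thick
open Pool.Agent.Helper80.BP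

variable {L : Type} [Lattice L] [BoundedOrder L] [Finite L] [IsUpperModularLattice L]
  [DecidableEq L] [DecidableRel (α := L) (· ≤ ·)]
  {A N : Finset L} {u : L} {own : L → Finset L} {cls rr : L → ℕ}

/-- The unowned rows of `H` (colour `c`, off the row of `x`) which meet the rank of `x`. -/
def UR (N : Finset L) (own : L → Finset L) (rr : L → ℕ) (x c H : L) : Finset L :=
  (N.filter (fun y => y ≤ H ∧ ¬ y ≤ x ⊔ c ∧ rr y = rr x ∧
    ∀ v ∈ N, c ∈ own v → v ⊔ c ≠ y ⊔ c)).image (· ⊔ c)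

theorem UR_own {x c H : L} :
    ∀ y ∈ N, y ≤ H → ¬ y ≤ x ⊔ c → rr y = rr x →
      (∃ v ∈ N, c ∈ own v ∧ v ⊔ c = y ⊔ c) ∨ y ⊔ c ∈ UR N own rr x c H := by
  intro y hy h1 h2 h3
  by_cases h : ∃ v ∈ N, c ∈ own v ∧ v ⊔ c = y ⊔ c
  · exact Or.inl h
  · push Not at h
    exact Or.inr (Finset.mem_image.mpr ⟨y, Finset.mem_filter.mpr ⟨hy, h1, h2, h3, h⟩, rfl⟩)

/-- A member of `UR` is the row of an unowned user. -/
theorem mem_UR {x c H k : L} (h : k ∈ UR N own rr x c H) :
    ∃ y ∈ N, y ≤ H ∧ ¬ y ≤ x ⊔ c ∧ rr y = rr x ∧ (∀ v ∈ N, c ∈ own v → v ⊔ c ≠ y ⊔ c) ∧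
      y ⊔ c = k := by
  obtain ⟨y, hy, e⟩ := Finset.mem_image.mp h
  obtain ⟨h1, h2, h3, h4, h5⟩ := Finset.mem_filter.mp hy
  exact ⟨y, h1, h2, h3, h4, h5, e⟩

/-- **Core or fine**: if every row of `H` through a user lower than `x` is owned, then `x` is of
lowest rank in `H`, or its share is large enough. -/
theorem core_or_fine (S : SR A N u own cls rr) {x c H : L} (P : Pl A u x c H) (hx : x ∈ N)
    (hc : c ∈ own x)
    (hfree : ∀ y ∈ N, y ≤ H → ¬ rr x ≤ rr y → ∃ v ∈ N, c ∈ own v ∧ v ⊔ c = y ⊔ c) :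
    (∀ y ∈ N, y ≤ H → rr x ≤ rr y) ∨
      (1 : ℚ) / (own x).card ≤ ∑ g ∈ pen A x (x ⊔ c) H, sig N own rr c g := by
  classical
  obtain ⟨y, hy, hmin⟩ := Finset.exists_min_image (N.filter (· ≤ H)) rr
    ⟨x, Finset.mem_filter.mpr ⟨hx, le_sup_left.trans P.le⟩⟩
  obtain ⟨h1, h2⟩ := Finset.mem_filter.mp hy
  have ha1 : ∀ z ∈ N, z ≤ H → rr y ≤ rr z := fun z hz hzH =>
    hmin z (Finset.mem_filter.mpr ⟨hz, hzH⟩)
  by_cases h : rr x ≤ rr y
  · exact Or.inl (fun z hz hzH => h.trans (ha1 z hz hzH))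
  · right
    refine val_guest S P hx ha1 ⟨y, h1, h2, rfl⟩ ?_ ?_
    · intro z hz hzx
      have := S.low x hx c hc z hz hzx
      omega
    · intro z hz hzH hza
      exact hfree z hz hzH (by omega)

/-- A user is rich (or of an even class) or poor. -/
theorem rich_or_poor (S : SR A N u own cls rr) {x : L} (hx : x ∈ N) :
    cls x ≤ 2 * (own x).card ∨ cls x = 2 * (own x).card + 1 := by
  have := S.lo x hx
  omega

/-- Core users, rich or of an even class, at most `w - 1` unowned rows of the rank. -/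
theorem core_rich (S : SR A N u own cls rr) {x c H : L} (P : Pl A u x c H) (hx : x ∈ N)
    (hc : c ∈ own x) (ha1 : ∀ y ∈ N, y ≤ H → rr x ≤ rr y) (hrich : cls x ≤ 2 * (own x).card)
    (hw : (UR N own rr x c H).card + 1 ≤ (pen A x (x ⊔ c) H).card) :
    (1 : ℚ) / (own x).card ≤ ∑ g ∈ pen A x (x ⊔ c) H, sig N own rr c g :=
  val_rich_rho S P hx hc ha1 _ UR_own hrich hw

/-- Core users, poor, helper29's condition with at most one unowned row of the rank. -/
theorem core_c2 (S : SR A N u own cls rr) {x c H : L} (P : Pl A u x c H) (hx : x ∈ N)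
    (hc : c ∈ own x) (ha1 : ∀ y ∈ N, y ≤ H → rr x ≤ rr y)
    (hZ : (UR N own rr x c H).card ≤ 1)
    (hpoor : cls x = 2 * (own x).card + 1) {γ : L} (hγ : γ ∈ pen A x (x ⊔ c) H)
    (hmax : ∀ g ∈ pen A x (x ⊔ c) H, (TT N rr g).card ≤ (TT N rr γ).card)
    (hC : (1 : ℚ) / 2 ≤ ∑ g ∈ (pen A x (x ⊔ c) H).erase γ, (1 : ℚ) / (TT N rr g).card) :
    (1 : ℚ) / (own x).card ≤ ∑ g ∈ pen A x (x ⊔ c) H, sig N own rr c g :=
  val_c2 S P hx hc ha1 _ UR_own hZ hpoor hγ hmax hC

/-- Core users, poor, three lines, at most one unowned row, at most one long line. -/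
theorem core_poor_one (S : SR A N u own cls rr) {x c H : L} (P : Pl A u x c H) (hx : x ∈ N)
    (hc : c ∈ own x) (ha1 : ∀ y ∈ N, y ≤ H → rr x ≤ rr y)
    (hZ : (UR N own rr x c H).card ≤ 1)
    (hpoor : cls x = 2 * (own x).card + 1) (hw : 3 ≤ (pen A x (x ⊔ c) H).card) (γ : L)
    (hs : ∀ g ∈ pen A x (x ⊔ c) H, g ≠ γ →
      (TT N rr g).card ≤ (pen A x (x ⊔ c) H).card + 1) :
    (1 : ℚ) / (own x).card ≤ ∑ g ∈ pen A x (x ⊔ c) H, sig N own rr c g :=
  val_poor_one S P hx hc ha1 _ UR_own hZ hpoor hw γ hs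

/-- Core users, any load, alone: the reciprocals of the numbers of lowest users on the lines of
the pencil have sum at least one (helper68's super users). -/
theorem core_alone (S : SR A N u own cls rr) {x c H : L} (P : Pl A u x c H) (hx : x ∈ N)
    (hc : c ∈ own x) (ha1 : ∀ y ∈ N, y ≤ H → rr x ≤ rr y)
    (hs : (1 : ℚ) ≤ ∑ g ∈ pen A x (x ⊔ c) H, (1 : ℚ) / (TT N rr g).card) :
    (1 : ℚ) / (own x).card ≤ ∑ g ∈ pen A x (x ⊔ c) H, sig N own rr c g := by
  rw [core_eq S P hx hc ha1]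
  have h1 : (1 : ℚ) / (own x).card ≤
      ∑ g ∈ pen A x (x ⊔ c) H, (1 : ℚ) / (own x).card * (1 / (TT N rr g).card) := by
    rw [← Finset.mul_sum]
    have h2 : (0 : ℚ) ≤ 1 / (own x).card := by positivity
    nlinarith
  refine h1.trans (Finset.sum_le_sum (fun g hg => ?_))
  have h3 : (0 : ℚ) < (TT N rr g).card := by
    exact_mod_cast core_pos S P hx ha1 g hg
  have h4 : (0 : ℚ) ≤ FF N own rr x c H (rr x) g :=
    Finset.sum_nonneg (fun v _ => by positivity)
  rw [mul_one_div]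
  exact div_le_div_of_nonneg_right (by linarith) h3.le

end Pool.Agent.Helper80.BP.R
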