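import Pool.Agent.Helper80.BP.SQ

/-!
# The class (SQ), in terms of heights and sets
-/

set_option autoImplicit false
set_option linter.unusedSectionVars false

namespace Pool.Agent.Helper80.BP.SQ

open Pool.Agent.Helper28.BPack Pool.Agent.Helper61.Motz Pool.Agent.Helper38.Thick
  Pool.Agent.Helper38.SC Pool.Agent.Helper56.BP Pool.Agent.Helper80.BP

variable {L : Type} [Lattice L] [BoundedOrder L] [Finite L] [IsUpperModularLattice L]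

theorem ncard_off [DecidableEq L] [DecidableRel (α := L) (· ≤ ·)] (A : Finset L) (g Q : L) :
    {a ∈ (A : Set L) | a ≤ g ∧ ¬ a ≤ Q}.ncard =
      (A.filter (fun z => z ≤ g ∧ ¬ z ≤ Q)).card := by
  have h2 : {a ∈ (A : Set L) | a ≤ g ∧ ¬ a ≤ Q} =
      ((A.filter (fun z => z ≤ g ∧ ¬ z ≤ Q) : Finset L) : Set L) := by
    ext a
    simp
  rw [h2, Set.ncard_coe_finset]

theorem ncard_on [DecidableEq L] [DecidableRel (α := L) (· ≤ ·)] (A : Finset L) (g : L) :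
    {a ∈ (A : Set L) | a ≤ g}.ncard = (A.filter (· ≤ g)).card := by
  have h2 : {a ∈ (A : Set L) | a ≤ g} = ((A.filter (· ≤ g) : Finset L) : Set L) := by
    ext a
    simp
  rw [h2, Set.ncard_coe_finset]

/-- The sum of the reciprocals, over a set of lines. -/
theorem finsum_off [DecidableEq L] [DecidableRel (α := L) (· ≤ ·)] (A : Finset L)
    (x c H Q : L) :
    (∑ᶠ g ∈ {g : L | ∃ z ∈ A, z ≤ H ∧ ¬ z ≤ x ⊔ c ∧ g = x ⊔ z},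
      (1 : ℚ) / {a ∈ (A : Set L) | a ≤ g ∧ ¬ a ≤ Q}.ncard) =
      ∑ g ∈ pen A x (x ⊔ c) H, (1 : ℚ) / (A.filter (fun z => z ≤ g ∧ ¬ z ≤ Q)).card := by
  have h1 : {g : L | ∃ z ∈ A, z ≤ H ∧ ¬ z ≤ x ⊔ c ∧ g = x ⊔ z} =
      ((pen A x (x ⊔ c) H : Finset L) : Set L) := by
    ext g
    simp only [Set.mem_ofPred_eq, Finset.mem_coe, mem_pen]
    constructor
    · rintro ⟨z, h1, h2, h3, h4⟩
      exact ⟨z, h1, h2, h3, h4.symm⟩
    · rintro ⟨z, h1, h2, h3, h4⟩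
      exact ⟨z, h1, h2, h3, h4.symm⟩
  rw [h1, finsum_mem_coe_finset]
  apply Finset.sum_congr rfl
  intro g _
  rw [ncard_off]

theorem rk_of_ht {a : L} {n : ℕ} (h : Order.height a = (n : ℕ∞)) : rk a = n := by
  rw [← coe_rk] at h
  exact_mod_cast h

theorem ht_of_rk {a : L} {n : ℕ} (h : rk a = n) : Order.height a = (n : ℕ∞) := by
  rw [← coe_rk, h]

/-- **(SQ) in terms of heights.** -/
theorem crit4_SQ_height {A : Finset L} (hA : ∀ a ∈ A, IsAtom a) (hrA : rk (A.sup id) = 4)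
    (hcore : ∀ p ∈ A, ∀ a ∈ A, ∀ b ∈ A, a ≠ b → ¬ p ≤ a ⊔ b →
      ∃ z ∈ A, z ≤ p ⊔ a ⊔ b ∧ z ≠ p ∧ ¬ z ≤ a ⊔ b)
    (h : ∃ u Q : L, Order.height u = 2 ∧ Order.height Q = 3 ∧ u ≤ Q ∧
      (∀ g : L, Order.height g = 2 →
        {a ∈ (A : Set L) | a ≤ g}.ncard ≤ {a ∈ (A : Set L) | a ≤ u}.ncard) ∧
      (∃ z ∈ A, z ≤ Q ∧ ¬ z ≤ u) ∧
      ∀ H : L, Order.height H = 3 → ¬ u ≤ H → ∀ c ∈ A, c ≤ u → c ≤ H → ∀ x ∈ A, x ≤ H →
        ¬ x ≤ Q →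
        (1 : ℚ) ≤ ∑ᶠ g ∈ {g : L | ∃ z ∈ A, z ≤ H ∧ ¬ z ≤ x ⊔ c ∧ g = x ⊔ z},
          (1 : ℚ) / {a ∈ (A : Set L) | a ≤ g ∧ ¬ a ≤ Q}.ncard) : Crit4 A := by
  classical
  obtain ⟨u, Q, h1, h2, h3, h5, h6, h7⟩ := h
  have h4 : 2 ≤ (A.filter (· ≤ u)).card := by
    obtain ⟨u', -, k1, k2, -⟩ := exists_uQ hA hrA
    have k3 := h5 u' (ht_of_rk k1)
    rw [ncard_on, ncard_on] at k3
    omega
  refine crit4_SQ hA hrA hcore (rk_of_ht h1) h4 (fun k hk => ?_) (rk_of_ht h2) h3 h6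
    (fun H k1 k2 c k3 k4 k5 x k6 k7 k8 => ?_)
  · have h8 := h5 k (ht_of_rk hk)
    rwa [ncard_on, ncard_on] at h8
  · rw [← finsum_off]
    exact h7 H (ht_of_rk k1) k2 c k3 k4 k5 x k6 k7 k8

end Pool.Agent.Helper80.BP.SQ
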