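import Pool.Agent.Helper80.BP.SQ

/-!
# Total deficit less than one

For Hall's condition the values of the users need not all be at least one: it is enough that the
sum of the deficits is less than one (helper65).
-/

set_option autoImplicit false
set_option linter.unusedSectionVars false

namespace Pool.Agent.Helper80.BP.Deficit

open Pool.Agent.Helper28.BPack Pool.Agent.Helper61.Motz Pool.Agent.Helper38.Thick
  Pool.Agent.Helper38.SC Pool.Agent.Helper56.BP Pool.Agent.Helper80.BP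

/-- Hall's condition from shares, when the total value of every set `s` is more than
`card s - 1`. -/
theorem hall_def {X Y : Type} [Fintype X] [DecidableEq X] [DecidableEq Y]
    (W : X → Finset Y) (τ : X → Y → ℚ) (h0 : ∀ x y, 0 ≤ τ x y)
    (hdem : ∀ s : Finset X, (s.card : ℚ) < 1 + ∑ x ∈ s, ∑ y ∈ W x, τ x y)
    (hload : ∀ y, ∑ x ∈ Finset.univ.filter (fun x => y ∈ W x), τ x y ≤ 1) :
    ∃ F : X → Y, Function.Injective F ∧ ∀ x, F x ∈ W x := by
  classical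
  apply (Finset.all_card_le_biUnion_card_iff_exists_injective W).mp
  intro s
  set B := s.biUnion W with hB
  have h1 := hdem s
  have h3 : ∀ x ∈ s, ∑ y ∈ W x, τ x y = ∑ y ∈ B, if y ∈ W x then τ x y else 0 := by
    intro x hx
    rw [← Finset.sum_filter]
    apply Finset.sum_congr
    · ext y
      rw [Finset.mem_filter, hB, Finset.mem_biUnion]
      exact ⟨fun h => ⟨⟨x, hx, h⟩, h⟩, fun h => h.2⟩
    · intros; rfl
  rw [Finset.sum_congr rfl h3, Finset.sum_comm] at h1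
  have h4 : ∀ y ∈ B, (∑ x ∈ s, if y ∈ W x then τ x y else 0) ≤ 1 := by
    intro y _
    refine le_trans ?_ (hload y)
    rw [Finset.sum_filter]
    apply Finset.sum_le_sum_of_subset_of_nonneg
    · intro x _
      exact Finset.mem_univ x
    · intro x _ _
      split_ifs
      · exact h0 x y
      · exact le_rfl
  have h5 : (s.card : ℚ) < 1 + (B.card : ℚ) := by
    refine h1.trans_le (add_le_add le_rfl ((Finset.sum_le_sum h4).trans ?_))
    simp
  have h6 : s.card < 1 + B.card := by exact_mod_cast h5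
  omega

variable {L : Type} [Lattice L] [BoundedOrder L] [Finite L] [IsUpperModularLattice L]

/-- Level 3 with a total deficit less than one. -/
theorem level3_def [DecidableEq L] [DecidableRel (α := L) (· ≤ ·)] {A R : Finset L} {u : L}
    {C : L → Finset L} {HH : L → L → L} {Ls : L → L → Finset L} {σ : L → L → ℚ}
    (hA : ∀ a ∈ A, IsAtom a)
    (hR : ∀ x ∈ R, x ∈ A ∧ ¬ x ≤ u)
    (hC : ∀ x ∈ R, ∀ c ∈ C x, c ∈ A ∧ c ≤ u ∧ rk (HH c x) = 3 ∧ x ⊔ c ≤ HH c x)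
    (hLs : ∀ x ∈ R, ∀ c ∈ C x, Ls x c ⊆ pen A x (x ⊔ c) (HH c x))
    (hinj : ∀ c, ∀ x ∈ R, c ∈ C x → ∀ y ∈ R, c ∈ C y → HH c x = HH c y → x ⊔ c = y ⊔ c)
    (hσ0 : ∀ c g, 0 ≤ σ c g)
    (hσ1 : ∀ g, rk g = 2 → ∑ c ∈ A.filter (· ≤ u), σ c g ≤ 1)
    (hval : ∀ s : Finset L, s ⊆ R →
      (s.card : ℚ) < 1 + ∑ x ∈ s, ∑ c ∈ C x, ∑ g ∈ Ls x c, σ c g) :
    ∃ cc gg : L → L, (∀ x ∈ R, cc x ∈ C x ∧ gg x ∈ A ∧ gg x ≤ HH (cc x) x ∧
        ¬ gg x ≤ x ⊔ cc x ∧ x ⊔ gg x ∈ Ls x (cc x)) ∧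
      (∀ x ∈ R, ∀ y ∈ R, x ⊔ gg x = y ⊔ gg y → x = y) := by
  classical
  have hspec : ∀ x ∈ R, ∀ c ∈ C x, ∀ g ∈ Ls x c,
      rk g = 2 ∧ x ≤ g ∧ g ≤ HH c x ∧ ¬ c ≤ g ∧ g ⊔ c = HH c x := by
    intro x hx c hc g hg
    obtain ⟨h1, h2, h3, h4⟩ := hC x hx c hc
    exact pen_spec hA (hR x hx).1 h1 (fun e => (hR x hx).2 (by rw [e]; exact h2)) h3 h4
      (hLs x hx c hc hg)
  obtain ⟨F, hFinj, hF⟩ := hall_def (X := R) (Y := L)
    (fun x => (C x.1).biUnion (fun c => Ls x.1 c))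
    (fun x g => ∑ c ∈ (C x.1).filter (fun c => g ∈ Ls x.1 c), σ c g)
    (fun x g => Finset.sum_nonneg fun c _ => hσ0 c g)
    (fun s => by
      have h0 := hval (s.image Subtype.val) (fun x hx => by
        obtain ⟨y, _, rfl⟩ := Finset.mem_image.mp hx
        exact y.2)
      rw [Finset.card_image_of_injective _ Subtype.val_injective,
        Finset.sum_image (fun a _ b _ e => Subtype.ext e)] at h0
      refine h0.trans_le (add_le_add le_rfl (le_of_eq (Finset.sum_congr rfl (fun x _ => ?_))))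
      have h1 : ∀ c ∈ C x.1, ∑ g ∈ Ls x.1 c, σ c g =
          ∑ g ∈ (C x.1).biUnion (fun c => Ls x.1 c), if g ∈ Ls x.1 c then σ c g else 0 := by
        intro c hc
        rw [← Finset.sum_filter]
        apply Finset.sum_congr
        · ext g
          rw [Finset.mem_filter, Finset.mem_biUnion]
          exact ⟨fun h => ⟨⟨c, hc, h⟩, h⟩, fun h => h.2⟩
        · intros; rfl
      rw [Finset.sum_congr rfl h1, Finset.sum_comm]
      apply Finset.sum_congr rfl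
      intro g _
      rw [Finset.sum_filter])
    (fun g => by
      rw [Finset.sum_sigma']
      set S := (Finset.univ.filter (fun x : R => g ∈ (C x.1).biUnion (fun c => Ls x.1 c))).sigma
        (fun x => (C x.1).filter (fun c => g ∈ Ls x.1 c)) with hS
      have hmS : ∀ p ∈ S, p.2 ∈ C p.1.1 ∧ g ∈ Ls p.1.1 p.2 := by
        intro p hp
        rw [hS, Finset.mem_sigma, Finset.mem_filter] at hp
        exact ⟨(Finset.mem_filter.mp hp.2).1, (Finset.mem_filter.mp hp.2).2⟩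
      by_cases hne : S.Nonempty
      · obtain ⟨p0, hp0⟩ := hne
        have hg2 : rk g = 2 := (hspec p0.1.1 p0.1.2 p0.2 (hmS p0 hp0).1 g (hmS p0 hp0).2).1
        have hinjS : Set.InjOn (fun p : (Σ _ : R, L) => p.2) S := by
          intro p hp q hq e
          have e' : p.2 = q.2 := e
          obtain ⟨h1, h2⟩ := hmS p hp
          obtain ⟨h3, h4⟩ := hmS q hq
          rw [← e'] at h3 h4
          obtain ⟨k1, k2, k3, k4, k5⟩ := hspec p.1.1 p.1.2 p.2 h1 g h2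
          obtain ⟨l1, l2, l3, l4, l5⟩ := hspec q.1.1 q.1.2 p.2 h3 g h4
          have h5 := hinj p.2 p.1.1 p.1.2 h1 q.1.1 q.1.2 h3 (k5.symm.trans l5)
          have hpA := hA _ (hR p.1.1 p.1.2).1
          have hqA := hA _ (hR q.1.1 q.1.2).1
          have hcA := hA _ (hC p.1.1 p.1.2 p.2 h1).1
          have h6 : p.1.1 = q.1.1 := by
            by_contra hne
            have h7 : p.1.1 ⊔ q.1.1 = g := line_of hpA hqA hne k2 l2 k1
            have h8 : p.1.1 ⊔ q.1.1 ≤ p.1.1 ⊔ p.2 := sup_le le_sup_left (h5 ▸ le_sup_left)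
            have hpc : p.1.1 ≠ p.2 := fun e => (hR p.1.1 p.1.2).2 (by
              rw [e]; exact (hC p.1.1 p.1.2 p.2 h1).2.1)
            have h9 : p.1.1 ⊔ q.1.1 = p.1.1 ⊔ p.2 := eq_of_le_of_rk h8 (by
              rw [rk_line hpA hqA hne, rk_line hpA hcA hpc])
            exact k4 (by rw [← h7, h9]; exact le_sup_right)
          have h7 : p.1 = q.1 := Subtype.ext h6
          exact Sigma.ext h7 (heq_of_eq e')
        calc ∑ p ∈ S, σ p.2 g = ∑ c ∈ S.image (fun p => p.2), σ c g := by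
              rw [Finset.sum_image hinjS]
          _ ≤ ∑ c ∈ A.filter (· ≤ u), σ c g := by
              apply Finset.sum_le_sum_of_subset_of_nonneg
              · intro c hc
                obtain ⟨p, hp, rfl⟩ := Finset.mem_image.mp hc
                have h1 := hC p.1.1 p.1.2 p.2 (hmS p hp).1
                exact Finset.mem_filter.mpr ⟨h1.1, h1.2.1⟩
              · intro c _ _
                exact hσ0 c g
          _ ≤ 1 := hσ1 g hg2
      · rw [Finset.not_nonempty_iff_eq_empty] at hne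
        rw [hne]
        simp)
  have hz : ∀ x ∈ R, ∃ c z, c ∈ C x ∧ z ∈ A ∧ z ≤ HH c x ∧ ¬ z ≤ x ⊔ c ∧
      x ⊔ z = (if hx : x ∈ R then F ⟨x, hx⟩ else x) ∧ x ⊔ z ∈ Ls x c := by
    intro x hx
    have h1 := hF ⟨x, hx⟩
    rw [Finset.mem_biUnion] at h1
    obtain ⟨c, hc, h2⟩ := h1
    obtain ⟨z, h3, h4, h5, h6⟩ := mem_pen.mp (hLs x hx c hc h2)
    exact ⟨c, z, hc, h3, h4, h5, by rw [dif_pos hx]; exact h6, by rw [h6]; exact h2⟩
  choose! cc gg h1 h2 h3 h4 h5 h6 using hz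
  refine ⟨cc, gg, fun x hx => ⟨h1 x hx, h2 x hx, h3 x hx, h4 x hx, h6 x hx⟩, ?_⟩
  intro x hx y hy e
  rw [h5 x hx, h5 y hy, dif_pos hx, dif_pos hy] at e
  exact congrArg Subtype.val (hFinj e)

section

variable [DecidableEq L] [DecidableRel (α := L) (· ≤ ·)] {A : Finset L} {Q o u : L} {ρ : L → L}

/-- **Rank four from a state in the cone frame, total deficit less than one.** -/
theorem crit4_of_sta_cone_def (F : FrC A Q o u ρ) {Rep : Finset L} (hRep : Rep ⊆ RC A Q o u ρ)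
    {own : L → Finset L} {pl : L → L}
    (S : Sta A (NC A Q o \ Rep) u (ZC o) Rep (ADC A Q o u) own pl)
    {Ls : L → L → Finset L} {σ : L → L → ℚ}
    (hLs : ∀ x ∈ NC A Q o \ Rep, ∀ a ∈ own x, Ls x a ⊆ pen A x (x ⊔ a) (pl (x ⊔ a)))
    (hσ0 : ∀ a g, 0 ≤ σ a g)
    (hσ1 : ∀ g, rk g = 2 → ∑ a ∈ A.filter (· ≤ u), σ a g ≤ 1)
    (hval : ∀ s : Finset L, s ⊆ NC A Q o \ Rep →
      (s.card : ℚ) < 1 + ∑ x ∈ s, ∑ a ∈ own x, ∑ g ∈ Ls x a, σ a g) : Crit4 A := by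
  classical
  have hmN : ∀ x, x ∈ NC A Q o \ Rep ↔ x ∈ A ∧ ¬ x ≤ Q ∧ x ≠ o ∧ x ∉ Rep := fun x => by
    rw [Finset.mem_sdiff, mem_NC]
    tauto
  obtain ⟨cc, gg, hcc, hgg⟩ := level3_def (A := A) (R := NC A Q o \ Rep) (u := u) (C := own)
    (HH := fun a x => pl (x ⊔ a)) (Ls := Ls) (σ := σ) F.at_
    (fun x hx => ⟨S.mem x hx, S.off x hx⟩)
    (fun x hx a ha => ⟨(S.ownA x hx a ha).1, (S.ownA x hx a ha).2, (S.pln x hx a ha).2.1,
      (S.pln x hx a ha).2.2.1⟩)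
    hLs
    (fun a x hx ha y hy hb e => by rw [(S.inj x hx a ha y hy a hb e).1])
    hσ0 hσ1 hval
  -- two points of `u`
  obtain ⟨b1, hb1', b2, hb2', hb12⟩ := Finset.one_lt_card.mp (show 1 < (A.filter (· ≤ u)).card from
    by have := F.U2; omega)
  obtain ⟨hb1, hbu1⟩ := Finset.mem_filter.mp hb1'
  obtain ⟨hb2, hbu2⟩ := Finset.mem_filter.mp hb2'
  -- same row, same colour
  have hcol : ∀ x ∈ NC A Q o \ Rep, ∀ y ∈ NC A Q o \ Rep, x ⊔ cc x = y ⊔ cc y → cc x = cc y := by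
    intro x hx y hy e
    have h1 := S.ownA x hx _ (hcc x hx).1
    have h2 := S.ownA y hy _ (hcc y hy).1
    exact F.fr.col (Finset.mem_sdiff.mp hx).1 h1.1 h1.2 h2.1 h2.2 (by rw [e]; exact le_sup_right)
  refine Pool.Agent.Helper83.RC.crit4_of_coneW (A := A) (Q := Q) (o := o) (u := u)
    (Rp := fun x => x ∈ Rep) (cc := cc) (gg := gg) (H := fun x => pl (x ⊔ cc x))
    (e1 := fun _ => b1) (e2 := fun _ => b2) F.at_ F.rQ F.oA F.oQ F.ru F.uQ ?_ ?_ ?_ ?_ ?_ ?_ ?_ ?_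
    ?_ ?_ ?_
  · intro B hB
    obtain ⟨a, ha, haQ, hau⟩ := F.tri
    refine Pool.Agent.Helper63.HM.crit3_plane F.at_
      ⟨b1, hb1, b2, hb2, a, ha, hbu1.trans F.uQ, hbu2.trans F.uQ, haQ, ?_⟩ F.rQ B hB
    have h1 : b1 ⊔ b2 = u := line_of (F.at_ b1 hb1) (F.at_ b2 hb2) hb12 hbu1 hbu2 F.ru
    rw [h1, rk_sup_atom (F.at_ a ha) hau, F.ru]
  · intro x _ _ _ hR
    exact F.rep_o (hRep hR)
  · intro x _ _ _ _
    exact ⟨hb1, hbu1, hb2, hbu2, hb12⟩
  · intro x _ _ _ hx y _ _ _ hy e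
    obtain ⟨h1, h2, h3, h4⟩ := mem_RC.mp (hRep hx)
    obtain ⟨k1, k2, k3, k4⟩ := mem_RC.mp (hRep hy)
    rw [sup_comm, sup_comm y u] at e
    rw [← h4, e, k4]
  · intro x _ _ _ hx y h1 h2 h3 hy
    have hyN := (hmN y).mpr ⟨h1, h2, h3, hy⟩
    have h4 := S.nrep y hyN _ (hcc y hyN).1 x hx
    exact ⟨fun e => h4 (by rw [e]; exact le_sup_left), fun e => h4 (by rw [e]; exact le_sup_left)⟩
  · intro x h1 h2 h3 hx
    have hxN := (hmN x).mpr ⟨h1, h2, h3, hx⟩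
    exact S.ownA x hxN _ (hcc x hxN).1
  · intro x h1 h2 h3 hx y k1 k2 k3 hy e
    have hxN := (hmN x).mpr ⟨h1, h2, h3, hx⟩
    have hyN := (hmN y).mpr ⟨k1, k2, k3, hy⟩
    have h4 := hcol x hxN y hyN e
    have h5 := (hcc y hyN).1
    rw [← h4] at h5 e
    exact S.uniq x hxN y hyN _ (hcc x hxN).1 h5 e
  · intro x h1 h2 h3 hx
    have hxN := (hmN x).mpr ⟨h1, h2, h3, hx⟩
    have h4 := S.pln x hxN _ (hcc x hxN).1
    exact ⟨h4.2.1, h4.2.2.1, h4.2.2.2, S.nz x hxN _ (hcc x hxN).1, h4.1.2.2.2⟩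
  · intro x h1 h2 h3 hx y k1 k2 k3 hy _ e
    have hxN := (hmN x).mpr ⟨h1, h2, h3, hx⟩
    have hyN := (hmN y).mpr ⟨k1, k2, k3, hy⟩
    exact (S.inj x hxN _ (hcc x hxN).1 y hyN _ (hcc y hyN).1 e).1
  · intro x h1 h2 h3 hx
    have hxN := (hmN x).mpr ⟨h1, h2, h3, hx⟩
    obtain ⟨-, h4, h5, h6, -⟩ := hcc x hxN
    exact ⟨h4, h5, h6⟩
  · intro x h1 h2 h3 hx y k1 k2 k3 hy e
    exact hgg x ((hmN x).mpr ⟨h1, h2, h3, hx⟩) y ((hmN y).mpr ⟨k1, k2, k3, hy⟩) e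

/-- The set version follows from: the sum of the deficits is less than one. -/
theorem set_of_deficit {R : Finset L} {val : L → ℚ}
    (h : ∑ x ∈ R, max 0 (1 - val x) < 1) (s : Finset L) (hs : s ⊆ R) :
    (s.card : ℚ) < 1 + ∑ x ∈ s, val x := by
  have h1 : ∑ x ∈ s, max 0 (1 - val x) ≤ ∑ x ∈ R, max 0 (1 - val x) :=
    Finset.sum_le_sum_of_subset_of_nonneg hs (fun _ _ _ => le_max_left _ _)
  have h2 : ∑ x ∈ s, (1 - val x) ≤ ∑ x ∈ s, max 0 (1 - val x) :=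
    Finset.sum_le_sum (fun _ _ => le_max_right _ _)
  rw [Finset.sum_sub_distrib] at h2
  have h3 : ∑ x ∈ s, (1 : ℚ) = s.card := by simp
  rw [h3] at h2
  linarith

/-- **Rank four from a state in the cone frame**: the sum of the deficits is less than one. -/
theorem crit4_of_deficit (F : FrC A Q o u ρ) {Rep : Finset L} (hRep : Rep ⊆ RC A Q o u ρ)
    {own : L → Finset L} {pl : L → L}
    (S : Sta A (NC A Q o \ Rep) u (ZC o) Rep (ADC A Q o u) own pl)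
    {Ls : L → L → Finset L} {σ : L → L → ℚ}
    (hLs : ∀ x ∈ NC A Q o \ Rep, ∀ a ∈ own x, Ls x a ⊆ pen A x (x ⊔ a) (pl (x ⊔ a)))
    (hσ0 : ∀ a g, 0 ≤ σ a g)
    (hσ1 : ∀ g, rk g = 2 → ∑ a ∈ A.filter (· ≤ u), σ a g ≤ 1)
    (hval : ∑ x ∈ NC A Q o \ Rep, max 0 (1 - ∑ a ∈ own x, ∑ g ∈ Ls x a, σ a g) < 1) :
    Crit4 A :=
  crit4_of_sta_cone_def F hRep S hLs hσ0 hσ1 (fun s hs => set_of_deficit hval s hs)

end

end Pool.Agent.Helper80.BP.Deficit
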