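import Pool.Agent.Helper38.Thick.Core
import Pool.Agent.Helper80.BP.VCore

/-!
# At most one double hub in a plane
-/

set_option autoImplicit false
set_option linter.unusedSectionVars false

namespace Pool.Agent.Helper80.BP

open Pool.Agent.Helper28.BPack Pool.Agent.Helper61.Motz Pool.Agent.Helper38.Thick

variable {L : Type} [Lattice L] [BoundedOrder L] [Finite L] [IsUpperModularLattice L]
  [DecidableEq L] [DecidableRel (α := L) (· ≤ ·)] {A : Finset L}

/-- A line of `H` which misses `y` has at most as many points as `H` has lines through `y`. -/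
theorem line_card_le (hA : ∀ a ∈ A, IsAtom a) {y c H g : L} (hy : y ∈ A) (hyH : y ≤ H)
    (hc : c ∈ A) (hyc : y ≠ c) (hg : rk g = 2) (hgH : g ≤ H) (hyg : ¬ y ≤ g) :
    (A.filter (· ≤ g)).card ≤ (pen A y (y ⊔ c) H).card + 1 := by
  classical
  have hk : rk (y ⊔ c) = 2 := rk_line (hA y hy) (hA c hc) hyc
  set S := (A.filter (· ≤ g)).filter (fun z => ¬ z ≤ y ⊔ c) with hS
  have h1 : ((A.filter (· ≤ g)).filter (fun z => z ≤ y ⊔ c)).card ≤ 1 := by
    rw [Finset.card_le_one]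
    intro a ha b hb
    rw [Finset.mem_filter, Finset.mem_filter] at ha hb
    by_contra hne
    have e1 := line_eq (hA a ha.1.1) (hA b hb.1.1) hne ha.1.2 hb.1.2 hg
    have e2 := line_eq (hA a ha.1.1) (hA b hb.1.1) hne ha.2 hb.2 hk
    exact hyg ((le_sup_left : y ≤ y ⊔ c).trans (e2.symm.trans e1).le)
  have h2 : S.card ≤ (pen A y (y ⊔ c) H).card := by
    apply Finset.card_le_card_of_injOn (fun z => y ⊔ z)
    · intro z hz
      rw [Finset.mem_coe, hS, Finset.mem_filter, Finset.mem_filter] at hz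
      rw [Finset.mem_coe]
      exact mem_pen.mpr ⟨z, hz.1.1, hz.1.2.trans hgH, hz.2, rfl⟩
    · intro z hz z' hz' e
      rw [Finset.mem_coe, hS, Finset.mem_filter, Finset.mem_filter] at hz hz'
      by_contra hne
      have hyz : y ≠ z := fun h => hyg (h ▸ hz.1.2)
      have e' : y ⊔ z = y ⊔ z' := e
      have hl : rk (y ⊔ z) = 2 := rk_line (hA y hy) (hA z hz.1.1) hyz
      have e1 := line_eq (hA z hz.1.1) (hA z' hz'.1.1) hne (le_sup_right : z ≤ y ⊔ z)
        (e' ▸ le_sup_right) hl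
      have e2 := line_eq (hA z hz.1.1) (hA z' hz'.1.1) hne hz.1.2 hz'.1.2 hg
      exact hyg ((le_sup_left : y ≤ y ⊔ z).trans (e1.symm.trans e2).le)
  have h3 := Finset.card_filter_add_card_filter_not (s := A.filter (· ≤ g))
    (fun z => z ≤ y ⊔ c)
  have h4 : ((A.filter (· ≤ g)).filter (fun z => ¬ z ≤ y ⊔ c)).card = S.card := rfl
  omega

/-- `x` is on two lines of `H` with more points than `H` has lines through `x`. -/
def DHub (A : Finset L) (c H x : L) : Prop :=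
  ∃ g g' : L, rk g = 2 ∧ rk g' = 2 ∧ g ≠ g' ∧ x ≤ g ∧ x ≤ g' ∧ g ≤ H ∧ g' ≤ H ∧
    (pen A x (x ⊔ c) H).card + 2 ≤ (A.filter (· ≤ g)).card ∧
    (pen A x (x ⊔ c) H).card + 2 ≤ (A.filter (· ≤ g')).card

theorem DHub.lt (hA : ∀ a ∈ A, IsAtom a) {c H x y : L} (hc : c ∈ A) (hx : x ∈ A) (hy : y ∈ A)
    (hyc : y ≠ c) (hyH : y ≤ H) (hxy : x ≠ y) (h : DHub A c H x) :
    (pen A x (x ⊔ c) H).card < (pen A y (y ⊔ c) H).card := by
  obtain ⟨g, g', h1, h2, h3, h4, h5, h6, h7, h8, h9⟩ := h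
  by_cases hyg : y ≤ g
  · have hyg' : ¬ y ≤ g' := by
      intro hyg'
      have e1 := line_eq (hA x hx) (hA y hy) hxy h4 hyg h1
      have e2 := line_eq (hA x hx) (hA y hy) hxy h5 hyg' h2
      exact h3 (e1.symm.trans e2)
    have := line_card_le hA hy hyH hc hyc h2 h7 hyg'
    omega
  · have := line_card_le hA hy hyH hc hyc h1 h6 hyg
    omega

/-- At most one double hub. -/
theorem DHub.uniq (hA : ∀ a ∈ A, IsAtom a) {c H x y : L} (hc : c ∈ A) (hx : x ∈ A)
    (hy : y ∈ A) (hxc : x ≠ c) (hyc : y ≠ c) (hxH : x ≤ H) (hyH : y ≤ H) (h : DHub A c H x)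
    (h' : DHub A c H y) : x = y := by
  by_contra hxy
  have h1 := h.lt hA hc hx hy hyc hyH hxy
  have h2 := h'.lt hA hc hy hx hxc hxH (Ne.symm hxy)
  omega

/-- In a core a point with a single line off its row is a double hub. -/
theorem dhub_of_one (hA : ∀ a ∈ A, IsAtom a) (hcore : Core A) {c H x : L} (hx : x ∈ A)
    (hc : c ∈ A) (hxc : x ≠ c) (hH : rk H = 3) (hxH : x ⊔ c ≤ H)
    (hz : ∃ z ∈ A, z ≤ H ∧ ¬ z ≤ x ⊔ c) (hw : (pen A x (x ⊔ c) H).card ≤ 1) :
    DHub A c H x := by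
  classical
  obtain ⟨z, hzA, hzH, hzk⟩ := hz
  have hk : rk (x ⊔ c) = 2 := rk_line (hA x hx) (hA c hc) hxc
  have hxz : x ≠ z := fun h => hzk (h ▸ le_sup_left)
  have hcz : c ≠ z := fun h => hzk (h ▸ le_sup_right)
  have hxH' : x ≤ H := le_sup_left.trans hxH
  have hcH' : c ≤ H := le_sup_right.trans hxH
  have hg : rk (x ⊔ z) = 2 := rk_line (hA x hx) (hA z hzA) hxz
  have hmem : x ⊔ z ∈ pen A x (x ⊔ c) H := mem_pen.mpr ⟨z, hzA, hzH, hzk, rfl⟩
  have hone : (pen A x (x ⊔ c) H).card = 1 :=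
    le_antisymm hw (Finset.card_pos.mpr ⟨_, hmem⟩)
  -- all points off the row are on `x ⊔ z`
  have hall : ∀ y ∈ A, y ≤ H → ¬ y ≤ x ⊔ c → y ≤ x ⊔ z := by
    intro y hy hyH hyk
    obtain ⟨g0, hg0⟩ := Finset.card_eq_one.mp hone
    have h1 : x ⊔ y ∈ pen A x (x ⊔ c) H := mem_pen.mpr ⟨y, hy, hyH, hyk, rfl⟩
    rw [hg0, Finset.mem_singleton] at h1 hmem
    rw [hmem, ← h1]
    exact le_sup_right
  have hcg : ¬ c ≤ x ⊔ z := by
    intro h
    have e := line_eq (hA x hx) (hA c hc) hxc le_sup_left h hg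
    exact hzk (e ▸ le_sup_right)
  -- a third point on the row
  have hHz : z ⊔ x ⊔ c ≤ H := sup_le (sup_le hzH hxH') hcH'
  have hrow3 : 3 ≤ (A.filter (· ≤ x ⊔ c)).card := by
    obtain ⟨y, hy, hyle, hyc, hyg⟩ := hcore c hc x hx z hzA hxz hcg
    have hyH : y ≤ H := hyle.trans (sup_le (sup_le hcH' hxH') hzH)
    have hyk : y ≤ x ⊔ c := by
      by_contra hyk
      exact hyg (hall y hy hyH hyk)
    have hyx : y ≠ x := fun h => hyg (h ▸ le_sup_left)
    have hsub : ({y, x, c} : Finset L) ⊆ A.filter (· ≤ x ⊔ c) := by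
      intro t ht
      simp only [Finset.mem_insert, Finset.mem_singleton] at ht
      rw [Finset.mem_filter]
      rcases ht with rfl | rfl | rfl
      · exact ⟨hy, hyk⟩
      · exact ⟨hx, le_sup_left⟩
      · exact ⟨hc, le_sup_right⟩
    have h3 := Finset.card_le_card hsub
    rw [Finset.card_eq_three.mpr ⟨y, x, c, hyx, hyc, hxc, rfl⟩] at h3
    exact h3
  have hg3 : 3 ≤ (A.filter (· ≤ x ⊔ z)).card := by
    obtain ⟨y, hy, hyle, hyz, hyk⟩ := hcore z hzA x hx c hc hxc hzk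
    have hyH : y ≤ H := hyle.trans hHz
    have hyg := hall y hy hyH hyk
    have hyx : y ≠ x := fun h => hyk (h ▸ le_sup_left)
    have hsub : ({y, x, z} : Finset L) ⊆ A.filter (· ≤ x ⊔ z) := by
      intro t ht
      simp only [Finset.mem_insert, Finset.mem_singleton] at ht
      rw [Finset.mem_filter]
      rcases ht with rfl | rfl | rfl
      · exact ⟨hy, hyg⟩
      · exact ⟨hx, le_sup_left⟩
      · exact ⟨hzA, le_sup_right⟩
    have h3 := Finset.card_le_card hsub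
    rw [Finset.card_eq_three.mpr ⟨y, x, z, hyx, hyz, hxz, rfl⟩] at h3
    exact h3
  refine ⟨x ⊔ c, x ⊔ z, hk, hg, ?_, le_sup_left, le_sup_left, hxH, sup_le hxH' hzH, ?_, ?_⟩
  · intro e
    exact hzk (e ▸ le_sup_right)
  · omega
  · omega

/-- If `x` is no double hub then `x` has at least two lines off its row, and at most one of
them has more than `w + 1` points. -/
theorem not_dhub (hA : ∀ a ∈ A, IsAtom a) (hcore : Core A) {c H x : L} (hx : x ∈ A)
    (hc : c ∈ A) (hxc : x ≠ c) (hH : rk H = 3) (hxH : x ⊔ c ≤ H)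
    (hz : ∃ z ∈ A, z ≤ H ∧ ¬ z ≤ x ⊔ c) (h : ¬ DHub A c H x) :
    2 ≤ (pen A x (x ⊔ c) H).card ∧ ∃ γ : L, ∀ g ∈ pen A x (x ⊔ c) H, g ≠ γ →
      (A.filter (· ≤ g)).card ≤ (pen A x (x ⊔ c) H).card + 1 := by
  classical
  constructor
  · by_contra hcon
    exact h (dhub_of_one hA hcore hx hc hxc hH hxH hz (by omega))
  · by_cases hex : ∃ γ ∈ pen A x (x ⊔ c) H,
      (pen A x (x ⊔ c) H).card + 2 ≤ (A.filter (· ≤ γ)).card
    · obtain ⟨γ, hγ, hγc⟩ := hex
      refine ⟨γ, ?_⟩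
      intro g hg hne
      by_contra hcon
      obtain ⟨k1, k2, k3, -⟩ := Pool.Agent.Helper38.SC.pen_spec hA hx hc hxc hH hxH hγ
      obtain ⟨l1, l2, l3, -⟩ := Pool.Agent.Helper38.SC.pen_spec hA hx hc hxc hH hxH hg
      exact h ⟨γ, g, k1, l1, Ne.symm hne, k2, l2, k3, l3, hγc, by omega⟩
    · push Not at hex
      refine ⟨⊥, ?_⟩
      intro g hg _
      have := hex g hg
      omega

end Pool.Agent.Helper80.BP
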