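import Pool.Agent.Helper61.Motz.Peel

/-!
# Level three by the prefix rule
-/

set_option autoImplicit false
set_option linter.unusedSectionVars false

namespace Pool.Agent.Helper80.BP

open Pool.Agent.Helper28.BPack Pool.Agent.Helper61.Motz

/-- Hall's theorem from shares. -/
theorem hall_shares {X Y : Type} [DecidableEq X] [DecidableEq Y] (y0 : Y) (R : Finset X)
    (W : X → Finset Y) (τ : X → Y → ℚ) (h0 : ∀ x ∈ R, ∀ y, 0 ≤ τ x y)
    (hdem : ∀ x ∈ R, 1 ≤ ∑ y ∈ W x, τ x y)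
    (hload : ∀ y, ∑ x ∈ R.filter (fun x => y ∈ W x), τ x y ≤ 1) :
    ∃ F : X → Y, (∀ x ∈ R, ∀ y ∈ R, F x = F y → x = y) ∧ ∀ x ∈ R, F x ∈ W x := by
  classical
  have key : ∃ F : {x // x ∈ R} → Y, Function.Injective F ∧ ∀ x, F x ∈ W x.1 := by
    apply (Finset.all_card_le_biUnion_card_iff_exists_injective
      (fun x : {x // x ∈ R} => W x.1)).mp
    intro s
    set B := s.biUnion (fun x : {x // x ∈ R} => W x.1) with hB
    have h1 : (s.card : ℚ) ≤ ∑ x ∈ s, ∑ y ∈ W x.1, τ x.1 y := by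
      calc (s.card : ℚ) = ∑ x ∈ s, (1 : ℚ) := by simp
        _ ≤ _ := Finset.sum_le_sum fun x _ => hdem x.1 x.2
    have h3 : ∀ x ∈ s, ∑ y ∈ W x.1, τ x.1 y = ∑ y ∈ B, if y ∈ W x.1 then τ x.1 y else 0 := by
      intro x hx
      rw [← Finset.sum_filter]
      apply Finset.sum_congr
      · ext y
        rw [Finset.mem_filter, hB, Finset.mem_biUnion]
        exact ⟨fun h => ⟨⟨x, hx, h⟩, h⟩, fun h => h.2⟩
      · intros; rfl
    rw [Finset.sum_congr rfl h3, Finset.sum_comm] at h1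
    have h4 : ∀ y ∈ B, (∑ x ∈ s, if y ∈ W x.1 then τ x.1 y else 0) ≤ 1 := by
      intro y _
      refine le_trans ?_ (hload y)
      rw [Finset.sum_filter]
      have e1 : (∑ x ∈ R, if y ∈ W x then τ x y else 0) =
          ∑ x ∈ R.attach, if y ∈ W x.1 then τ x.1 y else 0 :=
        (Finset.sum_attach R (fun x => if y ∈ W x then τ x y else 0)).symm
      rw [e1]
      apply Finset.sum_le_sum_of_subset_of_nonneg
      · intro x _
        exact Finset.mem_attach R x
      · intro x _ _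
        split_ifs
        · exact h0 x.1 x.2 y
        · exact le_rfl
    have h5 : (s.card : ℚ) ≤ (B.card : ℚ) := by
      refine h1.trans ((Finset.sum_le_sum h4).trans ?_)
      simp
    exact_mod_cast h5
  obtain ⟨F, hF, hFW⟩ := key
  refine ⟨fun x => if h : x ∈ R then F ⟨x, h⟩ else y0, ?_, ?_⟩
  · intro x hx y hy e
    simp only [hx, hy, dif_pos] at e
    exact congrArg Subtype.val (hF e)
  · intro x hx
    simp only [hx, dif_pos]
    exact hFW ⟨x, hx⟩

variable {L : Type} [Lattice L] [BoundedOrder L] [Finite L] [IsUpperModularLattice L]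

/-- The number of points of `A` on the row `x ⊔ c` other than `c`. -/
noncomputable def rowLen (A : Finset L) (x c : L) : ℕ := by
  classical
  exact ((A.filter (fun z => z ≤ x ⊔ c)).erase c).card

/-- The lines of the plane `H` through `x` and a point of `A` off the row `x ⊔ c`. -/
noncomputable def pencil (A : Finset L) (x c H : L) : Finset L := by
  classical
  exact (A.filter (fun z => z ≤ H ∧ ¬ z ≤ x ⊔ c)).image (fun z => x ⊔ z)

theorem mem_pencil {A : Finset L} {x c H g : L} :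
    g ∈ pencil A x c H ↔ ∃ z ∈ A, z ≤ H ∧ ¬ z ≤ x ⊔ c ∧ x ⊔ z = g := by
  classical
  simp only [pencil, Finset.mem_image, Finset.mem_filter]
  constructor
  · rintro ⟨z, ⟨h1, h2, h3⟩, h4⟩
    exact ⟨z, h1, h2, h3, h4⟩
  · rintro ⟨z, h1, h2, h3, h4⟩
    exact ⟨z, ⟨h1, h2, h3⟩, h4⟩

/-- A plane over the row of `x` which contains a point `z` off the row has at least as many
lines through `x` as the row of `z` has points. -/
theorem rowLen_le_pencil {A : Finset L} (hA : ∀ a ∈ A, IsAtom a) {x c H z : L} (hx : x ∈ A)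
    (hc : c ∈ A) (hxc : x ≠ c) (hxH : x ⊔ c ≤ H) (hz : z ∈ A) (hzH : z ≤ H)
    (hzk : ¬ z ≤ x ⊔ c) : rowLen A z c ≤ (pencil A x c H).card := by
  classical
  have hzc : z ≠ c := fun h => hzk (h ▸ le_sup_right)
  have hk : rk (x ⊔ c) = 2 := rk_line (hA x hx) (hA c hc) hxc
  have hk' : rk (z ⊔ c) = 2 := rk_line (hA z hz) (hA c hc) hzc
  have hoff : ∀ y ∈ A, y ≤ z ⊔ c → y ≠ c → ¬ y ≤ x ⊔ c := by
    intro y hy h1 h2 h3
    have e1 := line_eq (hA y hy) (hA c hc) h2 h1 le_sup_right hk'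
    have e2 := line_eq (hA y hy) (hA c hc) h2 h3 le_sup_right hk
    exact hzk ((le_sup_left : z ≤ z ⊔ c).trans (e1.symm.trans e2).le)
  have hxz : ¬ x ≤ z ⊔ c := by
    intro h
    have e1 := line_eq (hA x hx) (hA c hc) hxc h le_sup_right hk'
    exact hzk ((le_sup_left : z ≤ z ⊔ c).trans e1.symm.le)
  have hdef : rowLen A z c = ((A.filter (fun y => y ≤ z ⊔ c)).erase c).card := rfl
  rw [hdef]
  apply Finset.card_le_card_of_injOn (fun y => x ⊔ y)
  · intro y hy
    rw [Finset.mem_coe, Finset.mem_erase, Finset.mem_filter] at hy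
    obtain ⟨h1, h2, h3⟩ := hy
    rw [Finset.mem_coe, mem_pencil]
    exact ⟨y, h2, h3.trans (sup_le hzH (le_sup_right.trans hxH)), hoff y h2 h3 h1, rfl⟩
  · intro y hy y' hy' e
    rw [Finset.mem_coe, Finset.mem_erase, Finset.mem_filter] at hy hy'
    by_contra hne
    have hxy : x ≠ y := fun h => hxz (h ▸ hy.2.2)
    have hl : rk (x ⊔ y) = 2 := rk_line (hA x hx) (hA y hy.2.1) hxy
    have e' : x ⊔ y = x ⊔ y' := e
    have e1 := line_eq (hA y hy.2.1) (hA y' hy'.2.1) hne (le_sup_right : y ≤ x ⊔ y)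
      (e' ▸ le_sup_right) hl
    have e2 := line_eq (hA y hy.2.1) (hA y' hy'.2.1) hne hy.2.2 hy'.2.2 hk'
    exact hxz ((le_sup_left : x ≤ x ⊔ y).trans (e1.symm.trans e2).le)

/-- The data of the levels one and two: users, colours, planes. -/
structure Two (A R : Finset L) (u : L) (cc H : L → L) : Prop where
  at_ : ∀ a ∈ A, IsAtom a
  ru : rk u = 2
  mem : ∀ x ∈ R, x ∈ A
  off : ∀ x ∈ R, ¬ x ≤ u
  cA : ∀ x ∈ R, cc x ∈ A
  cu : ∀ x ∈ R, cc x ≤ u
  Hr : ∀ x ∈ R, rk (H x) = 3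
  row : ∀ x ∈ R, x ⊔ cc x ≤ H x
  Hu : ∀ x ∈ R, ¬ u ≤ H x
  inj : ∀ x ∈ R, ∀ y ∈ R, cc x = cc y → H x = H y → x = y

namespace Two

variable {A R : Finset L} {u : L} {cc H : L → L}

theorem ne_c (T : Two A R u cc H) {x : L} (hx : x ∈ R) {c : L} (hc : c ≤ u) : x ≠ c :=
  fun h => T.off x hx (h ▸ hc)

/-- A point of `u` in the plane of `x` is the colour of `x`. -/
theorem col (T : Two A R u cc H) {x : L} (hx : x ∈ R) {c : L} (hc : c ∈ A) (hcu : c ≤ u)
    (hcH : c ≤ H x) : c = cc x := by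
  by_contra hne
  have h1 := line_eq (T.at_ c hc) (T.at_ _ (T.cA x hx)) hne hcu (T.cu x hx) T.ru
  exact T.Hu x hx (h1 ▸ sup_le hcH (le_sup_right.trans (T.row x hx)))

theorem rk_pencil (T : Two A R u cc H) {x g : L} (hx : x ∈ R)
    (hg : g ∈ pencil A x (cc x) (H x)) : rk g = 2 ∧ x ≤ g ∧ g ≤ H x ∧ ¬ cc x ≤ g := by
  obtain ⟨z, hz, hzH, hzk, rfl⟩ := mem_pencil.mp hg
  have hxz : x ≠ z := fun h => hzk (h ▸ le_sup_left)
  have hr := rk_line (T.at_ x (T.mem x hx)) (T.at_ z hz) hxz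
  refine ⟨hr, le_sup_left, sup_le (le_sup_left.trans (T.row x hx)) hzH, ?_⟩
  intro h
  have h1 := line_eq (T.at_ x (T.mem x hx)) (T.at_ _ (T.cA x hx)) (T.ne_c hx (T.cu x hx))
    le_sup_left h hr
  exact hzk ((le_sup_right : z ≤ x ⊔ z).trans h1.symm.le)

/-- The plane of a contender of `g` is spanned by `g` and its colour. -/
theorem plane (T : Two A R u cc H) {x g : L} (hx : x ∈ R)
    (hg : g ∈ pencil A x (cc x) (H x)) : g ⊔ cc x = H x := by
  obtain ⟨h1, h2, h3, h4⟩ := T.rk_pencil hx hg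
  refine eq_of_le_of_rk (sup_le h3 (le_sup_right.trans (T.row x hx))) ?_
  rw [rk_sup_atom (T.at_ _ (T.cA x hx)) h4, h1, T.Hr x hx]

/-- Contenders of one line have different colours. -/
theorem col_inj (T : Two A R u cc H) {x y g : L} (hx : x ∈ R) (hy : y ∈ R)
    (hg : g ∈ pencil A x (cc x) (H x)) (hg' : g ∈ pencil A y (cc y) (H y)) (h : cc x = cc y) :
    x = y := by
  refine T.inj x hx y hy h ?_
  rw [← T.plane hx hg, ← T.plane hy hg', h]

/-- THE LOAD LEMMA.  The plane of the contender `x` of `g` has at least as many lines through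
`x` as the row of its colour through any other point `z` of `g` has points. -/
theorem load (T : Two A R u cc H) {x z g : L} (hx : x ∈ R)
    (hg : g ∈ pencil A x (cc x) (H x)) (hz : z ∈ A) (hzg : z ≤ g) (hzx : z ≠ x) :
    rowLen A z (cc x) ≤ (pencil A x (cc x) (H x)).card := by
  obtain ⟨h1, h2, h3, h4⟩ := T.rk_pencil hx hg
  refine rowLen_le_pencil T.at_ (T.mem x hx) (T.cA x hx) (T.ne_c hx (T.cu x hx)) (T.row x hx)
    hz (hzg.trans h3) ?_
  intro h
  have hk : rk (x ⊔ cc x) = 2 := rk_line (T.at_ x (T.mem x hx)) (T.at_ _ (T.cA x hx))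
    (T.ne_c hx (T.cu x hx))
  have e1 := line_eq (T.at_ z hz) (T.at_ x (T.mem x hx)) hzx hzg h2 h1
  have e2 := line_eq (T.at_ z hz) (T.at_ x (T.mem x hx)) hzx h le_sup_left hk
  exact h4 ((le_sup_right : cc x ≤ x ⊔ cc x).trans (e2.symm.trans e1).le)

theorem rowLen_pos {A : Finset L} {z c : L} (hz : z ∈ A) (hzc : z ≠ c) : 1 ≤ rowLen A z c := by
  classical
  have hdef : rowLen A z c = ((A.filter (fun y => y ≤ z ⊔ c)).erase c).card := rfl
  rw [hdef]
  exact Finset.card_pos.mpr ⟨z, Finset.mem_erase.mpr ⟨hzc, Finset.mem_filter.mpr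
    ⟨hz, le_sup_left⟩⟩⟩

/-- The total demand `1 / w` of the contenders of smaller colour on a line `g` through a user
`z` is at most the sum of `1 / l_c (z)` over the smaller colours. -/
theorem sum_load [DecidableEq L] [DecidableRel (α := L) (· ≤ ·)] (T : Two A R u cc H)
    {z g : L} (hz : z ∈ A) (hzu : ¬ z ≤ u) (hzg : z ≤ g) (S C : Finset L) (hS : S ⊆ R)
    (hSg : ∀ x ∈ S, g ∈ pencil A x (cc x) (H x) ∧ x ≠ z) (hSC : ∀ x ∈ S, cc x ∈ C)
    (hC : ∀ c ∈ C, c ≤ u) :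
    ∑ x ∈ S, 1 / ((pencil A x (cc x) (H x)).card : ℚ) ≤ ∑ c ∈ C, 1 / (rowLen A z c : ℚ) := by
  have h1 : ∀ x ∈ S, 1 / ((pencil A x (cc x) (H x)).card : ℚ) ≤ 1 / (rowLen A z (cc x) : ℚ) := by
    intro x hx
    have hp := rowLen_pos (A := A) (c := cc x) hz (fun h => hzu (h ▸ T.cu x (hS hx)))
    have hl := T.load (hS hx) (hSg x hx).1 hz hzg (hSg x hx).2.symm
    apply one_div_le_one_div_of_le
    · exact_mod_cast hp
    · exact_mod_cast hl
  refine (Finset.sum_le_sum h1).trans ?_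
  have h2 : Set.InjOn cc (S : Set L) := by
    intro x hx y hy h
    exact T.col_inj (hS hx) (hS hy) (hSg x hx).1 (hSg y hy).1 h
  rw [← Finset.sum_image (f := fun c => 1 / (rowLen A z c : ℚ)) h2]
  apply Finset.sum_le_sum_of_subset_of_nonneg
  · intro c hc
    obtain ⟨x, hx, rfl⟩ := Finset.mem_image.mp hc
    exact hSC x hx
  · intro c _ _
    positivity

end Two

/-- LEVEL THREE, PREFIX RULE.  The colours are ordered by `idx`.  If for every user `x` the sum
of `1 / l_c (x)` over the smaller colours plus `1 / w (x)` is at most one, then different second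
lines exist. -/
theorem level3_prefix [DecidableEq L] [DecidableRel (α := L) (· ≤ ·)] {A R : Finset L} {u : L}
    {cc H : L → L} (T : Two A R u cc H) (idx : L → ℕ)
    (hidx : ∀ c ∈ A, c ≤ u → ∀ c' ∈ A, c' ≤ u → idx c = idx c' → c = c')
    (hne : ∀ x ∈ R, ∃ z ∈ A, z ≤ H x ∧ ¬ z ≤ x ⊔ cc x)
    (hG : ∀ x ∈ R, ∑ c ∈ A.filter (fun c => c ≤ u ∧ idx c < idx (cc x)),
      1 / (rowLen A x c : ℚ) + 1 / ((pencil A x (cc x) (H x)).card : ℚ) ≤ 1) :
    ∃ gg : L → L, (∀ x ∈ R, gg x ∈ A ∧ gg x ≤ H x ∧ ¬ gg x ≤ x ⊔ cc x) ∧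
      ∀ x ∈ R, ∀ y ∈ R, x ⊔ gg x = y ⊔ gg y → x = y := by
  classical
  obtain ⟨F, hF, hFW⟩ := hall_shares (⊥ : L) R (fun x => pencil A x (cc x) (H x))
    (fun x _ => 1 / ((pencil A x (cc x) (H x)).card : ℚ)) (fun x _ _ => by positivity)
    (by
      intro x hx
      obtain ⟨z, hz, hzH, hzk⟩ := hne x hx
      have hpos : 0 < (pencil A x (cc x) (H x)).card :=
        Finset.card_pos.mpr ⟨x ⊔ z, mem_pencil.mpr ⟨z, hz, hzH, hzk, rfl⟩⟩
      have hpos' : (0 : ℚ) < ((pencil A x (cc x) (H x)).card : ℚ) := by exact_mod_cast hpos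
      rw [Finset.sum_const, nsmul_eq_mul, mul_one_div_cancel hpos'.ne'])
    (by
      intro g
      set S := R.filter (fun x => g ∈ pencil A x (cc x) (H x)) with hS
      rcases S.eq_empty_or_nonempty with h0 | hn
      · rw [h0, Finset.sum_empty]
        exact zero_le_one
      obtain ⟨z, hz, hmax⟩ := S.exists_max_image (fun x => idx (cc x)) hn
      have hzR : z ∈ R := (Finset.mem_filter.mp hz).1
      have hzg : g ∈ pencil A z (cc z) (H z) := (Finset.mem_filter.mp hz).2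
      rw [← Finset.add_sum_erase S _ hz, add_comm]
      refine le_trans ?_ (hG z hzR)
      gcongr
      apply T.sum_load (T.mem z hzR) (T.off z hzR) (T.rk_pencil hzR hzg).2.1
      · intro x hx
        exact (Finset.mem_filter.mp (Finset.mem_of_mem_erase hx)).1
      · intro x hx
        exact ⟨(Finset.mem_filter.mp (Finset.mem_of_mem_erase hx)).2,
          (Finset.mem_erase.mp hx).1⟩
      · intro x hx
        have hx1 := Finset.mem_erase.mp hx
        have hxR : x ∈ R := (Finset.mem_filter.mp hx1.2).1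
        refine Finset.mem_filter.mpr ⟨T.cA x hxR, T.cu x hxR, ?_⟩
        refine lt_of_le_of_ne (hmax x hx1.2) ?_
        intro h
        exact hx1.1 (T.col_inj hxR hzR (Finset.mem_filter.mp hx1.2).2 hzg
          (hidx _ (T.cA x hxR) (T.cu x hxR) _ (T.cA z hzR) (T.cu z hzR) h))
      · intro c hc
        exact (Finset.mem_filter.mp hc).2.1)
  have hch : ∀ x, ∃ z, x ∈ R → z ∈ A ∧ z ≤ H x ∧ ¬ z ≤ x ⊔ cc x ∧ x ⊔ z = F x := by
    intro x
    by_cases hx : x ∈ R
    · obtain ⟨z, h1, h2, h3, h4⟩ := mem_pencil.mp (hFW x hx)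
      exact ⟨z, fun _ => ⟨h1, h2, h3, h4⟩⟩
    · exact ⟨⊥, fun h => absurd h hx⟩
  choose gg hgg using hch
  refine ⟨gg, fun x hx => ⟨(hgg x hx).1, (hgg x hx).2.1, (hgg x hx).2.2.1⟩, ?_⟩
  intro x hx y hy h
  apply hF x hx y hy
  rw [← (hgg x hx).2.2.2, ← (hgg y hy).2.2.2, h]

end Pool.Agent.Helper80.BP
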