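import Pool.Agent.Helper56.BP.Start

/-!
# Row values in a full state

Guests are fine as soon as their plane contains no forced row and no deleted edge; so only the
users of the lowest class of a plane (core users) need a value statement.
-/

set_option autoImplicit false
set_option linter.unusedSectionVars false

namespace Pool.Agent.Helper80.BP.Rows

open Pool.Agent.Helper28.BPack Pool.Agent.Helper61.Motz Pool.Agent.Helper38.Thick
  Pool.Agent.Helper38.SC Pool.Agent.Helper80.BP Pool.Agent.Helper56.BP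

variable {L : Type} [Lattice L] [BoundedOrder L] [Finite L] [IsUpperModularLattice L]
  [DecidableEq L] [DecidableRel (α := L) (· ≤ ·)]

/-- The unowned rows of `H` (colour `c`, off the row of `x`) which meet the class of `x`. -/
def UR (N' : Finset L) (own : L → Finset L) (cls : L → ℕ) (x c H : L) : Finset L :=
  (N'.filter (fun y => y ≤ H ∧ ¬ y ≤ x ⊔ c ∧ cls y = cls x ∧
    ∀ v ∈ N', c ∈ own v → v ⊔ c ≠ y ⊔ c)).image (· ⊔ c)

theorem UR_own {N' : Finset L} {own : L → Finset L} {cls : L → ℕ} {x c H : L} :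
    ∀ y ∈ N', y ≤ H → ¬ y ≤ x ⊔ c → cls y = cls x →
      (∃ v ∈ N', c ∈ own v ∧ v ⊔ c = y ⊔ c) ∨ y ⊔ c ∈ UR N' own cls x c H := by
  intro y hy h1 h2 h3
  by_cases h : ∃ v ∈ N', c ∈ own v ∧ v ⊔ c = y ⊔ c
  · exact Or.inl h
  · push Not at h
    exact Or.inr (Finset.mem_image.mpr ⟨y, Finset.mem_filter.mpr ⟨hy, h1, h2, h3, h⟩, rfl⟩)

variable {A N : Finset L} {u : L} {Z : L → Prop} {harm adj : L → L → Prop}
  {Rep0 Rep : Finset L} {adj' : L → L → Prop} {own : L → Finset L} {pl : L → L} {rc : L → ℕ}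

theorem two_le_c2 (rc : L → ℕ) (x : L) : 2 ≤ c2 rc x := by
  unfold c2
  split_ifs <;> omega

/-- The plane of an owned row. -/
theorem Full.pl' (S : Full A N u Z harm adj Rep0 Rep adj' own pl rc) {x c : L}
    (hx : x ∈ N \ Rep) (hc : c ∈ own x) : Pl A u x c (pl (x ⊔ c)) := by
  have T := S.sta
  obtain ⟨h1, h2, h3, h4⟩ := T.pln x hx c hc
  exact ⟨T.mem x hx, T.off x hx, (T.ownA x hx c hc).1, (T.ownA x hx c hc).2, h2, h3⟩

/-- A row through a point `y` off `u` is the row through its other points. -/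
theorem row_eq {y z c : L} (hy : IsAtom y) (hz : IsAtom z) (hc : IsAtom c) (hyu : ¬ y ≤ u)
    (hzu : ¬ z ≤ u) (hcu : c ≤ u) (h : z ≤ y ⊔ c) : z ⊔ c = y ⊔ c := by
  have hyc : y ≠ c := fun e => hyu (e ▸ hcu)
  have hzc : z ≠ c := fun e => hzu (e ▸ hcu)
  exact line_eq hz hc hzc h le_sup_right (rk_line hy hc hyc)

/-- **Guests are fine**. -/
theorem guest_row (S : Full A N u Z harm adj Rep0 Rep adj' own pl rc)
    (hRepA : ∀ z ∈ Rep, z ∈ A ∧ ¬ z ≤ u)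
    (hRep1 : ∀ z ∈ Rep, ∀ z' ∈ Rep, ∀ y ∈ N \ Rep, ∀ c ∈ A, c ≤ u → z ≤ y ⊔ c → z' ≤ y ⊔ c →
      z' = z)
    {x c : L} (hx : x ∈ N \ Rep) (hc : c ∈ own x) {a : ℕ}
    (ha1 : ∀ y ∈ N \ Rep, y ≤ pl (x ⊔ c) → a ≤ c2 rc y)
    (ha2 : ∃ y ∈ N \ Rep, y ≤ pl (x ⊔ c) ∧ c2 rc y = a)
    (hrow : ∀ y ∈ N \ Rep, y ≤ x ⊔ c → a < c2 rc y)
    (hadj : ∀ y ∈ N \ Rep, y ≤ pl (x ⊔ c) → c2 rc y = a →
      ¬ Z (y ⊔ c) ∧ adj' (y ⊔ c) (pl (x ⊔ c))) :
    (1 : ℚ) / (own x).card ≤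
      ∑ g ∈ pen A x (x ⊔ c) (pl (x ⊔ c)), sig (N \ Rep) own (c2 rc) c g := by
  have T := S.sta
  have P := Full.pl' S hx hc
  have SS := S.se
  refine Pool.Agent.Helper80.BP.E.val_guest SS P hx ha1 ha2 hrow ?_
  intro y hy hyH hya
  by_contra hno
  push Not at hno
  obtain ⟨hZ, hadj'⟩ := hadj y hy hyH hya
  have hxcls := hrow x hx le_sup_left
  by_cases hrep : ∃ z ∈ Rep, z ≤ y ⊔ c
  · obtain ⟨z, hz, hzy⟩ := hrep
    obtain ⟨hzA, hzu⟩ := hRepA z hz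
    have e : z ⊔ c = y ⊔ c := row_eq (T.at_ y (T.mem y hy)) (T.at_ z hzA)
      (T.at_ c P.cA) (T.off y hy) hzu P.cu hzy
    obtain ⟨x', hx', hcx', hpl, h0⟩ := S.reps z hz c P.cA P.cu (e ▸ hZ)
      (fun z' hz' hz'y => hRep1 z hz z' hz' y hy c P.cA P.cu hzy (e ▸ hz'y)) _ (e ▸ hadj')
    obtain ⟨e1, -⟩ := T.inj x' hx' c hcx' x hx c hc hpl
    rw [e1] at h0
    have h2 := two_le_c2 rc y
    have h3 : c2 rc x = 2 := by unfold c2; rw [if_pos h0]
    omega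
  · push Not at hrep
    obtain ⟨x', hx', hcx', hpl, h0⟩ := S.free y hy c P.cA P.cu hZ hrep hno _ hadj'
    obtain ⟨e1, -⟩ := T.inj x' hx' c hcx' x hx c hc hpl
    rw [e1] at h0
    have h1 := c2_mono (h0 y hy le_sup_left)
    omega

/-- The lowest class of a plane. -/
theorem exists_low {N' : Finset L} (cls : L → ℕ) {x H : L} (hx : x ∈ N') (hxH : x ≤ H) :
    ∃ a, (∀ y ∈ N', y ≤ H → a ≤ cls y) ∧ ∃ y ∈ N', y ≤ H ∧ cls y = a := by
  classical
  obtain ⟨y, hy, hmin⟩ := Finset.exists_min_image (N'.filter (· ≤ H)) cls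
    ⟨x, Finset.mem_filter.mpr ⟨hx, hxH⟩⟩
  obtain ⟨h1, h2⟩ := Finset.mem_filter.mp hy
  exact ⟨cls y, fun z hz hzH => hmin z (Finset.mem_filter.mpr ⟨hz, hzH⟩), y, h1, h2, rfl⟩

/-- A user is a core user or a guest of its plane. -/
theorem core_or_guest (S : Full A N u Z harm adj Rep0 Rep adj' own pl rc)
    {x c : L} (hx : x ∈ N \ Rep) (hc : c ∈ own x) {a : ℕ}
    (ha1 : ∀ y ∈ N \ Rep, y ≤ pl (x ⊔ c) → a ≤ c2 rc y) :
    (∀ y ∈ N \ Rep, y ≤ pl (x ⊔ c) → c2 rc x ≤ c2 rc y) ∨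
      ∀ y ∈ N \ Rep, y ≤ x ⊔ c → a < c2 rc y := by
  have SS := S.se
  have P := Full.pl' S hx hc
  by_cases h : c2 rc x = a
  · exact Or.inl (fun y hy hyH => h ▸ ha1 y hy hyH)
  · right
    intro y hy hyx
    have h1 := SS.low x hx c hc y hy hyx
    have h2 := ha1 x hx (le_sup_left.trans P.le)
    omega

/-- Core users: rich or tight or of an even class, at most `w - 1` unowned rows of the class. -/
theorem core_rich (S : Full A N u Z harm adj Rep0 Rep adj' own pl rc)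
    {x c : L} (hx : x ∈ N \ Rep) (hc : c ∈ own x)
    (ha1 : ∀ y ∈ N \ Rep, y ≤ pl (x ⊔ c) → c2 rc x ≤ c2 rc y)
    (hrich : c2 rc x ≤ 2 * (own x).card)
    (hw : (UR (N \ Rep) own (c2 rc) x c (pl (x ⊔ c))).card + 1 ≤
      (pen A x (x ⊔ c) (pl (x ⊔ c))).card) :
    (1 : ℚ) / (own x).card ≤
      ∑ g ∈ pen A x (x ⊔ c) (pl (x ⊔ c)), sig (N \ Rep) own (c2 rc) c g :=
  Pool.Agent.Helper80.BP.E.val_rich_rho S.se (Full.pl' S hx hc) hx hc ha1 _ UR_own hrich hw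

/-- Core users, rich or tight: lines with at most `w + t` points of the class. -/
theorem core_rich_gen (S : Full A N u Z harm adj Rep0 Rep adj' own pl rc)
    {x c : L} (hx : x ∈ N \ Rep) (hc : c ∈ own x)
    (ha1 : ∀ y ∈ N \ Rep, y ≤ pl (x ⊔ c) → c2 rc x ≤ c2 rc y)
    (hrich : c2 rc x ≤ 2 * (own x).card) (hw : 1 ≤ (pen A x (x ⊔ c) (pl (x ⊔ c))).card)
    (hs : ∀ g ∈ pen A x (x ⊔ c) (pl (x ⊔ c)), (TT (N \ Rep) (c2 rc) g).card ≤
      (pen A x (x ⊔ c) (pl (x ⊔ c))).card +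
        (EE (N \ Rep) own (c2 rc) x c (pl (x ⊔ c)) (c2 rc x)).card) :
    (1 : ℚ) / (own x).card ≤
      ∑ g ∈ pen A x (x ⊔ c) (pl (x ⊔ c)), sig (N \ Rep) own (c2 rc) c g :=
  Pool.Agent.Helper80.BP.E.val_rich_gen S.se (Full.pl' S hx hc) hx hc ha1 hrich hw hs

/-- Core users, any load: lines with at most `w` points of the class. -/
theorem core_super (S : Full A N u Z harm adj Rep0 Rep adj' own pl rc)
    {x c : L} (hx : x ∈ N \ Rep) (hc : c ∈ own x)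
    (ha1 : ∀ y ∈ N \ Rep, y ≤ pl (x ⊔ c) → c2 rc x ≤ c2 rc y)
    (hw : 1 ≤ (pen A x (x ⊔ c) (pl (x ⊔ c))).card)
    (hs : ∀ g ∈ pen A x (x ⊔ c) (pl (x ⊔ c)), (TT (N \ Rep) (c2 rc) g).card ≤
      (pen A x (x ⊔ c) (pl (x ⊔ c))).card) :
    (1 : ℚ) / (own x).card ≤
      ∑ g ∈ pen A x (x ⊔ c) (pl (x ⊔ c)), sig (N \ Rep) own (c2 rc) c g :=
  Pool.Agent.Helper80.BP.E.val_super S.se (Full.pl' S hx hc) hx hc ha1 hw hs

/-- Core users, poor, helper29's condition with at most one unowned row of the class. -/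
theorem core_c2 (S : Full A N u Z harm adj Rep0 Rep adj' own pl rc)
    {x c : L} (hx : x ∈ N \ Rep) (hc : c ∈ own x)
    (ha1 : ∀ y ∈ N \ Rep, y ≤ pl (x ⊔ c) → c2 rc x ≤ c2 rc y)
    (hZ : (UR (N \ Rep) own (c2 rc) x c (pl (x ⊔ c))).card ≤ 1)
    (hpoor : c2 rc x = 2 * (own x).card + 1) {γ : L} (hγ : γ ∈ pen A x (x ⊔ c) (pl (x ⊔ c)))
    (hmax : ∀ g ∈ pen A x (x ⊔ c) (pl (x ⊔ c)),
      (TT (N \ Rep) (c2 rc) g).card ≤ (TT (N \ Rep) (c2 rc) γ).card)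
    (hC : (1 : ℚ) / 2 ≤ ∑ g ∈ (pen A x (x ⊔ c) (pl (x ⊔ c))).erase γ,
      (1 : ℚ) / (TT (N \ Rep) (c2 rc) g).card) :
    (1 : ℚ) / (own x).card ≤
      ∑ g ∈ pen A x (x ⊔ c) (pl (x ⊔ c)), sig (N \ Rep) own (c2 rc) c g :=
  Pool.Agent.Helper80.BP.E.val_c2 S.se (Full.pl' S hx hc) hx hc ha1 _ UR_own hZ hpoor hγ hmax hC

/-- Core users, poor, three lines, at most one unowned row of the class, at most one long line. -/
theorem core_poor_one (S : Full A N u Z harm adj Rep0 Rep adj' own pl rc)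
    {x c : L} (hx : x ∈ N \ Rep) (hc : c ∈ own x)
    (ha1 : ∀ y ∈ N \ Rep, y ≤ pl (x ⊔ c) → c2 rc x ≤ c2 rc y)
    (hZ : (UR (N \ Rep) own (c2 rc) x c (pl (x ⊔ c))).card ≤ 1)
    (hpoor : c2 rc x = 2 * (own x).card + 1)
    (hw : 3 ≤ (pen A x (x ⊔ c) (pl (x ⊔ c))).card) (γ : L)
    (hs : ∀ g ∈ pen A x (x ⊔ c) (pl (x ⊔ c)), g ≠ γ → (TT (N \ Rep) (c2 rc) g).card ≤
      (pen A x (x ⊔ c) (pl (x ⊔ c))).card + 1) :
    (1 : ℚ) / (own x).card ≤
      ∑ g ∈ pen A x (x ⊔ c) (pl (x ⊔ c)), sig (N \ Rep) own (c2 rc) c g :=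
  Pool.Agent.Helper80.BP.E.val_poor_one S.se (Full.pl' S hx hc) hx hc ha1 _ UR_own hZ hpoor hw γ
    hs

/-- A core user is rich, tight or poor. -/
theorem rich_or_poor (S : Full A N u Z harm adj Rep0 Rep adj' own pl rc)
    {x : L} (hx : x ∈ N \ Rep) :
    c2 rc x ≤ 2 * (own x).card ∨ c2 rc x = 2 * (own x).card + 1 := by
  have := S.se.lo x hx
  omega

/-- **Rank four from the values of core users.**  `hp` is a set of harmful planes which contains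
all planes through `r1` or `r2`. -/
theorem crit4_of_core_rows {A : Finset L} (hA : ∀ a ∈ A, IsAtom a) (hrA : rk (A.sup id) = 4)
    (hcore : Core A) (hp : L → L → L → L → Prop)
    (hp1 : ∀ u r1 r2 H, (r1 ≤ H ∨ r2 ≤ H) → hp u r1 r2 H)
    (hval : ∀ (u b1 b2 r1 r2 : L) (r : L → L), Frm A u b1 b2 r1 r2 r →
      ∀ (Rep : Finset L) (adj' : L → L → Prop) (own : L → Finset L) (pl : L → L) (rc : L → ℕ),
        Full A (NN A u r1 r2) u (ZZ r1 r2) (fun _ H => hp u r1 r2 H) (AD u r1 r2)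
          (RR A u r1 r2 r) Rep adj' own pl rc →
      ∀ x ∈ NN A u r1 r2 \ Rep, ∀ c ∈ own x,
        (∀ y ∈ NN A u r1 r2 \ Rep, y ≤ pl (x ⊔ c) → c2 rc x ≤ c2 rc y) →
        (1 : ℚ) / (own x).card ≤
          ∑ g ∈ pen A x (x ⊔ c) (pl (x ⊔ c)), sig (NN A u r1 r2 \ Rep) own (c2 rc) c g) :
    Crit4 A := by
  refine crit4_of_row_values hA hrA hcore (fun u r1 r2 _ H => hp u r1 r2 H) ?_
  intro u b1 b2 r1 r2 r FR Rep adj' own pl rc S x hx c hc
  have T := S.sta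
  have P := Full.pl' S hx hc
  obtain ⟨a, ha1, ha2⟩ := exists_low (c2 rc) hx (le_sup_left.trans P.le)
  rcases core_or_guest S hx hc ha1 with h | h
  · exact hval u b1 b2 r1 r2 r FR Rep adj' own pl rc S x hx c hc h
  · -- a guest is not tight, so its plane is harmless
    have hrc : rc x ≠ 0 := by
      intro h0
      have h1 := h x hx le_sup_left
      obtain ⟨y, hy, hyH, hya⟩ := ha2
      have h2 := two_le_c2 rc y
      have h3 : c2 rc x = 2 := by unfold c2; rw [if_pos h0]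
      omega
    have hnh : ¬ hp u r1 r2 (pl (x ⊔ c)) := fun h0 => hrc (S.harmless x hx c hc h0)
    have hn1 : ¬ r1 ≤ pl (x ⊔ c) := fun h0 => hnh (hp1 _ _ _ _ (Or.inl h0))
    have hn2 : ¬ r2 ≤ pl (x ⊔ c) := fun h0 => hnh (hp1 _ _ _ _ (Or.inr h0))
    have hRR : ∀ z ∈ Rep, z ∈ A ∧ ¬ z ≤ u ∧ r z = z := by
      intro z hz
      have h1 := S.rep hz
      simp only [RR, Finset.mem_filter] at h1
      exact ⟨h1.1, h1.2.1, h1.2.2.2.2⟩
    refine guest_row S (fun z hz => ⟨(hRR z hz).1, (hRR z hz).2.1⟩) ?_ hx hc ha1 ha2 h ?_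
    · intro z hz z' hz' y hy c' _ hcu' h1 h2
      obtain ⟨k1, k2, k3⟩ := hRR z hz
      obtain ⟨l1, l2, l3⟩ := hRR z' hz'
      have hyA := T.mem y hy
      have hyu := T.off y hy
      have e1 := FR.hrr y hyA hyu z k1 k2 (h1.trans (sup_le_sup_left hcu' y))
      have e2 := FR.hrr y hyA hyu z' l1 l2 (h2.trans (sup_le_sup_left hcu' y))
      rw [← k3, ← l3, ← e1, ← e2]
    · intro y hy hyH _
      have hyc : y ⊔ c ≤ pl (x ⊔ c) := sup_le hyH P.ch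
      refine ⟨?_, ?_⟩
      · rintro (h1 | h1)
        · exact hn1 (h1.trans hyc)
        · exact hn2 (h1.trans hyc)
      · apply S.adj_ge
        · refine ⟨P.rH, hyc, (T.pln x hx c hc).2.2.2, fun h1 => hn1 (le_sup_left.trans h1)⟩
        · exact hnh

end Pool.Agent.Helper80.BP.Rows
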