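import Pool.Agent.Helper56.BP.ConeKer
import Pool.Agent.Helper80.BP.RowsR

/-!
# Rank four when every user is served by its plane alone

In the cone frame every user has one row and one plane.  If in every plane `H` not over `u` and
for every point `x` of `H` off `Q` the sum of `1 / |g - Q|` over the lines `g` of `H` through `x`
which avoid the point `c` of `u` is at least one, then the shares `1 / |g - Q|` serve everybody.
-/

set_option autoImplicit false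
set_option linter.unusedSectionVars false

namespace Pool.Agent.Helper80.BP.SQ

open Pool.Agent.Helper28.BPack Pool.Agent.Helper61.Motz Pool.Agent.Helper38.Thick
  Pool.Agent.Helper38.SC Pool.Agent.Helper56.BP Pool.Agent.Helper80.BP

variable {L : Type} [Lattice L] [BoundedOrder L] [Finite L] [IsUpperModularLattice L]
  [DecidableEq L] [DecidableRel (α := L) (· ≤ ·)] {A : Finset L} {Q o u : L} {ρ : L → L}

/-- The state of a start: user `x` owns the row `x ⊔ m x` with the plane `P x`. -/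
theorem start_sta (F : FrC A Q o u ρ) {m P : L → L}
    (h1 : ∀ x ∈ NC A Q o, x ∉ RC A Q o u ρ → m x ∈ A ∧ m x ≤ u ∧ ¬ ZC o (x ⊔ m x) ∧
      ADC A Q o u (x ⊔ m x) (P x) ∧ ∀ z ∈ RC A Q o u ρ, ¬ z ≤ x ⊔ m x)
    (h2 : ∀ x ∈ NC A Q o, x ∉ RC A Q o u ρ → ∀ y ∈ NC A Q o, y ∉ RC A Q o u ρ →
      x ⊔ m x = y ⊔ m y → x = y)
    (h3 : ∀ x ∈ NC A Q o, x ∉ RC A Q o u ρ → ∀ y ∈ NC A Q o, y ∉ RC A Q o u ρ →
      P x = P y → x = y) :
    ∃ pl : L → L, (∀ x ∈ NC A Q o, x ∉ RC A Q o u ρ → pl (x ⊔ m x) = P x) ∧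
      Sta A (NC A Q o \ RC A Q o u ρ) u (ZC o) (RC A Q o u ρ) (ADC A Q o u)
        (fun x => {m x}) pl := by
  classical
  set R : Finset L := NC A Q o \ RC A Q o u ρ with hR
  have hmR : ∀ x, x ∈ R ↔ x ∈ NC A Q o ∧ x ∉ RC A Q o u ρ := fun x => by
    rw [hR, Finset.mem_sdiff]
  set pl : L → L := fun k => if h : ∃ x ∈ R, x ⊔ m x = k then P h.choose else ⊥ with hpl
  have hplv : ∀ x ∈ R, pl (x ⊔ m x) = P x := by
    intro x hx
    have h : ∃ y ∈ R, y ⊔ m y = x ⊔ m x := ⟨x, hx, rfl⟩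
    have e : pl (x ⊔ m x) = P h.choose := by simp only [hpl, dif_pos h]
    rw [e]
    obtain ⟨h4, h5⟩ := h.choose_spec
    obtain ⟨k1, k2⟩ := (hmR _).mp h4
    obtain ⟨l1, l2⟩ := (hmR x).mp hx
    rw [h2 _ k1 k2 x l1 l2 h5]
  refine ⟨pl, fun x hx hx' => hplv x ((hmR x).mpr ⟨hx, hx'⟩), ?_⟩
  have hR1 : ∀ x ∈ R, m x ∈ A ∧ m x ≤ u ∧ ¬ ZC o (x ⊔ m x) ∧
      ADC A Q o u (x ⊔ m x) (P x) ∧ ∀ z ∈ RC A Q o u ρ, ¬ z ≤ x ⊔ m x := fun x hx =>
    h1 x ((hmR x).mp hx).1 ((hmR x).mp hx).2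
  refine ⟨F.at_, F.ru, ?_, ?_, ?_, ?_, ?_, ?_, ?_, ?_, ?_⟩
  · intro v hv
    exact (mem_NC.mp ((hmR v).mp hv).1).1
  · intro v hv
    exact F.off (mem_NC.mp ((hmR v).mp hv).1).2.1
  · intro v hv c hc
    rw [Finset.mem_singleton] at hc
    subst hc
    exact ⟨(hR1 v hv).1, (hR1 v hv).2.1⟩
  · intro v hv c hc
    rw [Finset.mem_singleton] at hc
    subst hc
    exact (hR1 v hv).2.2.1
  · intro v hv c hc
    rw [Finset.mem_singleton] at hc
    subst hc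
    exact (hR1 v hv).2.2.2.2
  · intro v hv v' hv' c hc hc' e
    rw [Finset.mem_singleton] at hc hc'
    have e2 : v ⊔ m v = v' ⊔ m v' := by rw [← hc, ← hc', e]
    exact h2 v ((hmR v).mp hv).1 ((hmR v).mp hv).2 v' ((hmR v').mp hv').1 ((hmR v').mp hv').2 e2
  · intro v hv c hc
    rw [Finset.mem_singleton] at hc
    subst hc
    rw [hplv v hv]
    have h4 := (hR1 v hv).2.2.2.1
    exact ⟨h4, h4.1, h4.2.1, h4.2.2.1⟩
  · intro v hv c hc v' hv' c' hc' e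
    rw [Finset.mem_singleton] at hc hc'
    subst hc hc'
    rw [hplv v hv, hplv v' hv'] at e
    have e2 := h3 v ((hmR v).mp hv).1 ((hmR v).mp hv).2 v' ((hmR v').mp hv').1
      ((hmR v').mp hv').2 e
    exact ⟨e2, by rw [e2]⟩
  · intro v _
    simp

/-- **A start with good values**: every user `x` off `Q` (not `o`, not a representative) has a
colour `m x` and a plane `P x`; rows and planes are different.  The users of a line `g` share it
equally, and `x` gets the shares of the users of its own colour on the lines of its pencil. -/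
theorem crit4_of_start_values (F : FrC A Q o u ρ) {m P : L → L}
    (h1 : ∀ x ∈ NC A Q o, x ∉ RC A Q o u ρ → m x ∈ A ∧ m x ≤ u ∧ ¬ ZC o (x ⊔ m x) ∧
      ADC A Q o u (x ⊔ m x) (P x) ∧ ∀ z ∈ RC A Q o u ρ, ¬ z ≤ x ⊔ m x)
    (h2 : ∀ x ∈ NC A Q o, x ∉ RC A Q o u ρ → ∀ y ∈ NC A Q o, y ∉ RC A Q o u ρ →
      x ⊔ m x = y ⊔ m y → x = y)
    (h3 : ∀ x ∈ NC A Q o, x ∉ RC A Q o u ρ → ∀ y ∈ NC A Q o, y ∉ RC A Q o u ρ →
      P x = P y → x = y)
    (hval : ∀ x ∈ NC A Q o \ RC A Q o u ρ, (1 : ℚ) ≤ ∑ g ∈ pen A x (x ⊔ m x) (P x),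
      (((NC A Q o \ RC A Q o u ρ).filter (fun v => v ≤ g ∧ m v = m x)).card : ℚ) /
        ((NC A Q o \ RC A Q o u ρ).filter (· ≤ g)).card) : Crit4 A := by
  classical
  obtain ⟨pl, hpl, S⟩ := start_sta F h1 h2 h3
  set R : Finset L := NC A Q o \ RC A Q o u ρ with hR
  have hmR : ∀ x, x ∈ R ↔ x ∈ NC A Q o ∧ x ∉ RC A Q o u ρ := fun x => by
    rw [hR, Finset.mem_sdiff]
  have SS : Pool.Agent.Helper80.BP.R.SR A R u (fun x => {m x}) (fun _ => 2) (fun _ => 0) := by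
    refine ⟨S.at_, S.ru, S.mem, S.off, S.ownA, S.uniq, ?_, S.own1, ?_, ?_, ?_, ?_⟩
    · intro _ _ _ _ _ _ _
      exact le_rfl
    · intro v _
      simp
    · intro v _
      simp
    · intro _ _ _ _ _
      exact le_rfl
    · intro _ _ _ _ _ h
      exact absurd (by decide : Even 2) h
  have hT : ∀ g, TT R (fun _ => 0) g = R.filter (· ≤ g) := by
    intro g
    ext v
    rw [mem_TT, Finset.mem_filter]
    exact ⟨fun h => ⟨h.1, h.2.1⟩, fun h => ⟨h.1, h.2, fun _ _ _ => le_rfl⟩⟩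
  refine crit4_of_sta_cone F (Finset.Subset.refl _) S
    (Ls := fun x a => pen A x (x ⊔ a) (pl (x ⊔ a)))
    (σ := sig R (fun x => {m x}) (fun _ => 0)) (fun x _ a _ => Finset.Subset.refl _)
    (fun a g => sig_nonneg _ _ _ a g)
    (fun g _ => Pool.Agent.Helper80.BP.R.sig_sum_le SS g) ?_
  intro x hx
  rw [Finset.sum_singleton, hpl x ((hmR x).mp hx).1 ((hmR x).mp hx).2]
  refine (hval x hx).trans (le_of_eq (Finset.sum_congr rfl (fun g _ => ?_)))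
  unfold sig
  rw [hT]
  congr 1
  rw [← Finset.sum_filter, Finset.filter_filter]
  have e1 : R.filter (fun v => v ≤ g ∧ m v = m x) =
      R.filter (fun v => v ≤ g ∧ m x ∈ ({m v} : Finset L)) := by
    apply Finset.filter_congr
    intro v _
    rw [Finset.mem_singleton, eq_comm (a := m v)]
  rw [e1]
  simp

/-- **A super start**: the lines of the pencil of every user have few users. -/
theorem crit4_of_super_start (F : FrC A Q o u ρ) {m P : L → L}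
    (h1 : ∀ x ∈ NC A Q o, x ∉ RC A Q o u ρ → m x ∈ A ∧ m x ≤ u ∧ ¬ ZC o (x ⊔ m x) ∧
      ADC A Q o u (x ⊔ m x) (P x) ∧ ∀ z ∈ RC A Q o u ρ, ¬ z ≤ x ⊔ m x)
    (h2 : ∀ x ∈ NC A Q o, x ∉ RC A Q o u ρ → ∀ y ∈ NC A Q o, y ∉ RC A Q o u ρ →
      x ⊔ m x = y ⊔ m y → x = y)
    (h3 : ∀ x ∈ NC A Q o, x ∉ RC A Q o u ρ → ∀ y ∈ NC A Q o, y ∉ RC A Q o u ρ →
      P x = P y → x = y)
    (hs : ∀ x ∈ NC A Q o \ RC A Q o u ρ, (1 : ℚ) ≤ ∑ g ∈ pen A x (x ⊔ m x) (P x),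
      (1 : ℚ) / ((NC A Q o \ RC A Q o u ρ).filter (· ≤ g)).card) : Crit4 A := by
  refine crit4_of_start_values F h1 h2 h3 (fun x hx => (hs x hx).trans
    (Finset.sum_le_sum (fun g hg => ?_)))
  have h4 : x ∈ (NC A Q o \ RC A Q o u ρ).filter (fun v => v ≤ g ∧ m v = m x) := by
    refine Finset.mem_filter.mpr ⟨hx, ?_, rfl⟩
    obtain ⟨z, -, -, -, e⟩ := mem_pen.mp hg
    exact e ▸ le_sup_left
  have h5 : (1 : ℚ) ≤
      (((NC A Q o \ RC A Q o u ρ).filter (fun v => v ≤ g ∧ m v = m x)).card : ℚ) := by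
    exact_mod_cast Finset.card_pos.mpr ⟨x, h4⟩
  exact div_le_div_of_nonneg_right h5 (by positivity)

/-- **(SQ)** gives rank four. -/
theorem crit4_of_SQ (F : FrC A Q o u ρ) (hK : Ker A Q o u ρ)
    (hSQ : ∀ H, rk H = 3 → ¬ u ≤ H → ∀ c ∈ A, c ≤ u → c ≤ H → ∀ x ∈ A, x ≤ H → ¬ x ≤ Q →
      x ≠ o → (1 : ℚ) ≤ ∑ g ∈ pen A x (x ⊔ c) H,
        (1 : ℚ) / (A.filter (fun z => z ≤ g ∧ ¬ z ≤ Q)).card) : Crit4 A := by
  classical
  obtain ⟨m, P, h1, h2, h3⟩ := cone_mP F hK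
  refine crit4_of_super_start F h1 h2 h3 (fun x hx => ?_)
  obtain ⟨k1, k2⟩ := Finset.mem_sdiff.mp hx
  obtain ⟨l1, l2, l3⟩ := mem_NC.mp k1
  obtain ⟨n1, n2, -, n3, -⟩ := h1 x k1 k2
  refine (hSQ (P x) n3.1 n3.2.2.1 (m x) n1 n2 (le_sup_right.trans n3.2.1) x l1
    (le_sup_left.trans n3.2.1) l2 l3).trans (Finset.sum_le_sum (fun g hg => ?_))
  have hxg : x ≤ g := by
    obtain ⟨z, -, -, -, e⟩ := mem_pen.mp hg
    exact e ▸ le_sup_left
  apply one_div_le_one_div_of_le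
  · exact_mod_cast Finset.card_pos.mpr ⟨x, Finset.mem_filter.mpr ⟨hx, hxg⟩⟩
  · have h6 : (NC A Q o \ RC A Q o u ρ).filter (· ≤ g) ⊆
        A.filter (fun z => z ≤ g ∧ ¬ z ≤ Q) := by
      intro v hv
      obtain ⟨m1, m2⟩ := Finset.mem_filter.mp hv
      obtain ⟨n1, n2, -⟩ := mem_NC.mp (Finset.mem_sdiff.mp m1).1
      exact Finset.mem_filter.mpr ⟨n1, m2, n2⟩
    exact_mod_cast Finset.card_le_card h6

/-- **(SQ) for cores**: a longest line `u` and a plane `Q` over `u` such that in every plane `H`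
not over `u` which contains a point `c` of `u`, for every point `x` of `H` off `Q`, the sum of
`1 / |g - Q|` over the lines `g` of `H` through `x`, not through `c`, is at least one. -/
theorem crit4_SQ {A : Finset L} (hA : ∀ a ∈ A, IsAtom a) (hrA : rk (A.sup id) = 4)
    (hcore : Core A) {u Q : L} (hu : rk u = 2) (hU : 2 ≤ (A.filter (· ≤ u)).card)
    (hmax : ∀ k, rk k = 2 → (A.filter (· ≤ k)).card ≤ (A.filter (· ≤ u)).card)
    (hQ : rk Q = 3) (huQ : u ≤ Q) (hQA : ∃ a ∈ A, a ≤ Q ∧ ¬ a ≤ u)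
    (hSQ : ∀ H, rk H = 3 → ¬ u ≤ H → ∀ c ∈ A, c ≤ u → c ≤ H → ∀ x ∈ A, x ≤ H → ¬ x ≤ Q →
      (1 : ℚ) ≤ ∑ g ∈ pen A x (x ⊔ c) H,
        (1 : ℚ) / (A.filter (fun z => z ≤ g ∧ ¬ z ≤ Q)).card) : Crit4 A := by
  obtain ⟨o, ρ, F, hNF⟩ := exists_frC hA hrA hcore hu hU hmax hQ huQ hQA
  exact crit4_of_SQ F (ker_of_frC F hNF) (fun H h1 h2 c h3 h4 h5 x h6 h7 h8 _ =>
    hSQ H h1 h2 c h3 h4 h5 x h6 h7 h8)

end Pool.Agent.Helper80.BP.SQ
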