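import Pool.Agent.Helper80.BP.SQH
import Pool.Agent.Helper73.BP.ConeK

/-!
# The class (SQ+), with `K` colours on any line, in terms of heights and sets
-/

set_option autoImplicit false
set_option linter.unusedSectionVars false

namespace Pool.Agent.Helper80.BP.SQ

open Pool.Agent.Helper28.BPack Pool.Agent.Helper61.Motz Pool.Agent.Helper38.Thick
  Pool.Agent.Helper38.SC Pool.Agent.Helper56.BP Pool.Agent.Helper80.BP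

variable {L : Type} [Lattice L] [BoundedOrder L] [Finite L] [IsUpperModularLattice L]

/-- The sum of the reciprocals, over a set of lines. -/
theorem finsum_offK [DecidableEq L] [DecidableRel (α := L) (· ≤ ·)] (A : Finset L) (K : ℕ)
    (x c H Q : L) :
    (∑ᶠ g ∈ {g : L | ∃ z ∈ A, z ≤ H ∧ ¬ z ≤ x ⊔ c ∧ g = x ⊔ z},
      (1 : ℚ) / (min {a ∈ (A : Set L) | a ≤ g ∧ ¬ a ≤ Q}.ncard K : ℕ)) =
      ∑ g ∈ pen A x (x ⊔ c) H,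
        (1 : ℚ) / ((min (A.filter (fun z => z ≤ g ∧ ¬ z ≤ Q)).card K : ℕ) : ℚ) := by
  have h1 : {g : L | ∃ z ∈ A, z ≤ H ∧ ¬ z ≤ x ⊔ c ∧ g = x ⊔ z} =
      ((pen A x (x ⊔ c) H : Finset L) : Set L) := by
    ext g
    simp only [Set.mem_ofPred_eq, Finset.mem_coe, mem_pen]
    constructor
    · rintro ⟨z, h1, h2, h3, h4⟩
      exact ⟨z, h1, h2, h3, h4.symm⟩
    · rintro ⟨z, h1, h2, h3, h4⟩
      exact ⟨z, h1, h2, h3, h4.symm⟩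
  rw [h1, finsum_mem_coe_finset]
  apply Finset.sum_congr rfl
  intro g _
  rw [ncard_off]

/-- **(SQ+) in terms of heights.** -/
theorem crit4_SQK_height {A : Finset L} (hA : ∀ a ∈ A, IsAtom a) (hrA : rk (A.sup id) = 4)
    (hcore : ∀ p ∈ A, ∀ a ∈ A, ∀ b ∈ A, a ≠ b → ¬ p ≤ a ⊔ b →
      ∃ z ∈ A, z ≤ p ⊔ a ⊔ b ∧ z ≠ p ∧ ¬ z ≤ a ⊔ b)
    (h : ∃ (u Q : L) (K : ℕ), Order.height u = 2 ∧ Order.height Q = 3 ∧ u ≤ Q ∧ 2 ≤ K ∧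
      K ≤ {a ∈ (A : Set L) | a ≤ u}.ncard ∧
      (∀ c ∈ A, c ≤ u → ∀ x ∈ A, ¬ x ≤ u → {a ∈ (A : Set L) | a ≤ x ⊔ c}.ncard ≤ K) ∧
      (∃ z ∈ A, z ≤ Q ∧ ¬ z ≤ u) ∧
      ∀ H : L, Order.height H = 3 → ¬ u ≤ H → ∀ c ∈ A, c ≤ u → c ≤ H → ∀ x ∈ A, x ≤ H →
        ¬ x ≤ Q →
        (1 : ℚ) ≤ ∑ᶠ g ∈ {g : L | ∃ z ∈ A, z ≤ H ∧ ¬ z ≤ x ⊔ c ∧ g = x ⊔ z},
          (1 : ℚ) / (min {a ∈ (A : Set L) | a ≤ g ∧ ¬ a ≤ Q}.ncard K : ℕ)) : Crit4 A := by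
  classical
  obtain ⟨u, Q, K, h1, h2, h3, hK2, hKu, hrow, h6, h7⟩ := h
  rw [ncard_on] at hKu
  refine Pool.Agent.Helper73.BP.crit4_SQK hA hrA hcore (rk_of_ht h1) hK2 hKu
    (fun x hx hxu c hc hcu => ?_) (rk_of_ht h2) h3 h6
    (fun H k1 k2 c k3 k4 k5 x k6 k7 k8 => ?_)
  · have h8 := hrow c hc hcu x hx hxu
    rwa [ncard_on] at h8
  · rw [← finsum_offK]
    exact h7 H (ht_of_rk k1) k2 c k3 k4 k5 x k6 k7 k8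

end Pool.Agent.Helper80.BP.SQ
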