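import Pool.Agent.Helper80.BP.Value

/-!
# The value of an owned row in a plane with `ρ` rows without owner
-/

set_option autoImplicit false
set_option linter.unusedSectionVars false

namespace Pool.Agent.Helper80.BP

open Finset

variable {ι : Type} [DecidableEq ι]

/-- GUESTS in a plane with `ρ` unowned rows of the class. -/
theorem value_guest_rho (W : Finset ι) (τ φ : ι → ℕ) (a ρ : ℕ) (F : ι → ℚ)
    (hF : ∀ g ∈ W, (φ g : ℚ) / (a + 1) ≤ F g) (h1 : ∀ g ∈ W, 1 ≤ τ g)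
    (ht : ∀ g ∈ W, τ g ≤ ρ + ∑ g' ∈ W, φ g') :
    ((∑ g ∈ W, φ g : ℕ) : ℚ) / ((a + 1) * (ρ + (∑ g ∈ W, φ g : ℕ))) ≤ ∑ g ∈ W, F g / τ g := by
  set t := ∑ g' ∈ W, φ g' with htdef
  have ha0 : (0 : ℚ) < (a : ℚ) + 1 := by positivity
  have hT : (t : ℚ) = ∑ g ∈ W, (φ g : ℚ) := by rw [htdef]; push_cast; rfl
  rcases Nat.eq_zero_or_pos (ρ + t) with h0 | hpos
  · have ht0 : t = 0 := by omega
    rw [ht0]
    simp only [Nat.cast_zero, zero_div]
    apply Finset.sum_nonneg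
    intro g hg
    have e3 : (0 : ℚ) ≤ (φ g : ℚ) / (a + 1) := by positivity
    exact div_nonneg (e3.trans (hF g hg)) (by positivity)
  have hp : (0 : ℚ) < (ρ : ℚ) + t := by exact_mod_cast hpos
  calc (t : ℚ) / ((a + 1) * (ρ + t)) = ∑ g ∈ W, ((φ g : ℚ) / (a + 1)) / (ρ + t) := by
        rw [← Finset.sum_div, ← Finset.sum_div, ← hT, div_div]
    _ ≤ _ := by
        apply Finset.sum_le_sum
        intro g hg
        have e1 : (0 : ℚ) < τ g := by exact_mod_cast h1 g hg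
        have e2 : (τ g : ℚ) ≤ ρ + t := by exact_mod_cast ht g hg
        have e3 : (0 : ℚ) ≤ (φ g : ℚ) / (a + 1) := by positivity
        exact (div_le_div_of_nonneg_left e3 e1 e2).trans
          (div_le_div_of_nonneg_right (hF g hg) e1.le)

/-- RICH owners with `ρ` unowned rows: `ρ + 1 ≤ w` is enough. -/
theorem value_rich_rho (W : Finset ι) (τ φ : ι → ℕ) (a ρ : ℕ) (F : ι → ℚ)
    (hw : ρ + 1 ≤ W.card)
    (hF : ∀ g ∈ W, (φ g : ℚ) / (a + 1) ≤ F g) (h1 : ∀ g ∈ W, 1 ≤ τ g)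
    (ht : ∀ g ∈ W, τ g ≤ 1 + ρ + ∑ g' ∈ W, φ g') :
    (1 : ℚ) / (a + 1) ≤ ∑ g ∈ W, (1 / (a + 1) + F g) / τ g := by
  set t := ∑ g' ∈ W, φ g' with htdef
  have ha0 : (0 : ℚ) < (a : ℚ) + 1 := by positivity
  have hT : (t : ℚ) = ∑ g ∈ W, (φ g : ℚ) := by rw [htdef]; push_cast; rfl
  have hw' : (ρ : ℚ) + 1 ≤ W.card := by exact_mod_cast hw
  have ht1 : (0 : ℚ) < 1 + ρ + (t : ℚ) := by positivity
  calc (1 : ℚ) / (a + 1) ≤ ((W.card : ℚ) * (1 / (a + 1)) + t / (a + 1)) / (1 + ρ + t) := by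
        rw [le_div_iff₀ ht1]
        have : (W.card : ℚ) * (1 / (a + 1)) + t / (a + 1) - 1 / (a + 1) * (1 + ρ + t) =
            ((W.card : ℚ) - (ρ + 1)) / (a + 1) := by field_simp; ring
        have h2 : (0 : ℚ) ≤ ((W.card : ℚ) - (ρ + 1)) / (a + 1) :=
          div_nonneg (by linarith) ha0.le
        linarith
    _ = ∑ g ∈ W, ((1 / ((a : ℚ) + 1) + (φ g : ℚ) / (a + 1)) / (1 + ρ + t)) := by
        rw [← Finset.sum_div, Finset.sum_add_distrib, Finset.sum_const, nsmul_eq_mul,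
          ← Finset.sum_div, ← hT]
    _ ≤ _ := by
        apply Finset.sum_le_sum
        intro g hg
        have e1 : (0 : ℚ) < τ g := by exact_mod_cast h1 g hg
        have e2 : (τ g : ℚ) ≤ 1 + ρ + t := by exact_mod_cast ht g hg
        have e3 : (0 : ℚ) ≤ 1 / ((a : ℚ) + 1) + (φ g : ℚ) / (a + 1) := by positivity
        refine (div_le_div_of_nonneg_left e3 e1 e2).trans
          (div_le_div_of_nonneg_right ?_ e1.le)
        linarith [hF g hg]

/-- RICH owners without long line: one owned fellow row is enough, for every `ρ`. -/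
theorem value_rich_short (W : Finset ι) (τ φ : ι → ℕ) (a : ℕ) (F : ι → ℚ)
    (hF : ∀ g ∈ W, (φ g : ℚ) / (a + 1) ≤ F g) (h1 : ∀ g ∈ W, 1 ≤ τ g)
    (hs : ∀ g ∈ W, τ g ≤ W.card + 1) (ht : 1 ≤ ∑ g' ∈ W, φ g') :
    (1 : ℚ) / (a + 1) ≤ ∑ g ∈ W, (1 / (a + 1) + F g) / τ g := by
  set t := ∑ g' ∈ W, φ g' with htdef
  have ha0 : (0 : ℚ) < (a : ℚ) + 1 := by positivity
  have hT : (t : ℚ) = ∑ g ∈ W, (φ g : ℚ) := by rw [htdef]; push_cast; rfl
  have ht' : (1 : ℚ) ≤ t := by exact_mod_cast ht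
  have ht1 : (0 : ℚ) < (W.card : ℚ) + 1 := by positivity
  calc (1 : ℚ) / (a + 1) ≤ ((W.card : ℚ) * (1 / (a + 1)) + t / (a + 1)) / (W.card + 1) := by
        rw [le_div_iff₀ ht1]
        have : (W.card : ℚ) * (1 / (a + 1)) + t / (a + 1) - 1 / (a + 1) * (W.card + 1) =
            ((t : ℚ) - 1) / (a + 1) := by field_simp; ring
        have h2 : (0 : ℚ) ≤ ((t : ℚ) - 1) / (a + 1) := div_nonneg (by linarith) ha0.le
        linarith
    _ = ∑ g ∈ W, ((1 / ((a : ℚ) + 1) + (φ g : ℚ) / (a + 1)) / (W.card + 1)) := by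
        rw [← Finset.sum_div, Finset.sum_add_distrib, Finset.sum_const, nsmul_eq_mul,
          ← Finset.sum_div, ← hT]
    _ ≤ _ := by
        apply Finset.sum_le_sum
        intro g hg
        have e1 : (0 : ℚ) < τ g := by exact_mod_cast h1 g hg
        have e2 : (τ g : ℚ) ≤ W.card + 1 := by exact_mod_cast hs g hg
        have e3 : (0 : ℚ) ≤ 1 / ((a : ℚ) + 1) + (φ g : ℚ) / (a + 1) := by positivity
        refine (div_le_div_of_nonneg_left e3 e1 e2).trans
          (div_le_div_of_nonneg_right ?_ e1.le)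
        linarith [hF g hg]

/-- POOR owners with `ρ` unowned rows. -/
theorem value_poor_rho (W : Finset ι) (τ φ : ι → ℕ) (a ρ : ℕ) (F : ι → ℚ) (ha : 1 ≤ a)
    (hw : 1 ≤ W.card) (γ : ι)
    (hF : ∀ g ∈ W, (φ g : ℚ) / (a + 1) ≤ F g) (h1 : ∀ g ∈ W, 1 ≤ τ g)
    (ht : ∀ g ∈ W, τ g ≤ 1 + ρ + ∑ g' ∈ W, φ g')
    (hs : ∀ g ∈ W, g ≠ γ → τ g ≤ W.card + 1)
    (hA : (∀ g ∈ W, τ g ≤ W.card + 1) → 2 ≤ ∑ g' ∈ W, φ g' ∨
      (∑ g' ∈ W, φ g' = 1 ∧ ρ + 2 ≤ W.card) ∨ (∑ g' ∈ W, φ g' = 0 ∧ ρ + 1 ≤ W.card))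
    (hB : γ ∈ W → W.card + 2 ≤ τ γ →
      ((W.card : ℚ) + 1) * (τ γ + ρ * a) ≤ (W.card - 1) * (a + 1) * τ γ + (W.card + 1) ∨
      (a = 1 ∧ W.card = 2 ∧ ρ ≤ 1 ∧ ∀ g ∈ W, g ≠ γ → τ g ≤ 2)) :
    (1 : ℚ) / a ≤ ∑ g ∈ W, (1 / a + F g) / τ g := by
  set t := ∑ g' ∈ W, φ g' with htdef
  have haQ : (1 : ℚ) ≤ a := by exact_mod_cast ha
  have ha0 : (0 : ℚ) < (a : ℚ) := by linarith
  have ha1 : (0 : ℚ) < (a : ℚ) + 1 := by linarith
  have hT : (t : ℚ) = ∑ g ∈ W, (φ g : ℚ) := by rw [htdef]; push_cast; rfl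
  have hw' : (1 : ℚ) ≤ W.card := by exact_mod_cast hw
  set w : ℚ := (W.card : ℚ) with hwdef
  have hτ0 : ∀ g ∈ W, (0 : ℚ) < τ g := fun g hg => by exact_mod_cast h1 g hg
  have hφ0 : ∀ g, (0 : ℚ) ≤ (φ g : ℚ) / (a + 1) := fun g => by positivity
  have ht0 : (0 : ℚ) ≤ t := by positivity
  have hρ0 : (0 : ℚ) ≤ ρ := by positivity
  have hred : ∑ g ∈ W, (1 / (a : ℚ) + (φ g : ℚ) / (a + 1)) / τ g ≤
      ∑ g ∈ W, (1 / a + F g) / τ g := by
    apply Finset.sum_le_sum
    intro g hg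
    exact div_le_div_of_nonneg_right (by linarith [hF g hg]) (hτ0 g hg).le
  refine le_trans ?_ hred
  by_cases hshort : ∀ g ∈ W, τ g ≤ W.card + 1
  · have key : ∀ m : ℚ, 0 < m → (∀ g ∈ W, (τ g : ℚ) ≤ m) →
        (w * (1 / a) + t / (a + 1)) / m ≤
        ∑ g ∈ W, (1 / (a : ℚ) + (φ g : ℚ) / (a + 1)) / τ g := by
      intro m hm hτm
      calc (w * (1 / a) + t / (a + 1)) / m =
          ∑ g ∈ W, ((1 / (a : ℚ) + (φ g : ℚ) / (a + 1)) / m) := by
            rw [← Finset.sum_div, Finset.sum_add_distrib, Finset.sum_const, nsmul_eq_mul,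
              ← Finset.sum_div, ← hT]
        _ ≤ _ := by
            apply Finset.sum_le_sum
            intro g hg
            exact div_le_div_of_nonneg_left (by have := hφ0 g; positivity) (hτ0 g hg)
              (hτm g hg)
    rcases hA hshort with h | ⟨h, h'⟩ | ⟨h, h'⟩
    · refine le_trans ?_ (key (w + 1) (by linarith) (fun g hg => by
        rw [hwdef]; exact_mod_cast hshort g hg))
      have h2 : (2 : ℚ) ≤ t := by exact_mod_cast h
      rw [le_div_iff₀ (by linarith)]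
      have e : w * (1 / a) + t / (a + 1) - 1 / a * (w + 1) =
          (t * a - (a + 1)) / (a * (a + 1)) := by field_simp; ring
      have e2 : (0 : ℚ) ≤ (t * a - (a + 1)) / (a * (a + 1)) := by
        apply div_nonneg _ (by positivity)
        nlinarith
      linarith
    · refine le_trans ?_ (key (ρ + 2) (by linarith) (fun g hg => by
        have := ht g hg
        rw [h] at this
        have h3 : τ g ≤ ρ + 2 := by omega
        exact_mod_cast h3))
      have h2 : (ρ : ℚ) + 2 ≤ w := by rw [hwdef]; exact_mod_cast h'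
      rw [le_div_iff₀ (by linarith)]
      have e : (1 : ℚ) / a * (ρ + 2) ≤ w * (1 / a) := by
        rw [mul_comm w]
        exact mul_le_mul_of_nonneg_left h2 (by positivity)
      have e3 : (0 : ℚ) ≤ (t : ℚ) / (a + 1) := by positivity
      linarith
    · refine le_trans ?_ (key (ρ + 1) (by linarith) (fun g hg => by
        have := ht g hg
        rw [h] at this
        have h3 : τ g ≤ ρ + 1 := by omega
        exact_mod_cast h3))
      have h2 : (ρ : ℚ) + 1 ≤ w := by rw [hwdef]; exact_mod_cast h'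
      rw [le_div_iff₀ (by linarith)]
      have e : (1 : ℚ) / a * (ρ + 1) ≤ w * (1 / a) := by
        rw [mul_comm w]
        exact mul_le_mul_of_nonneg_left h2 (by positivity)
      have e3 : (0 : ℚ) ≤ (t : ℚ) / (a + 1) := by positivity
      linarith
  · have hγ : γ ∈ W ∧ W.card + 2 ≤ τ γ := by
      push Not at hshort
      obtain ⟨g, hg, hgl⟩ := hshort
      have : g = γ := by
        by_contra hne
        have := hs g hg hne
        omega
      subst this
      exact ⟨hg, by omega⟩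
    obtain ⟨hγW, hγτ⟩ := hγ
    have hBB := hB hγW hγτ
    set n : ℚ := (τ γ : ℚ) with hn
    have hnw : w + 2 ≤ n := by rw [hwdef, hn]; exact_mod_cast hγτ
    have hn0 : 0 < n := by linarith
    have hnt : n ≤ 1 + ρ + t := by rw [hn]; exact_mod_cast ht γ hγW
    have hcard : ((W.erase γ).card : ℚ) = w - 1 := by
      rw [Finset.card_erase_of_mem hγW, Nat.cast_sub (by omega), hwdef, Nat.cast_one]
    have hsplit : (t : ℚ) = φ γ + ∑ g ∈ W.erase γ, (φ g : ℚ) := by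
      rw [hT, Finset.add_sum_erase W (fun g => (φ g : ℚ)) hγW]
    have hgen : ∀ b : ℚ, (∀ g ∈ W.erase γ,
        b + ((φ g : ℚ) / (a + 1)) / n ≤ (1 / (a : ℚ) + (φ g : ℚ) / (a + 1)) / τ g) →
        (w - 1) * b + (1 / a + t / (a + 1)) / n ≤
        ∑ g ∈ W, (1 / (a : ℚ) + (φ g : ℚ) / (a + 1)) / τ g := by
      intro b hb
      rw [← Finset.add_sum_erase W _ hγW]
      have h2 := Finset.sum_le_sum hb
      rw [Finset.sum_add_distrib, Finset.sum_const, nsmul_eq_mul, hcard, ← Finset.sum_div,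
        ← Finset.sum_div] at h2
      have h3 : (1 / a + (t : ℚ) / (a + 1)) / n = (1 / (a : ℚ) + (φ γ : ℚ) / (a + 1)) / n +
          (∑ g ∈ W.erase γ, (φ g : ℚ)) / (a + 1) / n := by
        rw [hsplit]; field_simp; ring
      linarith
    have hstep : ∀ g ∈ W.erase γ, ∀ c : ℚ, 0 < c → (τ g : ℚ) ≤ c → c ≤ n →
        1 / (a : ℚ) / c + ((φ g : ℚ) / (a + 1)) / n ≤
        (1 / (a : ℚ) + (φ g : ℚ) / (a + 1)) / τ g := by
      intro g hg c hc0 hgc hcn
      have hgW := Finset.mem_of_mem_erase hg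
      rw [add_div]
      apply add_le_add
      · exact div_le_div_of_nonneg_left (by positivity) (hτ0 g hgW) hgc
      · exact div_le_div_of_nonneg_left (hφ0 g) (hτ0 g hgW) (hgc.trans hcn)
    rcases hBB with hin | ⟨ha', hW2, hρ1, h⟩
    · have hb := hgen (1 / (a : ℚ) / (w + 1)) (fun g hg => hstep g hg (w + 1) (by linarith)
        (by
          rw [hwdef]
          exact_mod_cast hs g (Finset.mem_of_mem_erase hg) (Finset.ne_of_mem_erase hg))
        (by linarith))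
      refine le_trans ?_ hb
      -- `t` is at least `n - 1 - ρ`
      have h4 : (1 / a + (n - 1 - ρ) / (a + 1)) / n ≤ (1 / a + (t : ℚ) / (a + 1)) / n := by
        apply div_le_div_of_nonneg_right _ hn0.le
        have : (n - 1 - ρ) / (a + 1) ≤ (t : ℚ) / (a + 1) :=
          div_le_div_of_nonneg_right (by linarith) ha1.le
        linarith
      have h5 : (w - 1) * (1 / (a : ℚ) / (w + 1)) + (1 / a + (n - 1 - ρ) / (a + 1)) / n -
          1 / a = ((w - 1) * (a + 1) * n + (w + 1) - (w + 1) * (n + ρ * a)) /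
            (a * (a + 1) * (w + 1) * n) := by
        field_simp
        ring
      have h6 : (0 : ℚ) ≤ ((w - 1) * (a + 1) * n + (w + 1) - (w + 1) * (n + ρ * a)) /
            (a * (a + 1) * (w + 1) * n) := by
        apply div_nonneg (by linarith)
        have : (0 : ℚ) < w + 1 := by linarith
        positivity
      linarith
    · subst ha'
      have hw2 : w = 2 := by rw [hwdef, hW2]; norm_num
      have hb := hgen (1 / ((1 : ℕ) : ℚ) / 2) (fun g hg => hstep g hg 2 (by norm_num)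
        (by exact_mod_cast h g (Finset.mem_of_mem_erase hg) (Finset.ne_of_mem_erase hg))
        (by linarith))
      refine le_trans ?_ hb
      rw [hw2]
      have hρ1' : (ρ : ℚ) ≤ 1 := by exact_mod_cast hρ1
      have h4 : (1 : ℚ) / 2 ≤ (1 / ((1 : ℕ) : ℚ) + t / (((1 : ℕ) : ℚ) + 1)) / n := by
        rw [le_div_iff₀ hn0]
        push_cast
        linarith
      push_cast at h4 ⊢
      linarith

/-- POOR owners, at most one unowned row, at least three lines. -/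
theorem value_poor_one (W : Finset ι) (τ φ : ι → ℕ) (a ρ : ℕ) (F : ι → ℚ) (ha : 1 ≤ a)
    (hρ : ρ ≤ 1) (hw : 3 ≤ W.card) (γ : ι)
    (hF : ∀ g ∈ W, (φ g : ℚ) / (a + 1) ≤ F g) (h1 : ∀ g ∈ W, 1 ≤ τ g)
    (ht : ∀ g ∈ W, τ g ≤ 1 + ρ + ∑ g' ∈ W, φ g')
    (hs : ∀ g ∈ W, g ≠ γ → τ g ≤ W.card + 1) :
    (1 : ℚ) / a ≤ ∑ g ∈ W, (1 / a + F g) / τ g := by
  apply value_poor_rho W τ φ a ρ F ha (by omega) γ hF h1 ht hs
  · intro _
    rcases Nat.lt_or_ge (∑ g' ∈ W, φ g') 2 with h | h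
    · interval_cases h2 : ∑ g' ∈ W, φ g'
      · right; right; exact ⟨rfl, by omega⟩
      · right; left; exact ⟨rfl, by omega⟩
    · left; exact h
  · intro _ hn
    left
    have haQ : (1 : ℚ) ≤ a := by exact_mod_cast ha
    have hwQ : (3 : ℚ) ≤ W.card := by exact_mod_cast hw
    have hnQ : (W.card : ℚ) + 2 ≤ τ γ := by exact_mod_cast hn
    have hρQ : (ρ : ℚ) ≤ 1 := by exact_mod_cast hρ
    have hρ0 : (0 : ℚ) ≤ ρ := by positivity
    set w : ℚ := (W.card : ℚ)
    set n : ℚ := (τ γ : ℚ)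
    -- `(w - 1)(a + 1) n + (w + 1) - (w + 1)(n + a) = n (w a - a - 2) - (w + 1)(a - 1)`
    have e1 : (w + 1) * (n + ρ * a) ≤ (w + 1) * (n + a) := by
      apply mul_le_mul_of_nonneg_left _ (by linarith)
      nlinarith
    have e2 : (w - 1) * (a + 1) * n + (w + 1) - (w + 1) * (n + a) =
        n * (w * a - a - 2) - (w + 1) * (a - 1) := by ring
    have e3 : (w + 2) * (w * a - a - 2) ≤ n * (w * a - a - 2) := by
      apply mul_le_mul_of_nonneg_right hnQ
      nlinarith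
    have e4 : (0 : ℚ) ≤ (w + 2) * (w * a - a - 2) - (w + 1) * (a - 1) := by
      have : (w + 2) * (w * a - a - 2) - (w + 1) * (a - 1) =
          (a - 1) * (w * w - 3) + ((w * w + w - 2) - (2 * w + 4)) + 0 := by ring
      rw [this]
      have h3 : (0 : ℚ) ≤ (a - 1) * (w * w - 3) := mul_nonneg (by linarith) (by nlinarith)
      nlinarith
    linarith

end Pool.Agent.Helper80.BP
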