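import Pool.Agent.Helper80.BP.VCore
import Pool.Agent.Helper80.BP.ValueRho

/-!
# The value of an owned row in a plane with unowned rows

`Z` is a finset of rows (as lattice elements) which contains every `c`-row of `H` which meets the
class `a` and has no owner.
-/

set_option autoImplicit false
set_option linter.unusedSectionVars false

namespace Pool.Agent.Helper80.BP

open Pool.Agent.Helper28.BPack Pool.Agent.Helper61.Motz Pool.Agent.Helper38.Thick

variable {L : Type} [Lattice L] [BoundedOrder L] [Finite L] [IsUpperModularLattice L]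
  [DecidableEq L] [DecidableRel (α := L) (· ≤ ·)]
  {A N : Finset L} {u : L} {own : L → Finset L} {cls : L → ℕ}

/-- Class `a` points of a line of the pencil, off the row: at most as many as owners and
unowned rows. -/
theorem card_le_EE_rho (S : SC A N u own cls) {x c H g : L} (P : Pl A u x c H) {a : ℕ}
    (hg : g ∈ pen A x (x ⊔ c) H)
    (ha1 : ∀ y ∈ N, y ≤ H → a ≤ cls y) (Z : Finset L)
    (hown : ∀ y ∈ N, y ≤ H → ¬ y ≤ x ⊔ c → cls y = a →
      (∃ v ∈ N, c ∈ own v ∧ v ⊔ c = y ⊔ c) ∨ y ⊔ c ∈ Z)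
    (Y : Finset L) (hY : ∀ y ∈ Y, y ∈ N ∧ y ≤ g ∧ ¬ y ≤ x ⊔ c ∧ cls y = a) :
    Y.card ≤ (EE N own cls x c H a).card + Z.card := by
  classical
  obtain ⟨h1, h2, h3, h4, h5⟩ := Pool.Agent.Helper38.SC.pen_spec S.at_ P.xA P.cA P.xc P.rH
    P.le hg
  set Y1 := Y.filter (fun y => ∃ v ∈ N, c ∈ own v ∧ v ⊔ c = y ⊔ c) with hY1
  set Y2 := Y.filter (fun y => ¬ ∃ v ∈ N, c ∈ own v ∧ v ⊔ c = y ⊔ c) with hY2
  have hyc : ∀ y ∈ N, y ≠ c := fun y hy h => S.off y hy (h ▸ P.cu)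
  have hinj : ∀ y ∈ Y, ∀ y' ∈ Y, y ⊔ c = y' ⊔ c → y = y' := by
    intro y hy y' hy' e1
    obtain ⟨k1, k2, k3, k4⟩ := hY y hy
    obtain ⟨k1', k2', k3', k4'⟩ := hY y' hy'
    by_contra hne
    have hr : rk (y ⊔ c) = 2 := rk_line (S.at_ y (S.mem y k1)) (S.at_ c P.cA) (hyc y k1)
    have e2 := line_eq (S.at_ y (S.mem y k1)) (S.at_ y' (S.mem y' k1')) hne k2 k2' h1
    have e3 := line_eq (S.at_ y (S.mem y k1)) (S.at_ y' (S.mem y' k1')) hne
      (le_sup_left : y ≤ y ⊔ c) (e1 ▸ le_sup_left) hr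
    exact h4 ((le_sup_right : c ≤ y ⊔ c).trans (e3.symm.trans e2).le)
  have c1 : Y1.card ≤ (EE N own cls x c H a).card := by
    have hch : ∀ y, ∃ v, y ∈ Y1 → v ∈ N ∧ c ∈ own v ∧ v ⊔ c = y ⊔ c := by
      intro y
      by_cases hy : y ∈ Y1
      · obtain ⟨v, hv1, hv2, hv3⟩ := (Finset.mem_filter.mp hy).2
        exact ⟨v, fun _ => ⟨hv1, hv2, hv3⟩⟩
      · exact ⟨⊥, fun h => absurd h hy⟩
    choose f hf using hch
    apply Finset.card_le_card_of_injOn f
    · intro y hy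
      rw [Finset.mem_coe] at hy
      obtain ⟨k1, k2, k3, k4⟩ := hY y (Finset.mem_filter.mp hy).1
      obtain ⟨v1, v2, v3⟩ := hf y hy
      have hvy : f y ≤ y ⊔ c := v3 ▸ le_sup_left
      have hvH : f y ≤ H := hvy.trans (sup_le (k2.trans h3) P.ch)
      have hyv : y ≤ f y ⊔ c := v3 ▸ le_sup_left
      rw [Finset.mem_coe, mem_EE]
      refine ⟨v1, hvH, ?_, ?_, v2⟩
      · intro hcon
        have e1 : f y ⊔ c ≤ x ⊔ c := sup_le hcon le_sup_right
        exact k3 (hyv.trans e1)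
      · have l1 := S.low _ v1 c v2 y k1 hyv
        have l2 := ha1 _ v1 hvH
        omega
    · intro y hy y' hy' e
      rw [Finset.mem_coe] at hy hy'
      apply hinj y (Finset.mem_filter.mp hy).1 y' (Finset.mem_filter.mp hy').1
      rw [← (hf y hy).2.2, ← (hf y' hy').2.2]
      exact congrArg (· ⊔ c) e
  have c2 : Y2.card ≤ Z.card := by
    apply Finset.card_le_card_of_injOn (fun y => y ⊔ c)
    · intro y hy
      rw [Finset.mem_coe] at hy
      obtain ⟨hyY, hyn⟩ := Finset.mem_filter.mp hy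
      obtain ⟨k1, k2, k3, k4⟩ := hY y hyY
      rcases hown y k1 (k2.trans h3) k3 k4 with h | h
      · exact absurd h hyn
      · exact h
    · intro y hy y' hy' e
      rw [Finset.mem_coe] at hy hy'
      exact hinj y (Finset.mem_filter.mp hy).1 y' (Finset.mem_filter.mp hy').1 e
  have c3 := Finset.card_filter_add_card_filter_not (s := Y)
    (fun y => ∃ v ∈ N, c ∈ own v ∧ v ⊔ c = y ⊔ c)
  have c4 : Y1.card + Y2.card = Y.card := c3
  omega

/-- The sum of the shares for a point of the lowest class which owns its row, with unowned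
rows `Z`. -/
theorem core_sum_rho (S : SC A N u own cls) {x c H : L} (P : Pl A u x c H) (hxN : x ∈ N)
    (hcx : c ∈ own x) (ha1 : ∀ y ∈ N, y ≤ H → cls x ≤ cls y) (Z : Finset L)
    (hown : ∀ y ∈ N, y ≤ H → ¬ y ≤ x ⊔ c → cls y = cls x →
      (∃ v ∈ N, c ∈ own v ∧ v ⊔ c = y ⊔ c) ∨ y ⊔ c ∈ Z) :
    (∀ g ∈ pen A x (x ⊔ c) H, 1 ≤ (TT N cls g).card ∧
      (TT N cls g).card ≤ 1 + Z.card + ∑ g' ∈ pen A x (x ⊔ c) H,
        ((EE N own cls x c H (cls x)).filter (· ≤ g')).card) ∧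
    ∑ g ∈ pen A x (x ⊔ c) H, sig N own cls c g =
      ∑ g ∈ pen A x (x ⊔ c) H, ((1 : ℚ) / (own x).card + FF N own cls x c H (cls x) g) /
        (TT N cls g).card := by
  classical
  have hspec : ∀ g ∈ pen A x (x ⊔ c) H, rk g = 2 ∧ x ≤ g ∧ g ≤ H ∧ ¬ c ≤ g ∧ g ⊔ c = H :=
    fun g hg => Pool.Agent.Helper38.SC.pen_spec S.at_ P.xA P.cA P.xc P.rH P.le hg
  have hT : ∀ g ∈ pen A x (x ⊔ c) H, ∀ v, v ∈ TT N cls g ↔ v ∈ N ∧ v ≤ g ∧ cls v = cls x := by
    intro g hg v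
    rw [mem_TT]
    constructor
    · rintro ⟨h1, h2, h3⟩
      have h4 := h3 x hxN (hspec g hg).2.1
      have h5 := ha1 v h1 (h2.trans (hspec g hg).2.2.1)
      exact ⟨h1, h2, by omega⟩
    · rintro ⟨h1, h2, h3⟩
      exact ⟨h1, h2, fun z hz hzg => by
        rw [h3]; exact ha1 z hz (hzg.trans (hspec g hg).2.2.1)⟩
  have hxT : ∀ g ∈ pen A x (x ⊔ c) H, x ∈ TT N cls g := fun g hg =>
    (hT g hg x).mpr ⟨hxN, (hspec g hg).2.1, rfl⟩
  refine ⟨fun g hg => ⟨Finset.card_pos.mpr ⟨x, hxT g hg⟩, ?_⟩, ?_⟩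
  · rw [sum_card_EE S P]
    have h1 : ((TT N cls g).erase x).card ≤
        (EE N own cls x c H (cls x)).card + Z.card := by
      apply card_le_EE_rho S P hg ha1 Z hown
      intro y hy
      obtain ⟨k1, k2⟩ := Finset.mem_erase.mp hy
      obtain ⟨k3, k4, k5⟩ := (hT g hg y).mp k2
      exact ⟨k3, k4, off_row S P hg (S.mem y k3) k1 k4, k5⟩
    rw [Finset.card_erase_of_mem (hxT g hg)] at h1
    omega
  · apply Finset.sum_congr rfl
    intro g hg
    have h2 : (1 : ℚ) / (own x).card + FF N own cls x c H (cls x) g =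
        ∑ v ∈ TT N cls g, if c ∈ own v then (1 : ℚ) / (own v).card else 0 := by
      rw [← Finset.add_sum_erase _ _ (hxT g hg), if_pos hcx]
      congr 1
      rw [← Finset.sum_filter]
      apply Finset.sum_congr
      · ext v
        rw [Finset.mem_filter, Finset.mem_filter, Finset.mem_erase, hT g hg, mem_EE]
        constructor
        · rintro ⟨⟨k1, k2, k3, k4, k5⟩, k6⟩
          exact ⟨⟨fun h => k3 (h ▸ le_sup_left), k1, k6, k4⟩, k5⟩
        · rintro ⟨⟨k0, k1, k2, k3⟩, k4⟩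
          exact ⟨⟨k1, k2.trans (hspec g hg).2.2.1, off_row S P hg (S.mem v k1) k0 k2, k3, k4⟩,
            k2⟩
      · intros; rfl
    rw [h2]
    rfl

/-- RICH owners, `card Z + 1 ≤ w`. -/
theorem val_rich_rho (S : SC A N u own cls) {x c H : L} (P : Pl A u x c H) (hxN : x ∈ N)
    (hcx : c ∈ own x) (ha1 : ∀ y ∈ N, y ≤ H → cls x ≤ cls y) (Z : Finset L)
    (hown : ∀ y ∈ N, y ≤ H → ¬ y ≤ x ⊔ c → cls y = cls x →
      (∃ v ∈ N, c ∈ own v ∧ v ⊔ c = y ⊔ c) ∨ y ⊔ c ∈ Z)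
    (hrich : (own x).card = cls x + 1) (hw : Z.card + 1 ≤ (pen A x (x ⊔ c) H).card) :
    (1 : ℚ) / (own x).card ≤ ∑ g ∈ pen A x (x ⊔ c) H, sig N own cls c g := by
  obtain ⟨h1, h2⟩ := core_sum_rho S P hxN hcx ha1 Z hown
  rw [h2, hrich]
  push_cast
  exact value_rich_rho _ (fun g => (TT N cls g).card)
    (fun g => ((EE N own cls x c H (cls x)).filter (· ≤ g)).card) (cls x) Z.card
    (FF N own cls x c H (cls x)) hw (fun g _ => FF_ge S g) (fun g hg => (h1 g hg).1)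
    (fun g hg => (h1 g hg).2)

/-- RICH owners without long line: an owned fellow row is enough. -/
theorem val_rich_short (S : SC A N u own cls) {x c H : L} (P : Pl A u x c H) (hxN : x ∈ N)
    (hcx : c ∈ own x) (ha1 : ∀ y ∈ N, y ≤ H → cls x ≤ cls y) (Z : Finset L)
    (hown : ∀ y ∈ N, y ≤ H → ¬ y ≤ x ⊔ c → cls y = cls x →
      (∃ v ∈ N, c ∈ own v ∧ v ⊔ c = y ⊔ c) ∨ y ⊔ c ∈ Z)
    (hrich : (own x).card = cls x + 1)
    (hs : ∀ g ∈ pen A x (x ⊔ c) H, (TT N cls g).card ≤ (pen A x (x ⊔ c) H).card + 1)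
    (ht : (EE N own cls x c H (cls x)).Nonempty) :
    (1 : ℚ) / (own x).card ≤ ∑ g ∈ pen A x (x ⊔ c) H, sig N own cls c g := by
  obtain ⟨h1, h2⟩ := core_sum_rho S P hxN hcx ha1 Z hown
  rw [h2, hrich]
  push_cast
  refine value_rich_short _ (fun g => (TT N cls g).card)
    (fun g => ((EE N own cls x c H (cls x)).filter (· ≤ g)).card) (cls x)
    (FF N own cls x c H (cls x)) (fun g _ => FF_ge S g) (fun g hg => (h1 g hg).1) hs ?_
  rw [sum_card_EE S P]
  exact Finset.card_pos.mpr ht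

/-- POOR owners, general form.  `t` is the number of owned fellow rows. -/
theorem val_poor_rho (S : SC A N u own cls) {x c H : L} (P : Pl A u x c H) (hxN : x ∈ N)
    (hcx : c ∈ own x) (ha1 : ∀ y ∈ N, y ≤ H → cls x ≤ cls y) (Z : Finset L)
    (hown : ∀ y ∈ N, y ≤ H → ¬ y ≤ x ⊔ c → cls y = cls x →
      (∃ v ∈ N, c ∈ own v ∧ v ⊔ c = y ⊔ c) ∨ y ⊔ c ∈ Z)
    (hpoor : (own x).card = cls x) (hw : 1 ≤ (pen A x (x ⊔ c) H).card) (γ : L)
    (hs : ∀ g ∈ pen A x (x ⊔ c) H, g ≠ γ →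
      (TT N cls g).card ≤ (pen A x (x ⊔ c) H).card + 1)
    (hA : (∀ g ∈ pen A x (x ⊔ c) H, (TT N cls g).card ≤ (pen A x (x ⊔ c) H).card + 1) →
      2 ≤ (EE N own cls x c H (cls x)).card ∨
      ((EE N own cls x c H (cls x)).card = 1 ∧ Z.card + 2 ≤ (pen A x (x ⊔ c) H).card) ∨
      ((EE N own cls x c H (cls x)).card = 0 ∧ Z.card + 1 ≤ (pen A x (x ⊔ c) H).card))
    (hB : γ ∈ pen A x (x ⊔ c) H → (pen A x (x ⊔ c) H).card + 2 ≤ (TT N cls γ).card →
      (((pen A x (x ⊔ c) H).card : ℚ) + 1) * ((TT N cls γ).card + Z.card * cls x) ≤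
        ((pen A x (x ⊔ c) H).card - 1) * (cls x + 1) * (TT N cls γ).card +
          ((pen A x (x ⊔ c) H).card + 1) ∨
      (cls x = 1 ∧ (pen A x (x ⊔ c) H).card = 2 ∧ Z.card ≤ 1 ∧
        ∀ g ∈ pen A x (x ⊔ c) H, g ≠ γ → (TT N cls g).card ≤ 2)) :
    (1 : ℚ) / (own x).card ≤ ∑ g ∈ pen A x (x ⊔ c) H, sig N own cls c g := by
  obtain ⟨h1, h2⟩ := core_sum_rho S P hxN hcx ha1 Z hown
  rw [h2, hpoor]
  refine value_poor_rho _ (fun g => (TT N cls g).card)
    (fun g => ((EE N own cls x c H (cls x)).filter (· ≤ g)).card) (cls x) Z.card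
    (FF N own cls x c H (cls x)) (S.cls1 x hxN) hw γ (fun g _ => FF_ge S g)
    (fun g hg => (h1 g hg).1) (fun g hg => (h1 g hg).2) hs ?_ hB
  rw [sum_card_EE S P]
  exact hA

/-- POOR owners, at most one unowned row, at least three lines off the row. -/
theorem val_poor_one (S : SC A N u own cls) {x c H : L} (P : Pl A u x c H) (hxN : x ∈ N)
    (hcx : c ∈ own x) (ha1 : ∀ y ∈ N, y ≤ H → cls x ≤ cls y) (Z : Finset L)
    (hown : ∀ y ∈ N, y ≤ H → ¬ y ≤ x ⊔ c → cls y = cls x →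
      (∃ v ∈ N, c ∈ own v ∧ v ⊔ c = y ⊔ c) ∨ y ⊔ c ∈ Z) (hZ : Z.card ≤ 1)
    (hpoor : (own x).card = cls x) (hw : 3 ≤ (pen A x (x ⊔ c) H).card) (γ : L)
    (hs : ∀ g ∈ pen A x (x ⊔ c) H, g ≠ γ →
      (TT N cls g).card ≤ (pen A x (x ⊔ c) H).card + 1) :
    (1 : ℚ) / (own x).card ≤ ∑ g ∈ pen A x (x ⊔ c) H, sig N own cls c g := by
  obtain ⟨h1, h2⟩ := core_sum_rho S P hxN hcx ha1 Z hown
  rw [h2, hpoor]
  exact value_poor_one _ (fun g => (TT N cls g).card)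
    (fun g => ((EE N own cls x c H (cls x)).filter (· ≤ g)).card) (cls x) Z.card
    (FF N own cls x c H (cls x)) (S.cls1 x hxN) hZ hw γ (fun g _ => FF_ge S g)
    (fun g hg => (h1 g hg).1) (fun g hg => (h1 g hg).2) hs

/-- The lowest class points of a line are at most its points. -/
theorem card_TT_le (S : SC A N u own cls) (g : L) :
    (TT N cls g).card ≤ (A.filter (· ≤ g)).card := by
  apply Finset.card_le_card
  intro v hv
  obtain ⟨h1, h2, -⟩ := mem_TT.mp hv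
  exact Finset.mem_filter.mpr ⟨S.mem v h1, h2⟩

end Pool.Agent.Helper80.BP
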