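import Pool.Agent.Helper80.BP.VE

/-!
# The value of an owned row, ranks inside the classes

The class of a user `v` is a natural number `cls v` with `|cls v - 2 * card (own v)| ≤ 1`.  The
rank `rr v` refines the class, but only inside the even classes (where all loads are equal).  A
row is owned by a user whose rank is at most the ranks of the users on the row.  Only the points
of lowest rank of a line share it.
-/

set_option autoImplicit false
set_option linter.unusedSectionVars false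

namespace Pool.Agent.Helper80.BP.R

open Pool.Agent.Helper28.BPack Pool.Agent.Helper61.Motz Pool.Agent.Helper38.Thick
open Pool.Agent.Helper80.BP
open Pool.Agent.Helper80.BP.D (value_super value_rich_gen)
open Pool.Agent.Helper80.BP.E (value_c2 SE)

variable {L : Type} [Lattice L] [BoundedOrder L] [Finite L] [IsUpperModularLattice L]

/-- Ownership of rows with classes and ranks.  `N` is the set of participants, `own v` the set
of colours of the rows owned by `v`. -/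
structure SR (A N : Finset L) (u : L) (own : L → Finset L) (cls rr : L → ℕ) : Prop where
  at_ : ∀ a ∈ A, IsAtom a
  ru : rk u = 2
  mem : ∀ v ∈ N, v ∈ A
  off : ∀ v ∈ N, ¬ v ≤ u
  ownA : ∀ v ∈ N, ∀ c ∈ own v, c ∈ A ∧ c ≤ u
  uniq : ∀ v ∈ N, ∀ v' ∈ N, ∀ c ∈ own v, c ∈ own v' → v ⊔ c = v' ⊔ c → v = v'
  low : ∀ v ∈ N, ∀ c ∈ own v, ∀ y ∈ N, y ≤ v ⊔ c → rr v ≤ rr y
  own1 : ∀ v ∈ N, 1 ≤ (own v).card
  lo : ∀ v ∈ N, cls v ≤ 2 * (own v).card + 1
  hi : ∀ v ∈ N, 2 * (own v).card ≤ cls v + 1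
  mono : ∀ v ∈ N, ∀ y ∈ N, rr v ≤ rr y → cls v ≤ cls y
  odd : ∀ v ∈ N, ∀ y ∈ N, cls v = cls y → ¬ Even (cls v) → rr v = rr y

/-- Classes without ranks. -/
theorem sr_of_se {A N : Finset L} {u : L} {own : L → Finset L} {cls : L → ℕ}
    (S : SE A N u own cls) : SR A N u own cls cls where
  at_ := S.at_
  ru := S.ru
  mem := S.mem
  off := S.off
  ownA := S.ownA
  uniq := S.uniq
  low := S.low
  own1 := S.own1
  lo := S.lo
  hi := S.hi
  mono := fun _ _ _ _ h => h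
  odd := fun _ _ _ _ h _ => h

variable [DecidableEq L] [DecidableRel (α := L) (· ≤ ·)]

theorem sig_sum_le {A N : Finset L} {u : L} {own : L → Finset L} {cls rr : L → ℕ}
    (S : SR A N u own cls rr) (g : L) : ∑ c ∈ A.filter (· ≤ u), sig N own rr c g ≤ 1 := by
  have h1 : ∑ c ∈ A.filter (· ≤ u), sig N own rr c g =
      (∑ v ∈ TT N rr g, ∑ c ∈ A.filter (· ≤ u),
        if c ∈ own v then (1 : ℚ) / (own v).card else 0) / (TT N rr g).card := by
    rw [Finset.sum_comm, Finset.sum_div]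
    rfl
  have h2 : ∀ v ∈ TT N rr g, (∑ c ∈ A.filter (· ≤ u),
      if c ∈ own v then (1 : ℚ) / (own v).card else 0) ≤ 1 := by
    intro v hv
    have hvN := (mem_TT.mp hv).1
    rw [← Finset.sum_filter]
    have h3 : (A.filter (· ≤ u)).filter (fun c => c ∈ own v) = own v := by
      ext c
      rw [Finset.mem_filter, Finset.mem_filter]
      exact ⟨fun h => h.2, fun h => ⟨S.ownA v hvN c h, h⟩⟩
    rw [h3, Finset.sum_const, nsmul_eq_mul]
    have h4 : (0 : ℚ) < (own v).card := by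
      have := S.own1 v hvN
      have : 0 < (own v).card := by omega
      exact_mod_cast this
    rw [mul_one_div_cancel h4.ne']
  rw [h1]
  rcases (TT N rr g).eq_empty_or_nonempty with h0 | h0
  · rw [h0]
    simp
  · have h5 : (0 : ℚ) < (TT N rr g).card := by exact_mod_cast h0.card_pos
    rw [div_le_one h5]
    refine (Finset.sum_le_sum h2).trans ?_
    simp


variable {A N : Finset L} {u : L} {own : L → Finset L} {cls rr : L → ℕ}

theorem line_uniq (S : SR A N u own cls rr) {x c H v g : L} (P : Pl A u x c H) (hv : v ∈ A)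
    (hvk : ¬ v ≤ x ⊔ c) (hg : g ∈ pen A x (x ⊔ c) H) : v ≤ g ↔ x ⊔ v = g := by
  obtain ⟨h1, h2, h3, h4, h5⟩ := Pool.Agent.Helper38.SC.pen_spec S.at_ P.xA P.cA P.xc P.rH
    P.le hg
  have hxv : x ≠ v := fun h => hvk (h ▸ le_sup_left)
  constructor
  · intro h
    exact line_eq (S.at_ x P.xA) (S.at_ v hv) hxv h2 h h1
  · intro h
    exact h ▸ le_sup_right

theorem sum_card_EE (S : SR A N u own cls rr) {x c H : L} (P : Pl A u x c H) (a : ℕ) :
    ∑ g ∈ pen A x (x ⊔ c) H, ((EE N own rr x c H a).filter (· ≤ g)).card =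
      (EE N own rr x c H a).card := by
  have h1 : ∀ v ∈ EE N own rr x c H a, x ⊔ v ∈ pen A x (x ⊔ c) H := fun v hv => by
    obtain ⟨h1, h2, h3, -⟩ := mem_EE.mp hv
    exact line_mem (S.mem v h1) h2 h3
  rw [Finset.card_eq_sum_card_fiberwise h1]
  apply Finset.sum_congr rfl
  intro g hg
  congr 1
  apply Finset.filter_congr
  intro v hv
  obtain ⟨h2, h3, h4, -⟩ := mem_EE.mp hv
  exact line_uniq S P (S.mem v h2) h4 hg

/-- Class `a` points of a line of the pencil, off the row: at most as many as owners. -/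
theorem card_le_EE (S : SR A N u own cls rr) {x c H g : L} (P : Pl A u x c H) {a : ℕ}
    (hg : g ∈ pen A x (x ⊔ c) H)
    (ha1 : ∀ y ∈ N, y ≤ H → a ≤ rr y)
    (hown : ∀ y ∈ N, y ≤ H → rr y = a → ∃ v ∈ N, c ∈ own v ∧ v ⊔ c = y ⊔ c)
    (Y : Finset L) (hY : ∀ y ∈ Y, y ∈ N ∧ y ≤ g ∧ ¬ y ≤ x ⊔ c ∧ rr y = a) :
    Y.card ≤ (EE N own rr x c H a).card := by
  obtain ⟨h1, h2, h3, h4, h5⟩ := Pool.Agent.Helper38.SC.pen_spec S.at_ P.xA P.cA P.xc P.rH
    P.le hg
  have hch : ∀ y, ∃ v, y ∈ Y → v ∈ N ∧ c ∈ own v ∧ v ⊔ c = y ⊔ c := by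
    intro y
    by_cases hy : y ∈ Y
    · obtain ⟨k1, k2, k3, k4⟩ := hY y hy
      obtain ⟨v, hv1, hv2, hv3⟩ := hown y k1 (k2.trans h3) k4
      exact ⟨v, fun _ => ⟨hv1, hv2, hv3⟩⟩
    · exact ⟨⊥, fun h => absurd h hy⟩
  choose f hf using hch
  have hyc : ∀ y ∈ N, y ≠ c := fun y hy h => S.off y hy (h ▸ P.cu)
  apply Finset.card_le_card_of_injOn f
  · intro y hy
    rw [Finset.mem_coe] at hy
    obtain ⟨k1, k2, k3, k4⟩ := hY y hy
    obtain ⟨v1, v2, v3⟩ := hf y hy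
    have hvy : f y ≤ y ⊔ c := v3 ▸ le_sup_left
    have hvH : f y ≤ H := hvy.trans (sup_le (k2.trans h3) P.ch)
    have hyv : y ≤ f y ⊔ c := v3 ▸ le_sup_left
    rw [Finset.mem_coe, mem_EE]
    refine ⟨v1, hvH, ?_, ?_, v2⟩
    · intro hcon
      have e1 : f y ⊔ c ≤ x ⊔ c := sup_le hcon le_sup_right
      exact k3 (hyv.trans e1)
    · have l1 := S.low _ v1 c v2 y k1 hyv
      have l2 := ha1 _ v1 hvH
      omega
  · intro y hy y' hy' e
    rw [Finset.mem_coe] at hy hy'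
    obtain ⟨k1, k2, k3, k4⟩ := hY y hy
    obtain ⟨k1', k2', k3', k4'⟩ := hY y' hy'
    by_contra hne
    have e1 : y ⊔ c = y' ⊔ c := by
      rw [← (hf y hy).2.2, ← (hf y' hy').2.2]
      exact congrArg (· ⊔ c) e
    have hr : rk (y ⊔ c) = 2 := rk_line (S.at_ y (S.mem y k1)) (S.at_ c P.cA) (hyc y k1)
    have e2 := line_eq (S.at_ y (S.mem y k1)) (S.at_ y' (S.mem y' k1')) hne k2 k2' h1
    have e3 := line_eq (S.at_ y (S.mem y k1)) (S.at_ y' (S.mem y' k1')) hne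
      (le_sup_left : y ≤ y ⊔ c) (e1 ▸ le_sup_left) hr
    exact h4 ((le_sup_right : c ≤ y ⊔ c).trans (e3.symm.trans e2).le)

/-- The points of a line of the pencil, other than `x`, are off the row. -/
theorem off_row (S : SR A N u own cls rr) {x c H g : L} (P : Pl A u x c H)
    (hg : g ∈ pen A x (x ⊔ c) H) {y : L} (hy : y ∈ A) (hyx : y ≠ x) (hyg : y ≤ g) :
    ¬ y ≤ x ⊔ c := by
  intro h
  obtain ⟨h1, h2, h3, h4, h5⟩ := Pool.Agent.Helper38.SC.pen_spec S.at_ P.xA P.cA P.xc P.rH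
    P.le hg
  have e1 := line_eq (S.at_ y hy) (S.at_ x P.xA) hyx hyg h2 h1
  have e2 := line_eq (S.at_ y hy) (S.at_ x P.xA) hyx h le_sup_left
    (rk_line (S.at_ x P.xA) (S.at_ c P.cA) P.xc)
  exact h4 ((le_sup_right : c ≤ x ⊔ c).trans (e2.symm.trans e1).le)

theorem FF_ge (S : SR A N u own cls rr) {x c H : L} {a m : ℕ}
    (hm : ∀ v ∈ N, rr v = a → cls v ≤ 2 * m + 2) (g : L) :
    (((EE N own rr x c H a).filter (· ≤ g)).card : ℚ) / (m + 1) ≤
      FF N own rr x c H a g := by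
  have h1 : (((EE N own rr x c H a).filter (· ≤ g)).card : ℚ) / (m + 1) =
      ∑ v ∈ (EE N own rr x c H a).filter (· ≤ g), (1 : ℚ) / (m + 1) := by
    rw [Finset.sum_const, nsmul_eq_mul]
    ring
  rw [h1]
  apply Finset.sum_le_sum
  intro v hv
  obtain ⟨h2, -, -, h3, -⟩ := mem_EE.mp (Finset.mem_filter.mp hv).1
  have h4 := S.lo v h2
  have h5 := S.hi v h2
  have h6 := S.own1 v h2
  have h7 := hm v h2 h3
  apply one_div_le_one_div_of_le
  · have : 0 < (own v).card := by omega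
    exact_mod_cast this
  · have : (own v).card ≤ m + 1 := by omega
    exact_mod_cast this

/-- GUESTS. -/
theorem val_guest_top (S : SR A N u own cls rr) {x c H : L} (P : Pl A u x c H) {a m : ℕ}
    (hm : ∀ v ∈ N, rr v = a → cls v ≤ 2 * m + 2)
    (ha1 : ∀ y ∈ N, y ≤ H → a ≤ rr y) (ha2 : ∃ y ∈ N, y ≤ H ∧ rr y = a)
    (hrow : ∀ y ∈ N, y ≤ x ⊔ c → a < rr y)
    (hown : ∀ y ∈ N, y ≤ H → rr y = a → ∃ v ∈ N, c ∈ own v ∧ v ⊔ c = y ⊔ c) :
    (1 : ℚ) / (m + 1) ≤ ∑ g ∈ pen A x (x ⊔ c) H, sig N own rr c g := by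
  classical
  set E := EE N own rr x c H a with hE
  set W := (pen A x (x ⊔ c) H).filter (fun g => ∃ y ∈ N, y ≤ g ∧ rr y = a) with hW
  have hWp : ∀ g ∈ W, g ∈ pen A x (x ⊔ c) H := fun g hg => (Finset.mem_filter.mp hg).1
  have hspec : ∀ g ∈ W, rk g = 2 ∧ x ≤ g ∧ g ≤ H ∧ ¬ c ≤ g ∧ g ⊔ c = H := fun g hg =>
    Pool.Agent.Helper38.SC.pen_spec S.at_ P.xA P.cA P.xc P.rH P.le (hWp g hg)
  -- the lowest class points of the lines of `W`
  have hT : ∀ g ∈ W, ∀ v, v ∈ TT N rr g ↔ v ∈ N ∧ v ≤ g ∧ rr v = a := by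
    intro g hg v
    obtain ⟨y, hy, hyg, hya⟩ := (Finset.mem_filter.mp hg).2
    rw [mem_TT]
    constructor
    · rintro ⟨h1, h2, h3⟩
      have h4 := h3 y hy hyg
      have h5 := ha1 v h1 (h2.trans (hspec g hg).2.2.1)
      exact ⟨h1, h2, by omega⟩
    · rintro ⟨h1, h2, h3⟩
      exact ⟨h1, h2, fun z hz hzg => by
        rw [h3]; exact ha1 z hz (hzg.trans (hspec g hg).2.2.1)⟩
  have hoff : ∀ v ∈ N, rr v = a → ¬ v ≤ x ⊔ c := fun v hv h1 h2 => by
    have := hrow v hv h2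
    omega
  have hsum : ∑ g ∈ W, (E.filter (· ≤ g)).card = E.card := by
    rw [hE, ← sum_card_EE S P a]
    apply Finset.sum_subset (Finset.filter_subset _ _)
    intro g hg hgW
    rw [Finset.card_eq_zero, Finset.filter_eq_empty_iff]
    intro v hv hvg
    obtain ⟨h1, h2, h3, h4, h5⟩ := mem_EE.mp hv
    exact hgW (Finset.mem_filter.mpr ⟨hg, v, h1, hvg, h4⟩)
  have hpos : 1 ≤ E.card := by
    obtain ⟨y, hy, hyH, hya⟩ := ha2
    obtain ⟨v, hv, hcv, hvy⟩ := hown y hy hyH hya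
    have hvle : v ≤ y ⊔ c := hvy ▸ le_sup_left
    have hyle : y ≤ v ⊔ c := hvy ▸ le_sup_left
    have hvH : v ≤ H := hvle.trans (sup_le hyH P.ch)
    have h1 := S.low v hv c hcv y hy hyle
    have h2 := ha1 v hv hvH
    have h3 : rr v = a := by omega
    exact Finset.card_pos.mpr ⟨v, mem_EE.mpr ⟨hv, hvH, hoff v hv h3, h3, hcv⟩⟩
  refine le_trans (value_guest W (fun g => (TT N rr g).card)
    (fun g => (E.filter (· ≤ g)).card) m (FF N own rr x c H a)
    (fun g _ => FF_ge S hm g) ?_ ?_ ?_) ?_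
  · intro g hg
    obtain ⟨y, hy, hyg, hya⟩ := (Finset.mem_filter.mp hg).2
    exact Finset.card_pos.mpr ⟨y, (hT g hg y).mpr ⟨hy, hyg, hya⟩⟩
  · intro g hg
    rw [hsum]
    apply card_le_EE S P (hWp g hg) ha1 hown
    intro y hy
    obtain ⟨h1, h2, h3⟩ := (hT g hg y).mp hy
    exact ⟨h1, h2, hoff y h1 h3, h3⟩
  · rw [hsum]
    exact hpos
  · have h1 : ∀ g ∈ W, FF N own rr x c H a g / ((TT N rr g).card : ℚ) =
        sig N own rr c g := by
      intro g hg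
      have h2 : FF N own rr x c H a g =
          ∑ v ∈ TT N rr g, if c ∈ own v then (1 : ℚ) / (own v).card else 0 := by
        rw [← Finset.sum_filter]
        apply Finset.sum_congr
        · ext v
          rw [Finset.mem_filter, Finset.mem_filter, hT g hg, mem_EE]
          constructor
          · rintro ⟨⟨k1, k2, k3, k4, k5⟩, k6⟩
            exact ⟨⟨k1, k6, k4⟩, k5⟩
          · rintro ⟨⟨k1, k2, k3⟩, k4⟩
            exact ⟨⟨k1, k2.trans (hspec g hg).2.2.1, hoff v k1 k3, k3, k4⟩, k2⟩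
        · intros; rfl
      rw [h2]
      rfl
    rw [Finset.sum_congr rfl h1]
    apply Finset.sum_le_sum_of_subset_of_nonneg (Finset.filter_subset _ _)
    intro g _ _
    exact sig_nonneg N own rr c g

/-- GUESTS: the user `x` gets the mass of its row. -/
theorem val_guest (S : SR A N u own cls rr) {x c H : L} (P : Pl A u x c H) (hxN : x ∈ N) {a : ℕ}
    (ha1 : ∀ y ∈ N, y ≤ H → a ≤ rr y) (ha2 : ∃ y ∈ N, y ≤ H ∧ rr y = a)
    (hrow : ∀ y ∈ N, y ≤ x ⊔ c → a < rr y)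
    (hown : ∀ y ∈ N, y ≤ H → rr y = a → ∃ v ∈ N, c ∈ own v ∧ v ⊔ c = y ⊔ c) :
    (1 : ℚ) / (own x).card ≤ ∑ g ∈ pen A x (x ⊔ c) H, sig N own rr c g := by
  have h1 := S.own1 x hxN
  have h2 := S.lo x hxN
  have h3 := hrow x hxN le_sup_left
  obtain ⟨m, hm⟩ : ∃ m, (own x).card = m + 1 := ⟨(own x).card - 1, by omega⟩
  rw [hm]
  push_cast
  refine val_guest_top S P ?_ ha1 ha2 hrow hown
  intro v hv hva
  have h4 := S.mono v hv x hxN (by omega)
  by_cases h5 : cls v = cls x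
  · by_cases h6 : Even (cls v)
    · obtain ⟨t, ht⟩ := h6
      omega
    · have := S.odd v hv x hxN h5 h6
      omega
  · omega

/-- Class `a` points of a line of the pencil, off the row: at most as many as owners and
unowned rows. -/
theorem card_le_EE_rho (S : SR A N u own cls rr) {x c H g : L} (P : Pl A u x c H) {a : ℕ}
    (hg : g ∈ pen A x (x ⊔ c) H)
    (ha1 : ∀ y ∈ N, y ≤ H → a ≤ rr y) (Z : Finset L)
    (hown : ∀ y ∈ N, y ≤ H → ¬ y ≤ x ⊔ c → rr y = a →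
      (∃ v ∈ N, c ∈ own v ∧ v ⊔ c = y ⊔ c) ∨ y ⊔ c ∈ Z)
    (Y : Finset L) (hY : ∀ y ∈ Y, y ∈ N ∧ y ≤ g ∧ ¬ y ≤ x ⊔ c ∧ rr y = a) :
    Y.card ≤ (EE N own rr x c H a).card + Z.card := by
  classical
  obtain ⟨h1, h2, h3, h4, h5⟩ := Pool.Agent.Helper38.SC.pen_spec S.at_ P.xA P.cA P.xc P.rH
    P.le hg
  set Y1 := Y.filter (fun y => ∃ v ∈ N, c ∈ own v ∧ v ⊔ c = y ⊔ c) with hY1
  set Y2 := Y.filter (fun y => ¬ ∃ v ∈ N, c ∈ own v ∧ v ⊔ c = y ⊔ c) with hY2
  have hyc : ∀ y ∈ N, y ≠ c := fun y hy h => S.off y hy (h ▸ P.cu)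
  have hinj : ∀ y ∈ Y, ∀ y' ∈ Y, y ⊔ c = y' ⊔ c → y = y' := by
    intro y hy y' hy' e1
    obtain ⟨k1, k2, k3, k4⟩ := hY y hy
    obtain ⟨k1', k2', k3', k4'⟩ := hY y' hy'
    by_contra hne
    have hr : rk (y ⊔ c) = 2 := rk_line (S.at_ y (S.mem y k1)) (S.at_ c P.cA) (hyc y k1)
    have e2 := line_eq (S.at_ y (S.mem y k1)) (S.at_ y' (S.mem y' k1')) hne k2 k2' h1
    have e3 := line_eq (S.at_ y (S.mem y k1)) (S.at_ y' (S.mem y' k1')) hne
      (le_sup_left : y ≤ y ⊔ c) (e1 ▸ le_sup_left) hr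
    exact h4 ((le_sup_right : c ≤ y ⊔ c).trans (e3.symm.trans e2).le)
  have c1 : Y1.card ≤ (EE N own rr x c H a).card := by
    have hch : ∀ y, ∃ v, y ∈ Y1 → v ∈ N ∧ c ∈ own v ∧ v ⊔ c = y ⊔ c := by
      intro y
      by_cases hy : y ∈ Y1
      · obtain ⟨v, hv1, hv2, hv3⟩ := (Finset.mem_filter.mp hy).2
        exact ⟨v, fun _ => ⟨hv1, hv2, hv3⟩⟩
      · exact ⟨⊥, fun h => absurd h hy⟩
    choose f hf using hch
    apply Finset.card_le_card_of_injOn f
    · intro y hy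
      rw [Finset.mem_coe] at hy
      obtain ⟨k1, k2, k3, k4⟩ := hY y (Finset.mem_filter.mp hy).1
      obtain ⟨v1, v2, v3⟩ := hf y hy
      have hvy : f y ≤ y ⊔ c := v3 ▸ le_sup_left
      have hvH : f y ≤ H := hvy.trans (sup_le (k2.trans h3) P.ch)
      have hyv : y ≤ f y ⊔ c := v3 ▸ le_sup_left
      rw [Finset.mem_coe, mem_EE]
      refine ⟨v1, hvH, ?_, ?_, v2⟩
      · intro hcon
        have e1 : f y ⊔ c ≤ x ⊔ c := sup_le hcon le_sup_right
        exact k3 (hyv.trans e1)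
      · have l1 := S.low _ v1 c v2 y k1 hyv
        have l2 := ha1 _ v1 hvH
        omega
    · intro y hy y' hy' e
      rw [Finset.mem_coe] at hy hy'
      apply hinj y (Finset.mem_filter.mp hy).1 y' (Finset.mem_filter.mp hy').1
      rw [← (hf y hy).2.2, ← (hf y' hy').2.2]
      exact congrArg (· ⊔ c) e
  have c2 : Y2.card ≤ Z.card := by
    apply Finset.card_le_card_of_injOn (fun y => y ⊔ c)
    · intro y hy
      rw [Finset.mem_coe] at hy
      obtain ⟨hyY, hyn⟩ := Finset.mem_filter.mp hy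
      obtain ⟨k1, k2, k3, k4⟩ := hY y hyY
      rcases hown y k1 (k2.trans h3) k3 k4 with h | h
      · exact absurd h hyn
      · exact h
    · intro y hy y' hy' e
      rw [Finset.mem_coe] at hy hy'
      exact hinj y (Finset.mem_filter.mp hy).1 y' (Finset.mem_filter.mp hy').1 e
  have c3 := Finset.card_filter_add_card_filter_not (s := Y)
    (fun y => ∃ v ∈ N, c ∈ own v ∧ v ⊔ c = y ⊔ c)
  have c4 : Y1.card + Y2.card = Y.card := c3
  omega

/-- The sum of the shares for a point of the lowest class which owns its row, with unowned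
rows `Z`. -/
theorem core_sum_rho (S : SR A N u own cls rr) {x c H : L} (P : Pl A u x c H) (hxN : x ∈ N)
    (hcx : c ∈ own x) (ha1 : ∀ y ∈ N, y ≤ H → rr x ≤ rr y) (Z : Finset L)
    (hown : ∀ y ∈ N, y ≤ H → ¬ y ≤ x ⊔ c → rr y = rr x →
      (∃ v ∈ N, c ∈ own v ∧ v ⊔ c = y ⊔ c) ∨ y ⊔ c ∈ Z) :
    (∀ g ∈ pen A x (x ⊔ c) H, 1 ≤ (TT N rr g).card ∧
      (TT N rr g).card ≤ 1 + Z.card + ∑ g' ∈ pen A x (x ⊔ c) H,
        ((EE N own rr x c H (rr x)).filter (· ≤ g')).card) ∧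
    ∑ g ∈ pen A x (x ⊔ c) H, sig N own rr c g =
      ∑ g ∈ pen A x (x ⊔ c) H, ((1 : ℚ) / (own x).card + FF N own rr x c H (rr x) g) /
        (TT N rr g).card := by
  classical
  have hspec : ∀ g ∈ pen A x (x ⊔ c) H, rk g = 2 ∧ x ≤ g ∧ g ≤ H ∧ ¬ c ≤ g ∧ g ⊔ c = H :=
    fun g hg => Pool.Agent.Helper38.SC.pen_spec S.at_ P.xA P.cA P.xc P.rH P.le hg
  have hT : ∀ g ∈ pen A x (x ⊔ c) H, ∀ v, v ∈ TT N rr g ↔ v ∈ N ∧ v ≤ g ∧ rr v = rr x := by
    intro g hg v
    rw [mem_TT]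
    constructor
    · rintro ⟨h1, h2, h3⟩
      have h4 := h3 x hxN (hspec g hg).2.1
      have h5 := ha1 v h1 (h2.trans (hspec g hg).2.2.1)
      exact ⟨h1, h2, by omega⟩
    · rintro ⟨h1, h2, h3⟩
      exact ⟨h1, h2, fun z hz hzg => by
        rw [h3]; exact ha1 z hz (hzg.trans (hspec g hg).2.2.1)⟩
  have hxT : ∀ g ∈ pen A x (x ⊔ c) H, x ∈ TT N rr g := fun g hg =>
    (hT g hg x).mpr ⟨hxN, (hspec g hg).2.1, rfl⟩
  refine ⟨fun g hg => ⟨Finset.card_pos.mpr ⟨x, hxT g hg⟩, ?_⟩, ?_⟩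
  · rw [sum_card_EE S P]
    have h1 : ((TT N rr g).erase x).card ≤
        (EE N own rr x c H (rr x)).card + Z.card := by
      apply card_le_EE_rho S P hg ha1 Z hown
      intro y hy
      obtain ⟨k1, k2⟩ := Finset.mem_erase.mp hy
      obtain ⟨k3, k4, k5⟩ := (hT g hg y).mp k2
      exact ⟨k3, k4, off_row S P hg (S.mem y k3) k1 k4, k5⟩
    rw [Finset.card_erase_of_mem (hxT g hg)] at h1
    omega
  · apply Finset.sum_congr rfl
    intro g hg
    have h2 : (1 : ℚ) / (own x).card + FF N own rr x c H (rr x) g =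
        ∑ v ∈ TT N rr g, if c ∈ own v then (1 : ℚ) / (own v).card else 0 := by
      rw [← Finset.add_sum_erase _ _ (hxT g hg), if_pos hcx]
      congr 1
      rw [← Finset.sum_filter]
      apply Finset.sum_congr
      · ext v
        rw [Finset.mem_filter, Finset.mem_filter, Finset.mem_erase, hT g hg, mem_EE]
        constructor
        · rintro ⟨⟨k1, k2, k3, k4, k5⟩, k6⟩
          exact ⟨⟨fun h => k3 (h ▸ le_sup_left), k1, k6, k4⟩, k5⟩
        · rintro ⟨⟨k0, k1, k2, k3⟩, k4⟩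
          exact ⟨⟨k1, k2.trans (hspec g hg).2.2.1, off_row S P hg (S.mem v k1) k0 k2, k3, k4⟩,
            k2⟩
      · intros; rfl
    rw [h2]
    rfl

/-- The sum of the shares for a point of the lowest class which owns its row. -/
theorem core_eq (S : SR A N u own cls rr) {x c H : L} (P : Pl A u x c H) (hxN : x ∈ N)
    (hcx : c ∈ own x) (ha1 : ∀ y ∈ N, y ≤ H → rr x ≤ rr y) :
    ∑ g ∈ pen A x (x ⊔ c) H, sig N own rr c g =
      ∑ g ∈ pen A x (x ⊔ c) H, ((1 : ℚ) / (own x).card + FF N own rr x c H (rr x) g) /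
        (TT N rr g).card := by
  classical
  refine (core_sum_rho S P hxN hcx ha1 ((A.filter (· ≤ H)).image (· ⊔ c)) ?_).2
  intro y hy hyH _ _
  exact Or.inr (Finset.mem_image.mpr ⟨y, Finset.mem_filter.mpr ⟨S.mem y hy, hyH⟩, rfl⟩)

theorem core_pos (S : SR A N u own cls rr) {x c H : L} (P : Pl A u x c H) (hxN : x ∈ N)
    (ha1 : ∀ y ∈ N, y ≤ H → rr x ≤ rr y) :
    ∀ g ∈ pen A x (x ⊔ c) H, 1 ≤ (TT N rr g).card := by
  intro g hg
  obtain ⟨h1, h2, h3, h4, h5⟩ := Pool.Agent.Helper38.SC.pen_spec S.at_ P.xA P.cA P.xc P.rH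
    P.le hg
  exact Finset.card_pos.mpr ⟨x, mem_TT.mpr ⟨hxN, h2, fun y hy hyg => ha1 y hy (hyg.trans h3)⟩⟩

/-- RICH owners (all users of an even class are rich): every line of the pencil has at most
`w + t` lowest class points, where `t` is the number of owned fellow rows. -/
theorem val_rich_gen (S : SR A N u own cls rr) {x c H : L} (P : Pl A u x c H) (hxN : x ∈ N)
    (hcx : c ∈ own x) (ha1 : ∀ y ∈ N, y ≤ H → rr x ≤ rr y)
    (hrich : cls x ≤ 2 * (own x).card) (hw : 1 ≤ (pen A x (x ⊔ c) H).card)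
    (hs : ∀ g ∈ pen A x (x ⊔ c) H, (TT N rr g).card ≤
      (pen A x (x ⊔ c) H).card + (EE N own rr x c H (rr x)).card) :
    (1 : ℚ) / (own x).card ≤ ∑ g ∈ pen A x (x ⊔ c) H, sig N own rr c g := by
  have h0 := core_pos S P hxN ha1
  have h1 := S.own1 x hxN
  obtain ⟨m, hm⟩ : ∃ m, (own x).card = m + 1 := ⟨(own x).card - 1, by omega⟩
  rw [core_eq S P hxN hcx ha1, hm]
  push_cast
  refine value_rich_gen _ (fun g => (TT N rr g).card)
    (fun g => ((EE N own rr x c H (rr x)).filter (· ≤ g)).card) m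
    (FF N own rr x c H (rr x)) hw (fun g _ => FF_ge S (fun v hv e => by have := S.mono v hv x hxN e.le; omega) g) h0 ?_
  rw [sum_card_EE S P]
  exact hs

/-- ALL owners (lowest class): every line of the pencil has at most `w` lowest class points. -/
theorem val_super (S : SR A N u own cls rr) {x c H : L} (P : Pl A u x c H) (hxN : x ∈ N)
    (hcx : c ∈ own x) (ha1 : ∀ y ∈ N, y ≤ H → rr x ≤ rr y)
    (hw : 1 ≤ (pen A x (x ⊔ c) H).card)
    (hs : ∀ g ∈ pen A x (x ⊔ c) H, (TT N rr g).card ≤ (pen A x (x ⊔ c) H).card) :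
    (1 : ℚ) / (own x).card ≤ ∑ g ∈ pen A x (x ⊔ c) H, sig N own rr c g := by
  rw [core_eq S P hxN hcx ha1]
  exact value_super _ (fun g => (TT N rr g).card) ((1 : ℚ) / (own x).card)
    (FF N own rr x c H (rr x)) (by positivity) hw
    (fun g _ => Finset.sum_nonneg (fun v _ => by positivity)) (core_pos S P hxN ha1) hs

/-- RICH owners, `card Z + 1 ≤ w`. -/
theorem val_rich_rho (S : SR A N u own cls rr) {x c H : L} (P : Pl A u x c H) (hxN : x ∈ N)
    (hcx : c ∈ own x) (ha1 : ∀ y ∈ N, y ≤ H → rr x ≤ rr y) (Z : Finset L)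
    (hown : ∀ y ∈ N, y ≤ H → ¬ y ≤ x ⊔ c → rr y = rr x →
      (∃ v ∈ N, c ∈ own v ∧ v ⊔ c = y ⊔ c) ∨ y ⊔ c ∈ Z)
    (hrich : cls x ≤ 2 * (own x).card) (hw : Z.card + 1 ≤ (pen A x (x ⊔ c) H).card) :
    (1 : ℚ) / (own x).card ≤ ∑ g ∈ pen A x (x ⊔ c) H, sig N own rr c g := by
  apply val_rich_gen S P hxN hcx ha1 hrich (by omega)
  intro g hg
  have h1 := (core_sum_rho S P hxN hcx ha1 Z hown).1 g hg
  have h2 := h1.2
  rw [sum_card_EE S P] at h2
  omega

/-- POOR owners, general form.  `t` is the number of owned fellow rows. -/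
theorem val_poor_rho (S : SR A N u own cls rr) {x c H : L} (P : Pl A u x c H) (hxN : x ∈ N)
    (hcx : c ∈ own x) (ha1 : ∀ y ∈ N, y ≤ H → rr x ≤ rr y) (Z : Finset L)
    (hown : ∀ y ∈ N, y ≤ H → ¬ y ≤ x ⊔ c → rr y = rr x →
      (∃ v ∈ N, c ∈ own v ∧ v ⊔ c = y ⊔ c) ∨ y ⊔ c ∈ Z)
    (hpoor : cls x = 2 * (own x).card + 1) (hw : 1 ≤ (pen A x (x ⊔ c) H).card) (γ : L)
    (hs : ∀ g ∈ pen A x (x ⊔ c) H, g ≠ γ →
      (TT N rr g).card ≤ (pen A x (x ⊔ c) H).card + 1)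
    (hA : (∀ g ∈ pen A x (x ⊔ c) H, (TT N rr g).card ≤ (pen A x (x ⊔ c) H).card + 1) →
      2 ≤ (EE N own rr x c H (rr x)).card ∨
      ((EE N own rr x c H (rr x)).card = 1 ∧ Z.card + 2 ≤ (pen A x (x ⊔ c) H).card) ∨
      ((EE N own rr x c H (rr x)).card = 0 ∧ Z.card + 1 ≤ (pen A x (x ⊔ c) H).card))
    (hB : γ ∈ pen A x (x ⊔ c) H → (pen A x (x ⊔ c) H).card + 2 ≤ (TT N rr γ).card →
      (((pen A x (x ⊔ c) H).card : ℚ) + 1) * ((TT N rr γ).card + Z.card * (own x).card) ≤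
        ((pen A x (x ⊔ c) H).card - 1) * ((own x).card + 1) * (TT N rr γ).card +
          ((pen A x (x ⊔ c) H).card + 1) ∨
      ((own x).card = 1 ∧ (pen A x (x ⊔ c) H).card = 2 ∧ Z.card ≤ 1 ∧
        ∀ g ∈ pen A x (x ⊔ c) H, g ≠ γ → (TT N rr g).card ≤ 2)) :
    (1 : ℚ) / (own x).card ≤ ∑ g ∈ pen A x (x ⊔ c) H, sig N own rr c g := by
  obtain ⟨h1, h2⟩ := core_sum_rho S P hxN hcx ha1 Z hown
  rw [h2]
  refine value_poor_rho _ (fun g => (TT N rr g).card)
    (fun g => ((EE N own rr x c H (rr x)).filter (· ≤ g)).card) (own x).card Z.card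
    (FF N own rr x c H (rr x)) (S.own1 x hxN) hw γ (fun g _ => FF_ge S (fun v hv e => by have := S.mono v hv x hxN e.le; omega) g)
    (fun g hg => (h1 g hg).1) (fun g hg => (h1 g hg).2) hs ?_ hB
  rw [sum_card_EE S P]
  exact hA

/-- POOR owners, at most one unowned row, at least three lines off the row. -/
theorem val_poor_one (S : SR A N u own cls rr) {x c H : L} (P : Pl A u x c H) (hxN : x ∈ N)
    (hcx : c ∈ own x) (ha1 : ∀ y ∈ N, y ≤ H → rr x ≤ rr y) (Z : Finset L)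
    (hown : ∀ y ∈ N, y ≤ H → ¬ y ≤ x ⊔ c → rr y = rr x →
      (∃ v ∈ N, c ∈ own v ∧ v ⊔ c = y ⊔ c) ∨ y ⊔ c ∈ Z) (hZ : Z.card ≤ 1)
    (hpoor : cls x = 2 * (own x).card + 1) (hw : 3 ≤ (pen A x (x ⊔ c) H).card) (γ : L)
    (hs : ∀ g ∈ pen A x (x ⊔ c) H, g ≠ γ →
      (TT N rr g).card ≤ (pen A x (x ⊔ c) H).card + 1) :
    (1 : ℚ) / (own x).card ≤ ∑ g ∈ pen A x (x ⊔ c) H, sig N own rr c g := by
  obtain ⟨h1, h2⟩ := core_sum_rho S P hxN hcx ha1 Z hown
  rw [h2]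
  exact value_poor_one _ (fun g => (TT N rr g).card)
    (fun g => ((EE N own rr x c H (rr x)).filter (· ≤ g)).card) (own x).card Z.card
    (FF N own rr x c H (rr x)) (S.own1 x hxN) hZ hw γ (fun g _ => FF_ge S (fun v hv e => by have := S.mono v hv x hxN e.le; omega) g)
    (fun g hg => (h1 g hg).1) (fun g hg => (h1 g hg).2) hs

/-- POOR owners, helper29's condition: `γ` has most points of the lowest class, and the
sum of the reciprocals over the other lines is at least one half. -/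
theorem val_c2 (S : SR A N u own cls rr) {x c H : L} (P : Pl A u x c H) (hxN : x ∈ N)
    (hcx : c ∈ own x) (ha1 : ∀ y ∈ N, y ≤ H → rr x ≤ rr y) (Z : Finset L)
    (hown : ∀ y ∈ N, y ≤ H → ¬ y ≤ x ⊔ c → rr y = rr x →
      (∃ v ∈ N, c ∈ own v ∧ v ⊔ c = y ⊔ c) ∨ y ⊔ c ∈ Z) (hZ : Z.card ≤ 1)
    (hpoor : cls x = 2 * (own x).card + 1) {γ : L} (hγ : γ ∈ pen A x (x ⊔ c) H)
    (hmax : ∀ g ∈ pen A x (x ⊔ c) H, (TT N rr g).card ≤ (TT N rr γ).card)
    (hC : (1 : ℚ) / 2 ≤ ∑ g ∈ (pen A x (x ⊔ c) H).erase γ, (1 : ℚ) / (TT N rr g).card) :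
    (1 : ℚ) / (own x).card ≤ ∑ g ∈ pen A x (x ⊔ c) H, sig N own rr c g := by
  obtain ⟨h1, h2⟩ := core_sum_rho S P hxN hcx ha1 Z hown
  have h0 := S.own1 x hxN
  rw [h2]
  refine value_c2 _ (fun g => (TT N rr g).card)
    (fun g => ((EE N own rr x c H (rr x)).filter (· ≤ g)).card) (own x).card Z.card
    (FF N own rr x c H (rr x)) h0 γ hγ (fun g _ => FF_ge S (fun v hv e => by have := S.mono v hv x hxN e.le; omega) g)
    (fun g hg => (h1 g hg).1) (h1 γ hγ).2 hmax ?_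
  have haQ : (1 : ℚ) ≤ (own x).card := by exact_mod_cast h0
  have hn1 : (1 : ℚ) ≤ (TT N rr γ).card := by exact_mod_cast (h1 γ hγ).1
  have hZ1 : (Z.card : ℚ) ≤ 1 := by exact_mod_cast hZ
  have hZ0 : (0 : ℚ) ≤ Z.card := by positivity
  rcases Nat.lt_or_ge (TT N rr γ).card 2 with h3 | h3
  · have h4 : (TT N rr γ).card = 1 := le_antisymm (by omega) (h1 γ hγ).1
    obtain ⟨g0, hg0⟩ : ((pen A x (x ⊔ c) H).erase γ).Nonempty := by
      by_contra h5
      rw [Finset.not_nonempty_iff_eq_empty.mp h5, Finset.sum_empty] at hC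
      norm_num at hC
    have h6 : (1 : ℚ) ≤ ∑ g ∈ (pen A x (x ⊔ c) H).erase γ, (1 : ℚ) / (TT N rr g).card := by
      refine le_trans ?_ (Finset.single_le_sum
        (f := fun g => (1 : ℚ) / (TT N rr g).card) (fun g _ => by positivity) hg0)
      have h7 := (h1 g0 (Finset.mem_of_mem_erase hg0)).1
      have h8 := hmax g0 (Finset.mem_of_mem_erase hg0)
      have h9 : (TT N rr g0).card = 1 := by omega
      rw [h9]
      norm_num
    refine le_trans ?_ h6
    rw [h4, div_le_one (by positivity)]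
    push_cast
    nlinarith
  · refine le_trans ?_ hC
    have hn2 : (2 : ℚ) ≤ (TT N rr γ).card := by exact_mod_cast h3
    rw [div_le_div_iff₀ (by positivity) (by norm_num)]
    nlinarith [mul_nonneg (sub_nonneg.mpr haQ) (sub_nonneg.mpr hn2),
      mul_le_mul_of_nonneg_right hZ1 (by linarith : (0 : ℚ) ≤ (own x).card)]

/-- The lowest class points of a line are at most its points. -/
theorem card_TT_le (S : SR A N u own cls rr) (g : L) :
    (TT N rr g).card ≤ (A.filter (· ≤ g)).card := by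
  apply Finset.card_le_card
  intro v hv
  obtain ⟨h1, h2, -⟩ := mem_TT.mp hv
  exact Finset.mem_filter.mpr ⟨S.mem v h1, h2⟩


end Pool.Agent.Helper80.BP.R
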